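import Pool.Agent.K9h92.MP.Stm2

/-!
# Leaf A (helper14): words in `Io`, `Mo` commute up to a power of `E`
-/

set_option autoImplicit false

namespace Pool.Agent.K9h92.MQ

open Pool.Agent.K9h92.MP Pool.Agent.K9h92.MP2

namespace LA

lemma io_end (N : ℕ) (f : ℕ → ℝ) {j : ℕ} (h : N ≤ j) : Io N f j = 0 := by
  rw [Io, Finset.Ico_eq_empty_of_le h, Finset.sum_empty]

lemma io_step (N : ℕ) (f : ℕ → ℝ) {j : ℕ} (h : j < N) : Io N f j = f (j + 1) + Io N f (j + 1) := by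
  rw [Io, Finset.sum_eq_sum_Ico_succ_bot h]; rfl

lemma io_nonneg {N : ℕ} {f : ℕ → ℝ} (hf : ∀ j, 0 ≤ f j) (j : ℕ) : 0 ≤ Io N f j :=
  Finset.sum_nonneg fun _ _ => hf _

lemma mo_nonneg {f : ℕ → ℝ} (hf : ∀ j, 0 ≤ f j) (j : ℕ) : 0 ≤ Mo f j :=
  mul_nonneg (hf j) (by positivity)

lemma R2_mo {N : ℕ} {σ γ : ℝ} {f : ℕ → ℝ} (h : R2 N σ γ f) (hσ : 0 ≤ σ + γ) : R2 N σ (γ + 1) (Mo f) := by
  refine ⟨mo_nonneg h.1, fun j hj hjN => ?_⟩
  have h1 := h.2 j hj hjN
  have hj0 : (0 : ℝ) < j := by exact_mod_cast hj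
  have hf1 := h.1 (j + 1)
  have h2 : (0 : ℝ) ≤ (σ + γ) * f (j + 1) := mul_nonneg hσ hf1
  have h3 : ((j : ℝ) + 1) * (((j : ℝ) + σ + γ) * f (j + 1)) ≤ ((j : ℝ) + 1) * (((j : ℝ) + σ) * f j) :=
    mul_le_mul_of_nonneg_left h1 (by linarith)
  rw [Mo, Mo, ← div_eq_mul_inv, ← div_eq_mul_inv, mul_div_assoc', mul_div_assoc',
    div_le_div_iff₀ (by positivity) hj0]
  push_cast
  linarith

lemma io_bound {N : ℕ} {σ γ : ℝ} {f : ℕ → ℝ} (h : R2 N σ γ f) (hσ : 0 ≤ σ) :
    ∀ j : ℕ, 1 ≤ j → j ≤ N → (γ - 1) * Io N f j ≤ (j + σ) * f j := by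
  refine down ?_ ?_
  · rw [io_end N f le_rfl, mul_zero]
    have := h.1 N
    positivity
  · intro j hj hjN ih
    rw [io_step N f hjN]
    have h1 := h.2 j hj hjN
    push_cast at ih
    linarith

lemma R2_io {N : ℕ} {σ γ : ℝ} {f : ℕ → ℝ} (h : R2 N σ γ f) (hσ : 0 ≤ σ) : R2 N (σ + 1) (γ - 1) (Io N f) := by
  refine ⟨io_nonneg h.1, fun j hj hjN => ?_⟩
  have h1 := io_bound h hσ (j + 1) (by omega) (by omega)
  rw [io_step N f hjN]
  push_cast at h1 ⊢
  linarith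

lemma io_rel (N : ℕ) (f : ℕ → ℝ) : ∀ j : ℕ, 1 ≤ j → j ≤ N →
    Io N f j = j * Io N (Mo f) j + Io N (Mo f) j + Io N (Io N (Mo f)) j := by
  refine down ?_ ?_
  · rw [io_end N _ le_rfl, io_end N _ le_rfl, io_end N _ le_rfl]; ring
  · intro j hj hjN ih
    rw [io_step N f hjN, ih, io_step N (Mo f) hjN, io_step N (Io N (Mo f)) hjN]
    have e : Mo f (j + 1) * ((j + 1 : ℕ) : ℝ) = f (j + 1) := by
      rw [Mo, mul_assoc, inv_mul_cancel₀ (by positivity), mul_one]
    push_cast at e ⊢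
    linear_combination (-1) * e

lemma comm_W {N b : ℕ} {A E σ γ : ℝ} {f : ℕ → ℝ} (hb : 1 ≤ b) (hA : 0 ≤ A)
    (hE : 1 + (2 / b + 1 / (A + 1)) ≤ E)
    (h : R2 N σ γ f) (hσ : 0 ≤ σ) (hσA : σ ≤ A) (hγ : A + 2 ≤ γ) :
    W N b E (Io N (Mo f)) (Mo (Io N f)) := by
  intro j hbj hjN
  have hb0 : (1 : ℝ) ≤ b := by exact_mod_cast hb
  have hbj' : (b : ℝ) ≤ j := by exact_mod_cast hbj
  have hj0 : (0 : ℝ) < j := by linarith
  have hG := R2_io (R2_mo h (by linarith)) hσ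
  have h1 := io_bound hG (by linarith) j (by omega) hjN
  have h2 := io_rel N f j (by omega) hjN
  have hG0 : 0 ≤ Io N (Mo f) j := hG.1 j
  have hIG0 : 0 ≤ Io N (Io N (Mo f)) j := io_nonneg hG.1 j
  have e0 : Mo (Io N f) j = Io N (Mo f) j + (Io N (Mo f) j + Io N (Io N (Mo f)) j) / j := by
    rw [Mo, h2]
    field_simp
    ring
  have hM0 : 0 ≤ Mo (Io N f) j := mo_nonneg (io_nonneg h.1) j
  generalize Io N (Mo f) j = G at *
  generalize Io N (Io N (Mo f)) j = I at *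
  generalize Mo (Io N f) j = M at *
  have h3 : I ≤ (j / (A + 1) + 1) * G := by
    have h30 : (A + 1) * I ≤ (j + (A + 1)) * G := by
      calc (A + 1) * I ≤ (γ + 1 - 1 - 1) * I := mul_le_mul_of_nonneg_right (by linarith) hIG0
        _ ≤ (j + (σ + 1)) * G := h1
        _ ≤ _ := mul_le_mul_of_nonneg_right (by linarith) hG0
    have e : (j / (A + 1) + 1) * G = (j + (A + 1)) * G / (A + 1) := by
      have : A + 1 ≠ 0 := by positivity
      field_simp
    rw [e, le_div_iff₀ (by linarith)]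
    linarith
  have h5 : (2 : ℝ) ≤ 2 / b * j := by
    rw [div_mul_eq_mul_div, le_div_iff₀ (by linarith)]
    linarith
  have h4 : (G + I) / j ≤ (2 / b + 1 / (A + 1)) * G := by
    rw [div_le_iff₀ hj0]
    calc G + I ≤ G + (j / (A + 1) + 1) * G := by linarith
      _ = 2 * G + j / (A + 1) * G := by ring
      _ ≤ (2 / b * j) * G + j / (A + 1) * G := by linarith [mul_le_mul_of_nonneg_right h5 hG0]
      _ = _ := by ring
  have h6 : 0 ≤ (G + I) / j := by positivity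
  have h7 : (0 : ℝ) ≤ 2 / b + 1 / (A + 1) := by positivity
  have hE1 : 1 ≤ E := by linarith
  refine ⟨hG0, hM0, ?_, ?_⟩
  · calc G ≤ M := by rw [e0]; linarith
      _ ≤ E * M := le_mul_of_one_le_left hM0 hE1
  · calc M = G + (G + I) / j := e0
      _ ≤ G + (2 / b + 1 / (A + 1)) * G := by linarith
      _ = (1 + (2 / b + 1 / (A + 1))) * G := by ring
      _ ≤ E * G := mul_le_mul_of_nonneg_right hE hG0

lemma W_mo {N b : ℕ} {c : ℝ} {f g : ℕ → ℝ} (h : W N b c f g) : W N b c (Mo f) (Mo g) := fun j hb hN => by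
  obtain ⟨a1, a2, a3, a4⟩ := h j hb hN
  have hi : (0 : ℝ) ≤ (j : ℝ)⁻¹ := by positivity
  refine ⟨mul_nonneg a1 hi, mul_nonneg a2 hi, ?_, ?_⟩
  · rw [Mo, Mo, ← mul_assoc]; exact mul_le_mul_of_nonneg_right a3 hi
  · rw [Mo, Mo, ← mul_assoc]; exact mul_le_mul_of_nonneg_right a4 hi

lemma W_io {N b : ℕ} {c : ℝ} {f g : ℕ → ℝ} (h : W N b c f g) : W N b c (Io N f) (Io N g) := fun j hb hN => by
  have hh : ∀ n ∈ Finset.Ico j N, b ≤ n + 1 ∧ n + 1 ≤ N := fun n hn => by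
    have := Finset.mem_Ico.1 hn
    omega
  refine ⟨?_, ?_, ?_, ?_⟩
  · exact Finset.sum_nonneg fun n hn => (h _ (hh n hn).1 (hh n hn).2).1
  · exact Finset.sum_nonneg fun n hn => (h _ (hh n hn).1 (hh n hn).2).2.1
  · rw [Io, Io, Finset.mul_sum]
    exact Finset.sum_le_sum fun n hn => (h _ (hh n hn).1 (hh n hn).2).2.2.1
  · rw [Io, Io, Finset.mul_sum]
    exact Finset.sum_le_sum fun n hn => (h _ (hh n hn).1 (hh n hn).2).2.2.2

lemma W_ev {N b : ℕ} {c : ℝ} (w : List Bool) : ∀ {f g : ℕ → ℝ}, W N b c f g → W N b c (ev N w f) (ev N w g) := by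
  induction w with
  | nil => intro f g h; exact h
  | cons a w ih =>
    intro f g h
    cases a with
    | true => exact ih (W_io h)
    | false => exact ih (W_mo h)

lemma ev_nonneg {N : ℕ} (w : List Bool) : ∀ {f : ℕ → ℝ}, (∀ j, 0 ≤ f j) → ∀ j, 0 ≤ ev N w f j := by
  induction w with
  | nil => intro f hf j; exact hf j
  | cons a w ih =>
    intro f hf j
    cases a with
    | true => exact ih (io_nonneg hf) j
    | false => exact ih (mo_nonneg hf) j

end LA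

open LA

theorem a_thm : S_A := by
  intro w w' hp
  induction hp with
  | nil =>
    refine ⟨0, ?_⟩
    rintro N b A E f hb hA hE ⟨σ, γ, h, _⟩
    rw [pow_zero]
    exact W.refl le_rfl h.1
  | cons a hp ih =>
    obtain ⟨K, hK⟩ := ih
    refine ⟨K, ?_⟩
    rintro N b A E f hb hA hE ⟨σ, γ, h, h1, h2, h3⟩
    rw [List.length_cons] at h2 h3
    push_cast at h2 h3
    cases a with
    | true => exact hK N b A E (Io N f) hb hA hE ⟨σ + 1, γ - 1, R2_io h h1, by linarith, by linarith, by linarith⟩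
    | false =>
      have hl := Nat.cast_nonneg (α := ℝ) (List.length (by assumption : List Bool))
      exact hK N b A E (Mo f) hb hA hE ⟨σ, γ + 1, R2_mo h (by linarith), h1, by linarith, by linarith⟩
  | swap x y l =>
    refine ⟨1, ?_⟩
    rintro N b A E f hb hA hE ⟨σ, γ, h, h1, h2, h3⟩
    rw [List.length_cons, List.length_cons] at h2 h3
    have hl : (0 : ℝ) ≤ l.length := Nat.cast_nonneg _
    push_cast at h2 h3
    rw [pow_one]
    have hE1 : 1 ≤ E := by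
      have : (0 : ℝ) ≤ 2 / b + 1 / (A + 1) := by positivity
      linarith
    have hc := comm_W hb hA hE h h1 (by linarith) (by linarith)
    cases x with
    | true =>
      cases y with
      | true => exact W.refl hE1 (ev_nonneg _ h.1)
      | false => exact W_ev l hc
    | false =>
      cases y with
      | true => exact W_ev l hc.symm
      | false => exact W.refl hE1 (ev_nonneg _ h.1)
  | trans hp1 hp2 ih1 ih2 =>
    obtain ⟨K1, hK1⟩ := ih1
    obtain ⟨K2, hK2⟩ := ih2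
    refine ⟨K1 + K2, ?_⟩
    intro N b A E f hb hA hE hh
    have hE0 : 0 ≤ E := by
      have : (0 : ℝ) ≤ 2 / b + 1 / (A + 1) := by positivity
      linarith
    rw [pow_add]
    refine W.trans (by positivity) (by positivity) (hK1 N b A E f hb hA hE hh) (hK2 N b A E f hb hA hE ?_)
    rw [← hp1.length_eq]
    exact hh

end Pool.Agent.K9h92.MQ
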