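import Pool.Agent.K9h92.MP.Stm2

/-!
# Leaf B: expectation bound through `q` (helper96 for helper92)
-/

set_option autoImplicit false

namespace Pool.Agent.K9h92.MQ

open Pool.Agent.K9h92.MP Pool.Agent.K9h92.MP2

/-- downward induction from `N` to `0` -/
lemma b_down0 {P : ℕ → Prop} {N : ℕ} (h0 : P N) (h : ∀ j, j < N → P (j + 1) → P j) :
    ∀ j, j ≤ N → P j := by
  have : ∀ d j, j + d = N → P j := by
    intro d
    induction d with
    | zero => intro j hj; rw [← hj] at h0; exact h0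
    | succ d ih => intro j hjd; exact h j (by omega) (ih (j + 1) (by omega))
  intro j hjN
  exact this (N - j) j (by omega)

lemma b_key2 {x σ γ F0 F1 : ℝ} (hx : 0 < x) (hσ : 1 ≤ σ) (hγ : 0 ≤ γ) (hF0 : 0 ≤ F0) (hF1 : 0 ≤ F1) (t : ℕ)
    (h : (x + σ + γ) * F1 ≤ (x + σ) * F0) :
    (x + σ + γ + t) * (F1 * ((x + 1) ^ (t + 1))⁻¹) ≤ (x + σ - 1) * (F0 * (x ^ (t + 1))⁻¹) := by
  have h1 := key x (σ + γ - 1) hx (by linarith) t
  have h1' : (x + σ + γ + t) * x ^ t ≤ (x + σ + γ) * (x + 1) ^ t := by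
    have e1 : x + 1 + (σ + γ - 1) + (t : ℝ) = x + σ + γ + t := by ring
    have e2 : x + 1 + (σ + γ - 1) = x + σ + γ := by ring
    rw [e1, e2] at h1
    exact h1
  have e1 : (x + σ - 1) * (F0 * (x ^ (t + 1))⁻¹) = ((x + σ - 1) * F0) / x ^ (t + 1) := by
    field_simp
  have e2 : (x + σ + γ + t) * (F1 * ((x + 1) ^ (t + 1))⁻¹) = ((x + σ + γ + t) * F1) / (x + 1) ^ (t + 1) := by
    field_simp
  rw [e1, e2, div_le_div_iff₀ (by positivity) (by positivity)]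
  have hp : 0 ≤ (x + 1) ^ t := by positivity
  calc (x + σ + γ + t) * F1 * x ^ (t + 1) = x * F1 * ((x + σ + γ + t) * x ^ t) := by ring
    _ ≤ x * F1 * ((x + σ + γ) * (x + 1) ^ t) := mul_le_mul_of_nonneg_left h1' (by positivity)
    _ = x * (x + 1) ^ t * ((x + σ + γ) * F1) := by ring
    _ ≤ x * (x + 1) ^ t * ((x + σ) * F0) := mul_le_mul_of_nonneg_left h (by positivity)
    _ = F0 * (x + 1) ^ t * (x * (x + σ)) := by ring
    _ ≤ F0 * (x + 1) ^ t * ((x + 1) * (x + σ - 1)) := by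
        refine mul_le_mul_of_nonneg_left ?_ (by positivity)
        nlinarith
    _ = ((x + σ - 1) * F0) * (x + 1) ^ (t + 1) := by ring

lemma b_bound {N s : ℕ} {σ γ : ℝ} {f : ℕ → ℝ} (hf : R2 N σ γ f) (hs : 1 ≤ s) (hσ : 1 ≤ σ) (hγ : 0 ≤ γ) :
    ∀ j : ℕ, 1 ≤ j → j ≤ N → (γ + s - 1) * op N s f j ≤ (j + σ - 1) * (f j * ((j : ℝ) ^ s)⁻¹) := by
  obtain ⟨t, rfl⟩ : ∃ t, s = t + 1 := ⟨s - 1, by omega⟩
  refine down ?_ ?_
  · rw [op_end N _ f le_rfl, mul_zero]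
    have := hf.1 N
    have hN : (0 : ℝ) ≤ N := Nat.cast_nonneg N
    have h2 : 0 ≤ (N : ℝ) + σ - 1 := by linarith
    positivity
  · intro j hj hjN ih
    rw [op_step N _ f hjN]
    have h1 := hf.2 j hj hjN
    have hj0 : (0 : ℝ) < j := by exact_mod_cast hj
    have h2 := b_key2 hj0 hσ hγ (hf.1 j) (hf.1 (j + 1)) t h1
    push_cast at ih ⊢
    set A := f (j + 1) * (((j : ℝ) + 1) ^ (t + 1))⁻¹ with hA
    linarith

/-- `(j + σ + β) S(j+1) ≤ (j + σ) S(j)` for all `j < N` -/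
lemma b_dec {N s : ℕ} {σ γ : ℝ} {f : ℕ → ℝ} (hf : R2 N σ γ f) (hs : 1 ≤ s) (hσ : 1 ≤ σ) (hγ : 0 ≤ γ)
    (j : ℕ) (hj : j < N) : ((j : ℝ) + σ + γ) * op N s f (j + 1) ≤ ((j : ℝ) + σ) * op N s f j := by
  have h1 := b_bound hf hs hσ hγ (j + 1) (by omega) (by omega)
  have h3 : 0 ≤ op N s f (j + 1) := op_nonneg hf.1 _
  have hs' : (1 : ℝ) ≤ s := by exact_mod_cast hs
  rw [op_step N s f hj]
  push_cast at h1 ⊢
  nlinarith

lemma b_R2 {N s : ℕ} {σ γ : ℝ} {f : ℕ → ℝ} (hf : R2 N σ γ f) (hs : 1 ≤ s) (hσ : 1 ≤ σ) (hγ : 0 ≤ γ) :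
    R2 N σ γ (op N s f) :=
  ⟨op_nonneg hf.1, fun j _ hj => b_dec hf hs hσ hγ j hj⟩

/-- sums of tails -/
lemma b_tail {N : ℕ} {σ γ : ℝ} {S : ℕ → ℝ} (hS : ∀ j, 0 ≤ S j) (hσ : 1 ≤ σ) (hγ : 0 ≤ γ)
    (h : ∀ j : ℕ, j < N → ((j : ℝ) + σ + γ) * S (j + 1) ≤ ((j : ℝ) + σ) * S j) :
    ∀ j, j ≤ N → (γ - 1) * star N S j ≤ (j + σ - 1 + γ) * S j := by
  refine b_down0 ?_ ?_
  · rw [star_end N _ le_rfl, mul_zero]
    have hN : (0 : ℝ) ≤ N := Nat.cast_nonneg N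
    have := hS N
    have h2 : 0 ≤ (N : ℝ) + σ - 1 + γ := by linarith
    positivity
  · intro j hj ih
    rw [star_step N _ hj]
    have h1 := h j hj
    push_cast at ih
    linarith

/-- `∑_{i > l} (i + τ) A_i = (l + τ) S(l) + ∑_{i ≥ l} S(i)` -/
lemma b_shift (N s : ℕ) (τ : ℝ) (f : ℕ → ℝ) : ∀ l, l ≤ N →
    op N s (fun j => ((j : ℝ) + τ) * f j) l = (l + τ) * op N s f l + star N (op N s f) l := by
  refine b_down0 ?_ ?_
  · rw [op_end N _ _ le_rfl, op_end N _ _ le_rfl, star_end N _ le_rfl]; ring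
  · intro j hj ih
    rw [op_step N s _ hj, ih, star_step N _ hj, op_step N s f hj]
    push_cast
    ring

lemma b_one {N s : ℕ} {σ γ τ : ℝ} {f : ℕ → ℝ} (hf : R2 N σ γ f) (hs : 1 ≤ s) (hσ : 1 ≤ σ) (hγ : 2 ≤ γ)
    (hσγ : σ ≤ γ) (hτ : 0 ≤ τ) (l : ℕ) :
    op N s (fun j => ((j : ℝ) + τ) * f j) l ≤ (1 + 1 / (γ - 1)) * ((l + (τ + 2)) * op N s f l) := by
  rcases le_total N l with hl | hl
  · rw [op_end N _ _ hl, op_end N _ _ hl]; simp
  · rw [b_shift N s τ f l hl]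
    have h1 := b_tail (op_nonneg hf.1) hσ (by linarith) (b_dec hf hs hσ (by linarith)) l hl
    have h2 : 0 ≤ op N s f l := op_nonneg hf.1 _
    have h3 : 0 < γ - 1 := by linarith
    have hl0 : (0 : ℝ) ≤ l := Nat.cast_nonneg l
    set S := op N s f l with hS
    set T := star N (op N s f) l with hT
    have e : (1 + 1 / (γ - 1)) * ((l + (τ + 2)) * S) = (γ * ((l + (τ + 2)) * S)) / (γ - 1) := by
      field_simp
      ring
    rw [e, le_div_iff₀ h3]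
    have h4 : ((l + τ) * S + T) * (γ - 1) ≤ (l + τ) * S * (γ - 1) + (l + σ - 1 + γ) * S := by linarith
    refine h4.trans ?_
    have h5 : (l + τ) * (γ - 1) + (l + σ - 1 + γ) ≤ γ * (l + (τ + 2)) := by nlinarith
    calc (l + τ) * S * (γ - 1) + (l + σ - 1 + γ) * S = ((l + τ) * (γ - 1) + (l + σ - 1 + γ)) * S := by ring
      _ ≤ (γ * (l + (τ + 2))) * S := mul_le_mul_of_nonneg_right h5 h2
      _ = _ := by ring

lemma b_op_mono {N s : ℕ} {f g : ℕ → ℝ} (h : ∀ j, f j ≤ g j) (j : ℕ) : op N s f j ≤ op N s g j :=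
  Finset.sum_le_sum fun n _ => mul_le_mul_of_nonneg_right (h _) (by positivity)

lemma b_ops_mono {N : ℕ} (w : List ℕ) : ∀ {f g : ℕ → ℝ}, (∀ j, f j ≤ g j) → ∀ j, ops N w f j ≤ ops N w g j := by
  induction w with
  | nil => intro f g h j; exact h j
  | cons s w ih => intro f g h j; exact ih (b_op_mono h) j

lemma b_op_smul (N s : ℕ) (c : ℝ) (f : ℕ → ℝ) : op N s (fun j => c * f j) = fun j => c * op N s f j := by
  funext j
  rw [op, op, Finset.mul_sum]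
  exact Finset.sum_congr rfl fun n _ => by ring

lemma b_ops_smul (N : ℕ) (c : ℝ) (w : List ℕ) : ∀ f : ℕ → ℝ, ops N w (fun j => c * f j) = fun j => c * ops N w f j := by
  induction w with
  | nil => intro f; rfl
  | cons s w ih => intro f; rw [ops, b_op_smul, ih]; rfl

lemma b_iter {N : ℕ} {σ γ : ℝ} (hσ : 1 ≤ σ) (hγ : 2 ≤ γ) (hσγ : σ ≤ γ) (q : List ℕ) :
    ∀ (g : ℕ → ℝ) (τ : ℝ), (∀ x ∈ q, 1 ≤ x) → R2 N σ γ g → 0 ≤ τ → ∀ l : ℕ,
      ops N q (fun j => ((j : ℝ) + τ) * g j) l ≤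
        (1 + 1 / (γ - 1)) ^ q.length * ((l + (τ + 2 * q.length)) * ops N q g l) := by
  induction q with
  | nil => intro g τ _ _ _ l; simp [ops]
  | cons s q ih =>
    intro g τ hq hg hτ l
    have hs : 1 ≤ s := hq s (by simp)
    have hρ : 0 ≤ 1 + 1 / (γ - 1) := by
      have : 0 < γ - 1 := by linarith
      positivity
    calc ops N (s :: q) (fun j => ((j : ℝ) + τ) * g j) l
        = ops N q (op N s (fun j => ((j : ℝ) + τ) * g j)) l := rfl
      _ ≤ ops N q (fun l => (1 + 1 / (γ - 1)) * ((l + (τ + 2)) * op N s g l)) l :=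
          b_ops_mono q (fun l => b_one hg hs hσ hγ hσγ hτ l) l
      _ = (1 + 1 / (γ - 1)) * ops N q (fun l => (l + (τ + 2)) * op N s g l) l := by
          rw [b_ops_smul]
      _ ≤ (1 + 1 / (γ - 1)) * ((1 + 1 / (γ - 1)) ^ q.length *
            ((l + ((τ + 2) + 2 * q.length)) * ops N q (op N s g) l)) := by
          refine mul_le_mul_of_nonneg_left ?_ hρ
          exact ih (op N s g) (τ + 2) (fun x hx => hq x (by simp [hx])) (b_R2 hg hs hσ (by linarith)) (by linarith) l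
      _ = _ := by
          rw [List.length_cons, pow_succ]
          push_cast
          simp only [ops]
          ring

theorem b_thm : S_B := by
  intro Λ hΛ
  refine ⟨2 * Real.exp (2 * Λ), by positivity, ?_⟩
  intro N q g σ γ hq hg hσ hσγ hγ hqΛ
  have h := b_iter hσ hγ hσγ q g 0 hq hg le_rfl 0
  have h3 : 0 < γ - 1 := by linarith
  have hS : 0 ≤ ops N q g 0 := ops_nonneg q hg.1 0
  have hρ : (1 + 1 / (γ - 1)) ^ q.length ≤ Real.exp (2 * Λ) := by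
    have h1 : 1 + 1 / (γ - 1) ≤ Real.exp (1 / (γ - 1)) := by
      have := Real.add_one_le_exp (1 / (γ - 1))
      linarith
    calc (1 + 1 / (γ - 1)) ^ q.length ≤ (Real.exp (1 / (γ - 1))) ^ q.length :=
          pow_le_pow_left₀ (by positivity) h1 _
      _ = Real.exp (q.length * (1 / (γ - 1))) := by rw [← Real.exp_nat_mul]
      _ ≤ Real.exp (2 * Λ) := by
          refine Real.exp_le_exp.mpr ?_
          rw [mul_one_div, div_le_iff₀ h3]
          nlinarith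
  have e : (fun j : ℕ => ((j : ℝ) + 0) * g j) = fun j : ℕ => (j : ℝ) * g j := by
    funext j; rw [add_zero]
  rw [e] at h
  refine h.trans ?_
  have h4 : 0 ≤ ((0 : ℕ) + ((0 : ℝ) + 2 * q.length)) * ops N q g 0 := by
    push_cast
    positivity
  calc (1 + 1 / (γ - 1)) ^ q.length * (((0 : ℕ) + ((0 : ℝ) + 2 * q.length)) * ops N q g 0)
      ≤ Real.exp (2 * Λ) * (((0 : ℕ) + ((0 : ℝ) + 2 * q.length)) * ops N q g 0) :=
        mul_le_mul_of_nonneg_right hρ h4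
    _ = _ := by push_cast; ring

end Pool.Agent.K9h92.MQ
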