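import Pool.Agent.K9h92.MP.Stm2

/-! Leaf C: the commutator with `J = Io Mo Mo` -/

set_option autoImplicit false

namespace Pool.Agent.K9h92.MQC

open Pool.Agent.K9h92.MQ

lemma ev_append (N : ℕ) (u v : List Bool) : ∀ f : ℕ → ℝ, ev N (u ++ v) f = ev N v (ev N u f) := by
  induction u with
  | nil => intro f; rfl
  | cons a u ih =>
    intro f
    cases a
    · exact ih _
    · exact ih _

lemma ev_congr (N : ℕ) (w : List Bool) : ∀ f g : ℕ → ℝ, (∀ j, 1 ≤ j → f j = g j) →
    ∀ j, 1 ≤ j → ev N w f j = ev N w g j := by
  induction w with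
  | nil => intro f g h j hj; exact h j hj
  | cons a w ih =>
    intro f g h j hj
    cases a
    · refine ih (Mo f) (Mo g) (fun i hi => ?_) j hj
      rw [Mo, Mo, h i hi]
    · refine ih (Io N f) (Io N g) (fun i _ => ?_) j hj
      rw [Io, Io]
      exact Finset.sum_congr rfl fun n _ => h (n + 1) (by omega)

lemma ev_lin (N : ℕ) (w : List Bool) (c : ℝ) : ∀ (f g : ℕ → ℝ) (j : ℕ),
    ev N w (fun i => c * f i + g i) j = c * ev N w f j + ev N w g j := by
  induction w with
  | nil => intro f g j; rfl
  | cons a w ih =>
    intro f g j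
    cases a
    · have h1 : Mo (fun i => c * f i + g i) = fun i => c * Mo f i + Mo g i := by
        funext i
        simp only [Mo]
        ring
      show ev N w (Mo (fun i => c * f i + g i)) j = c * ev N w (Mo f) j + ev N w (Mo g) j
      rw [h1]
      exact ih _ _ j
    · have h1 : Io N (fun i => c * f i + g i) = fun i => c * Io N f i + Io N g i := by
        funext i
        simp only [Io]
        rw [Finset.sum_add_distrib, Finset.mul_sum]
      show ev N w (Io N (fun i => c * f i + g i)) j = c * ev N w (Io N f) j + ev N w (Io N g) j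
      rw [h1]
      exact ih _ _ j

lemma ev_zero (N : ℕ) (w : List Bool) (j : ℕ) : ev N w (fun _ => 0) j = 0 := by
  have h := ev_lin N w 1 (fun _ => 0) (fun _ => 0) j
  simp only [mul_zero, add_zero, one_mul] at h
  linarith

lemma ev_sum (N : ℕ) (w : List Bool) (F : ℤ × List Bool → ℕ → ℝ) (j : ℕ) :
    ∀ L : List (ℤ × List Bool), ev N w (fun i => (L.map fun x => (x.1 : ℝ) * F x i).sum) j =
      (L.map fun x => (x.1 : ℝ) * ev N w (F x) j).sum := by
  intro L
  induction L with
  | nil => exact ev_zero N w j
  | cons x L ih =>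
    simp only [List.map_cons, List.sum_cons]
    rw [ev_lin, ih]

lemma io_step (N : ℕ) (g : ℕ → ℝ) {j : ℕ} (h : j < N) : Io N g j = g (j + 1) + Io N g (j + 1) := by
  rw [Io, Io, Finset.sum_eq_sum_Ico_succ_bot h]

lemma io_end (N : ℕ) (g : ℕ → ℝ) {j : ℕ} (h : N ≤ j) : Io N g j = 0 := by
  rw [Io, Finset.Ico_eq_empty_of_le h, Finset.sum_empty]

lemma rel0 (N : ℕ) (f : ℕ → ℝ) : ∀ d j : ℕ, N ≤ j + d →
    ((j : ℝ) + 1) * Io N (Mo f) j + Io N (Io N (Mo f)) j = Io N f j := by
  intro d
  induction d with
  | zero =>
    intro j hj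
    rw [io_end N _ (by omega : N ≤ j), io_end N _ (by omega : N ≤ j), io_end N _ (by omega : N ≤ j)]
    ring
  | succ d ih =>
    intro j hj
    rcases Nat.lt_or_ge j N with h | h
    · have h1 := ih (j + 1) (by omega)
      rw [io_step N (Mo f) h, io_step N (Io N (Mo f)) h, io_step N f h]
      have h2 : ((j : ℝ) + 1) * Mo f (j + 1) = f (j + 1) := by
        have h3 : ((j : ℝ) + 1) ≠ 0 := by positivity
        rw [Mo]
        push_cast
        field_simp
      push_cast at h1
      linear_combination h1 + h2
    · rw [io_end N _ h, io_end N _ h, io_end N _ h]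
      ring

/-- the exact relation -/
lemma rel (N : ℕ) (f : ℕ → ℝ) (j : ℕ) (hj : 1 ≤ j) :
    Mo (Io N f) j = Io N (Mo f) j + Mo (Io N (Mo f)) j + Mo (Io N (Io N (Mo f))) j := by
  have h1 := rel0 N f N j (by omega)
  have h2 : (j : ℝ) ≠ 0 := by
    have : (1 : ℝ) ≤ j := by exact_mod_cast hj
    positivity
  rw [Mo, Mo, Mo, ← h1]
  field_simp

lemma one_letter (N : ℕ) (a : Bool) (f : ℕ → ℝ) (j : ℕ) (hj : 1 ≤ j) :
    ev N [false, false, true, a] f j - ev N [a, false, false, true] f j =
      ((der1 a).map fun x => (x.1 : ℝ) * ev N x.2 f j).sum := by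
  cases a
  · have h1 := rel N (Mo (Mo f)) j hj
    simp only [der1, List.map_cons, List.map_nil, List.sum_cons, List.sum_nil, ev, Int.cast_one]
    linarith
  · simp only [der1, List.map_cons, List.map_nil, List.sum_cons, List.sum_nil, ev, Int.cast_neg,
      Int.cast_one]
    have h1 : ∀ i, 1 ≤ i → Mo (Mo (Io N f)) i = Io N (Mo (Mo f)) i + Mo (Io N (Mo (Mo f))) i +
        Mo (Io N (Io N (Mo (Mo f)))) i + Mo (Mo (Io N (Mo f))) i +
        Mo (Mo (Io N (Io N (Mo f)))) i := by
      intro i hi
      have h2 := rel N (Mo f) i hi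
      have h3 : Mo (Mo (Io N f)) i = Mo (Io N (Mo f)) i + Mo (Mo (Io N (Mo f))) i +
          Mo (Mo (Io N (Io N (Mo f)))) i := by
        have h4 : Mo (Mo (Io N f)) i = Mo (Io N f) i * (i : ℝ)⁻¹ := rfl
        rw [h4, rel N f i hi]
        simp only [Mo]
        ring
      rw [h3, h2]
    have h2 : Io N (Mo (Mo (Io N f))) j = Io N (Io N (Mo (Mo f))) j +
        Io N (Mo (Io N (Mo (Mo f)))) j + Io N (Mo (Io N (Io N (Mo (Mo f))))) j +
        Io N (Mo (Mo (Io N (Mo f)))) j + Io N (Mo (Mo (Io N (Io N (Mo f))))) j := by
      have h3 : Io N (Mo (Mo (Io N f))) j = ∑ n ∈ Finset.Ico j N, Mo (Mo (Io N f)) (n + 1) := rfl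
      rw [h3, Finset.sum_congr rfl fun n _ => h1 (n + 1) (by omega), Finset.sum_add_distrib,
        Finset.sum_add_distrib, Finset.sum_add_distrib, Finset.sum_add_distrib]
      rfl
    linarith

lemma first (w : List Bool) : ∀ (N : ℕ) (f : ℕ → ℝ) (j : ℕ), 1 ≤ j →
    ev N ([false, false, true] ++ w) f j - ev N (w ++ [false, false, true]) f j =
      ((der w).map fun x => (x.1 : ℝ) * ev N x.2 f j).sum := by
  induction w with
  | nil =>
    intro N f j hj
    simp [der]
  | cons a w ih =>
    intro N f j hj
    have e1 : ev N ([false, false, true] ++ a :: w) f = ev N w (ev N [false, false, true, a] f) := by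
      rw [show [false, false, true] ++ a :: w = [false, false, true, a] ++ w by simp, ev_append]
    have e2 : ev N ([a, false, false, true] ++ w) f = ev N w (ev N [a, false, false, true] f) :=
      ev_append _ _ _ _
    have e3 : ev N (a :: w ++ [false, false, true]) f =
        ev N (w ++ [false, false, true]) (ev N [a] f) := by
      rw [show a :: w ++ [false, false, true] = [a] ++ (w ++ [false, false, true]) by simp, ev_append]
    have e4 : ev N ([a, false, false, true] ++ w) f =
        ev N ([false, false, true] ++ w) (ev N [a] f) := by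
      rw [show [a, false, false, true] ++ w = [a] ++ ([false, false, true] ++ w) by simp, ev_append]
    have h1 := ih N (ev N [a] f) j hj
    -- the first bracket
    have h2 : ev N w (ev N [false, false, true, a] f) j - ev N w (ev N [a, false, false, true] f) j =
        ((der1 a).map fun x => (x.1 : ℝ) * ev N (x.2 ++ w) f j).sum := by
      have h3 : ev N w (ev N [false, false, true, a] f) j =
          ev N w (fun i => 1 * ev N [a, false, false, true] f i +
            ((der1 a).map fun x => (x.1 : ℝ) * ev N x.2 f i).sum) j := by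
        refine ev_congr N w _ _ (fun i hi => ?_) j hj
        have h4 := one_letter N a f i hi
        rw [one_mul]
        linarith
      have h5 := ev_sum N w (fun x => ev N x.2 f) j (der1 a)
      rw [h3, ev_lin, h5]
      simp only [ev_append]
      ring
    rw [der, List.map_append, List.sum_append, List.map_map, List.map_map]
    have h6 : ((der1 a).map ((fun x : ℤ × List Bool => (x.1 : ℝ) * ev N x.2 f j) ∘
        fun x => (x.1, x.2 ++ w))).sum = ((der1 a).map fun x => (x.1 : ℝ) * ev N (x.2 ++ w) f j).sum :=
      rfl
    have h7 : ((der w).map ((fun x : ℤ × List Bool => (x.1 : ℝ) * ev N x.2 f j) ∘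
        fun x => (x.1, a :: x.2))).sum =
        ((der w).map fun x => (x.1 : ℝ) * ev N x.2 (ev N [a] f) j).sum := by
      congr 1
      refine List.map_congr_left fun x _ => ?_
      show (x.1 : ℝ) * ev N (a :: x.2) f j = (x.1 : ℝ) * ev N x.2 (ev N [a] f) j
      rw [show a :: x.2 = [a] ++ x.2 by simp, ev_append]
    rw [h6, h7, ← h1, ← h2, ← e1, ← e4, e2, e3]
    ring

lemma second (w : List Bool) : ∀ (v : ℕ → ℕ → ℝ),
    ((der w).map fun x => (x.1 : ℝ) * v (x.2.count true) (x.2.count false)).sum =
    ((w.count false : ℝ) - 2 * w.count true) *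
      (v (w.count true + 1) (w.count false + 3) + v (w.count true + 2) (w.count false + 3)) := by
  induction w with
  | nil =>
    intro v
    simp [der]
  | cons a w ih =>
    intro v
    rw [der, List.map_append, List.sum_append, List.map_map, List.map_map]
    cases a
    · have h1 := ih (fun s t => v s (t + 1))
      have h2 : ((der w).map ((fun x : ℤ × List Bool => (x.1 : ℝ) * v (x.2.count true) (x.2.count false)) ∘
          fun x => (x.1, false :: x.2))).sum =
          ((der w).map fun x => (x.1 : ℝ) * (fun s t => v s (t + 1)) (x.2.count true)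
            (x.2.count false)).sum := by
        congr 1
        refine List.map_congr_left fun x _ => ?_
        simp [List.count_cons]
      rw [h2, h1]
      simp only [der1, List.map_cons, List.map_nil, List.sum_cons, List.sum_nil, Function.comp,
        List.count_append, List.count_cons, List.count_nil, Int.cast_one, beq_self_eq_true,
        if_true]
      norm_num
      ring_nf
    · have h1 := ih (fun s t => v (s + 1) t)
      have h2 : ((der w).map ((fun x : ℤ × List Bool => (x.1 : ℝ) * v (x.2.count true) (x.2.count false)) ∘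
          fun x => (x.1, true :: x.2))).sum =
          ((der w).map fun x => (x.1 : ℝ) * (fun s t => v (s + 1) t) (x.2.count true)
            (x.2.count false)).sum := by
        congr 1
        refine List.map_congr_left fun x _ => ?_
        simp [List.count_cons]
      rw [h2, h1]
      simp only [der1, List.map_cons, List.map_nil, List.sum_cons, List.sum_nil, Function.comp,
        List.count_append, List.count_cons, List.count_nil, Int.cast_one, Int.cast_neg,
        beq_self_eq_true, if_true]
      norm_num
      ring_nf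

theorem c_thm : S_C := ⟨fun w N f j hj => first w N f j hj, second⟩

end Pool.Agent.K9h92.MQC
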