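import Pool.Agent.K9h92.MP.Stm2

/-! # Leaf D (helper21) -/

set_option autoImplicit false

namespace Pool.Agent.K9h92.MQD

open Finset Pool.Agent.K9h92.MQ

theorem newton (r : ℕ) (a : ℕ → ℕ → ℝ) (h : ∀ k x, k + x + 1 < r → a (k + 1) x = a k (x + 1) - a k x) :
    ∀ x k, k + x < r → a k x = ∑ j ∈ range (x + 1), (x.choose j : ℝ) * a (k + j) 0 := by
  intro x
  induction x with
  | zero =>
    intro k _
    simp
  | succ x ih =>
    intro k hk
    have e1 := h k x (by omega)
    have e2 := ih k (by omega)
    have e3 := ih (k + 1) (by omega)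
    have e4 : a k (x + 1) = a k x + a (k + 1) x := by rw [e1]; ring
    rw [e4, e2, e3, sum_range_succ' (fun j => ((x + 1).choose j : ℝ) * a (k + j) 0) (x + 1)]
    have e5 : ∑ j ∈ range (x + 1), ((x + 1).choose (j + 1) : ℝ) * a (k + (j + 1)) 0 =
        ∑ j ∈ range (x + 1), (x.choose j : ℝ) * a (k + 1 + j) 0 +
        ∑ j ∈ range (x + 1), (x.choose (j + 1) : ℝ) * a (k + (j + 1)) 0 := by
      rw [← sum_add_distrib]
      refine sum_congr rfl fun j _ => ?_
      rw [Nat.choose_succ_succ, Nat.cast_add, show k + 1 + j = k + (j + 1) by ring]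
      ring
    rw [e5, sum_range_succ' (fun j => (x.choose j : ℝ) * a (k + j) 0) x,
      sum_range_succ (fun j => (x.choose (j + 1) : ℝ) * a (k + (j + 1)) 0) x, Nat.choose_succ_self]
    simp
    ring

theorem d_thm : S_D := by
  intro r K0 hK
  have hK0 : 0 < K0 := by linarith
  set M : ℝ := r * (r * 2 ^ r) * K0 ^ (r + 2) with hM
  have hM0 : 0 ≤ M := by positivity
  refine ⟨1 / (M + 1), by positivity, ?_⟩
  intro b a v hb hrec hv h1 h2 h3 c hc hne
  have hb0 : (0 : ℝ) < b := by exact_mod_cast hb
  have hb1 : (1 : ℝ) ≤ b := by exact_mod_cast hb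
  -- Newton
  set D : ℕ → ℝ := fun j => ∑ x ∈ range r, (c x : ℝ) * (x.choose j : ℝ) with hD
  have key : ∑ x ∈ range r, (c x : ℝ) * a 0 x = ∑ j ∈ range r, D j * a j 0 := by
    have e : ∀ x ∈ range r, (c x : ℝ) * a 0 x = ∑ j ∈ range r, (c x : ℝ) * (x.choose j : ℝ) * a j 0 := by
      intro x hx
      have hx' := mem_range.1 hx
      rw [newton r a hrec x 0 (by omega), mul_sum]
      have : ∑ j ∈ range (x + 1), (c x : ℝ) * ((x.choose j : ℝ) * a (0 + j) 0) =
          ∑ j ∈ range r, (c x : ℝ) * ((x.choose j : ℝ) * a (0 + j) 0) := by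
        refine sum_subset (range_mono (by omega)) fun j _ hj => ?_
        have : x < j := by
          by_contra hcon
          exact hj (mem_range.2 (by omega))
        rw [Nat.choose_eq_zero_of_lt this]
        simp
      rw [this]
      refine sum_congr rfl fun j _ => ?_
      rw [zero_add]
      ring
    rw [sum_congr rfl e, sum_comm]
    refine sum_congr rfl fun j _ => ?_
    rw [hD, sum_mul]
  rw [key]
  -- an integral version
  have hDint : ∀ j, ∃ z : ℤ, D j = z := fun j => ⟨∑ x ∈ range r, c x * (x.choose j : ℤ), by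
    rw [hD]
    push_cast
    rfl⟩
  have hex : ∃ k, k < r ∧ D k ≠ 0 := by
    classical
    obtain ⟨x₁, hx₁, hx₂⟩ := hne
    set S := (range r).filter fun x => c x ≠ 0 with hS
    have hSne : S.Nonempty := ⟨x₁, by rw [hS, mem_filter, mem_range]; exact ⟨hx₁, hx₂⟩⟩
    obtain ⟨h4, h5⟩ := mem_filter.1 (S.max'_mem hSne)
    refine ⟨S.max' hSne, mem_range.1 h4, ?_⟩
    have : D (S.max' hSne) = c (S.max' hSne) := by
      rw [hD]
      simp only
      rw [sum_eq_single (S.max' hSne)]
      · simp
      · intro x hx hne'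
        rcases lt_or_gt_of_ne hne' with h6 | h6
        · rw [Nat.choose_eq_zero_of_lt h6]
          simp
        · have : c x = 0 := by
            by_contra h7
            have h8 : x ∈ S := mem_filter.2 ⟨hx, h7⟩
            have := S.le_max' x h8
            omega
          rw [this]
          simp
      · intro h6
        exact absurd h4 h6
    rw [this]
    exact_mod_cast h5
  classical
  obtain ⟨hk, hDk⟩ := Nat.find_spec hex
  set k := Nat.find hex with hkdef
  have hmin : ∀ j < k, D j = 0 := by
    intro j hj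
    by_contra h6
    exact Nat.find_min hex hj ⟨by omega, h6⟩
  have hDk1 : 1 ≤ |D k| := by
    obtain ⟨z, hz⟩ := hDint k
    rw [hz] at hDk ⊢
    have : z ≠ 0 := by exact_mod_cast hDk
    have : 1 ≤ |z| := Int.one_le_abs this
    exact_mod_cast this
  have hvk := hv k hk
  -- bounds
  have hDj : ∀ j, |D j| ≤ r * 2 ^ r * (1 / (M + 1) * b) := by
    intro j
    rw [hD]
    refine (abs_sum_le_sum_abs _ _).trans ?_
    have : ∀ x ∈ range r, |(c x : ℝ) * (x.choose j : ℝ)| ≤ 2 ^ r * (1 / (M + 1) * b) := by
      intro x hx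
      have hx' := mem_range.1 hx
      rw [abs_mul, Nat.abs_cast, mul_comm]
      have e1 : ((x.choose j : ℕ) : ℝ) ≤ 2 ^ r := by
        have f1 : x.choose j ≤ 2 ^ x := Nat.choose_le_two_pow x j
        have f2 : 2 ^ x ≤ 2 ^ r := Nat.pow_le_pow_right (by norm_num) hx'.le
        exact_mod_cast f1.trans f2
      exact mul_le_mul e1 (hc x hx') (abs_nonneg _) (by positivity)
    refine (sum_le_sum this).trans ?_
    rw [sum_const, card_range, nsmul_eq_mul]
    apply le_of_eq
    ring
  have hvj : ∀ d, 1 ≤ d → k + d < r → v (k + d) ≤ K0 ^ d / b * v k := by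
    intro d hd
    induction d, hd using Nat.le_induction with
    | base =>
      intro hd
      have := h3 k hd
      rwa [pow_one]
    | succ d hd ih =>
      intro hd'
      have e1 := ih (by omega)
      have e2 := h3 (k + d) (by omega)
      have e3 : K0 / b ≤ K0 := div_le_self hK0.le hb1
      calc v (k + (d + 1)) ≤ K0 / b * v (k + d) := e2
        _ ≤ K0 * v (k + d) := mul_le_mul_of_nonneg_right e3 (hv _ (by omega)).le
        _ ≤ K0 * (K0 ^ d / b * v k) := mul_le_mul_of_nonneg_left e1 hK0.le
        _ = K0 ^ (d + 1) / b * v k := by ring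
  have hrest : |∑ j ∈ (range r).erase k, D j * a j 0| ≤ M / (M + 1) * (v k / K0) := by
    refine (abs_sum_le_sum_abs _ _).trans ?_
    have : ∀ j ∈ (range r).erase k, |D j * a j 0| ≤
        r * 2 ^ r * K0 ^ (r + 2) / (M + 1) * (v k / K0) := by
      intro j hj
      obtain ⟨hjk, hjr⟩ := mem_erase.1 hj
      have hjr' := mem_range.1 hjr
      rcases lt_or_gt_of_ne hjk with h6 | h6
      · rw [hmin j h6, zero_mul, abs_zero]
        positivity
      · obtain ⟨d, rfl⟩ : ∃ d, j = k + d := ⟨j - k, by omega⟩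
        have e1 := hvj d (by omega) hjr'
        have e2 := h2 (k + d) hjr'
        have e3 : K0 ^ d ≤ K0 ^ r := pow_le_pow_right₀ hK (by omega)
        have e4 : |a (k + d) 0| ≤ K0 * (K0 ^ r / b * v k) := by
          refine e2.trans (mul_le_mul_of_nonneg_left (e1.trans ?_) hK0.le)
          exact mul_le_mul_of_nonneg_right (div_le_div_of_nonneg_right e3 hb0.le) hvk.le
        rw [abs_mul]
        calc |D (k + d)| * |a (k + d) 0|
            ≤ (r * 2 ^ r * (1 / (M + 1) * b)) * (K0 * (K0 ^ r / b * v k)) :=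
              mul_le_mul (hDj _) e4 (abs_nonneg _) (by positivity)
          _ = r * 2 ^ r * K0 ^ (r + 2) / (M + 1) * (v k / K0) := by
              field_simp
              ring
    refine (sum_le_sum this).trans ?_
    rw [sum_const, nsmul_eq_mul]
    have hcard : (((range r).erase k).card : ℝ) ≤ r := by
      have : ((range r).erase k).card ≤ r := (card_erase_le).trans (card_range r).le
      exact_mod_cast this
    calc (((range r).erase k).card : ℝ) * (r * 2 ^ r * K0 ^ (r + 2) / (M + 1) * (v k / K0))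
        ≤ r * (r * 2 ^ r * K0 ^ (r + 2) / (M + 1) * (v k / K0)) :=
          mul_le_mul_of_nonneg_right hcard (by positivity)
      _ = M / (M + 1) * (v k / K0) := by rw [hM]; ring
  intro h0
  rw [← add_sum_erase _ _ (mem_range.2 hk)] at h0
  have e1 : v k / K0 ≤ |D k * a k 0| := by
    rw [abs_mul]
    have f1 : v k / K0 ≤ |a k 0| := by
      rw [div_le_iff₀ hK0]
      calc v k ≤ K0 * a k 0 := h1 k hk
        _ ≤ K0 * |a k 0| := mul_le_mul_of_nonneg_left (le_abs_self _) hK0.le
        _ = |a k 0| * K0 := mul_comm _ _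
    calc v k / K0 ≤ |a k 0| := f1
      _ = 1 * |a k 0| := (one_mul _).symm
      _ ≤ _ := mul_le_mul_of_nonneg_right hDk1 (abs_nonneg _)
  have e2 : D k * a k 0 = -∑ j ∈ (range r).erase k, D j * a j 0 := by linear_combination h0
  rw [e2, abs_neg] at e1
  have e3 : M / (M + 1) < 1 := by
    rw [div_lt_one (by linarith)]
    linarith
  have e4 : 0 < v k / K0 := by positivity
  have e5 := e1.trans hrest
  nlinarith

end Pool.Agent.K9h92.MQD
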