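import Pool.Agent.K9h92.MP.Main
import Pool.Agent.K9h52.CS.Main

/-!
# Passing to multiple zeta values
-/

set_option autoImplicit false

namespace Pool.Agent.K9h92.MP2

open Pool.Agent.K9h92.MP

open Filter Topology
open Pool.Agent.H447R2.MZ (H H_nil H_cons H_nonneg Adm val tendsto_H H_le_val)
open Pool.Agent.Q217.TT (ep ep_nil ep_self ep_left)
open Pool.Agent.K9h52.CS (ep_zero)

lemma ops_one (N : ℕ) (w : List ℕ) : ∀ j ≤ N, ops N w (fun _ => 1) j = ep w j N := by
  induction w using List.reverseRecOn with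
  | nil => intro j _; rw [ep_nil]; rfl
  | append_singleton w s ih =>
    have hd : ∀ d j, j + d = N → ops N (w ++ [s]) (fun _ => 1) j = ep (w ++ [s]) j N := by
      intro d
      induction d with
      | zero =>
        intro j hj
        have hj' : j = N := by omega
        subst hj'
        rw [ops_append]
        show op j s _ j = _
        rw [op_end j s _ le_rfl]
        cases w with
        | nil => rw [List.nil_append, ep_self]
        | cons t w => rw [List.cons_append, ep_self]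
      | succ d ihd =>
        intro j hj
        have h1 := ihd (j + 1) (by omega)
        rw [ops_append] at h1 ⊢
        show op N s _ j = _
        have h1' : op N s (ops N w (fun _ => 1)) (j + 1) = ep (w ++ [s]) (j + 1) N := h1
        rw [op_step N s _ (by omega), h1', ep_left w s (by omega : j + 1 ≤ N), ih (j + 1) (by omega)]
        ring
    intro j hj
    exact hd (N - j) j (by omega)

lemma link (N : ℕ) (w : List ℕ) : ops N w (fun _ => 1) 0 = H w N := by
  rw [ops_one N w 0 (Nat.zero_le _), ep_zero]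

lemma R_ops {N : ℕ} (p : List ℕ) : ∀ {f : ℕ → ℝ} {α : ℝ}, (∀ x ∈ p, 1 ≤ x) → 0 ≤ α → R N α f →
    R N (α + ex p) (ops N p f) := by
  induction p with
  | nil => intro f α _ _ hf; rw [ex_nil, Nat.cast_zero, add_zero]; exact hf
  | cons s p ih =>
    intro f α hp hα hf
    have hs : 1 ≤ s := hp s List.mem_cons_self
    have hs' : (1 : ℝ) ≤ s := by exact_mod_cast hs
    have h1 := R_op hf hs hα
    have h2 := ih (fun x hx => hp x (List.mem_cons_of_mem _ hx)) (by linarith) h1
    rw [ex_cons, Nat.cast_add, Nat.cast_sub hs, ops_cons]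
    convert h2 using 1
    push_cast
    ring

lemma R_one (N : ℕ) : R N 0 (fun _ => (1 : ℝ)) := ⟨fun _ => zero_le_one, fun j _ _ => by simp⟩

lemma ops_end {N : ℕ} (p : List ℕ) : ∀ {f : ℕ → ℝ}, p ≠ [] → ops N p f N = 0 := by
  induction p with
  | nil => intro f h; exact absurd rfl h
  | cons s p ih =>
    intro f _
    rw [ops_cons]
    cases p with
    | nil => exact op_end N s f le_rfl
    | cons t p => exact ih (by simp)

lemma op_monoN {N N' s : ℕ} (h : N ≤ N') {f g : ℕ → ℝ} (hfg : ∀ j, f j ≤ g j) (hg : ∀ j, 0 ≤ g j) (j : ℕ) :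
    op N s f j ≤ op N' s g j := by
  rw [op, op]
  refine (Finset.sum_le_sum fun n _ => mul_le_mul_of_nonneg_right (hfg (n + 1)) (by positivity)).trans ?_
  exact Finset.sum_le_sum_of_subset_of_nonneg (Finset.Ico_subset_Ico_right h)
    fun n _ _ => mul_nonneg (hg _) (by positivity)

lemma star_monoN {N N' : ℕ} (h : N ≤ N') {f g : ℕ → ℝ} (hfg : ∀ j, f j ≤ g j) (hg : ∀ j, 0 ≤ g j) (j : ℕ) :
    star N f j ≤ star N' g j := by
  rw [Pool.Agent.K9h92.MP.star, Pool.Agent.K9h92.MP.star]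
  refine (Finset.sum_le_sum fun n _ => hfg n).trans ?_
  exact Finset.sum_le_sum_of_subset_of_nonneg (Finset.Ico_subset_Ico_right h) fun n _ _ => hg _

lemma ops_monoN {N N' : ℕ} (h : N ≤ N') (w : List ℕ) : ∀ {f g : ℕ → ℝ}, (∀ j, f j ≤ g j) → (∀ j, 0 ≤ g j) →
    ∀ j, ops N w f j ≤ ops N' w g j := by
  induction w with
  | nil => intro f g hfg _ j; exact hfg j
  | cons s w ih => intro f g hfg hg j; exact ih (op_monoN h hfg hg) (op_nonneg hg) j

lemma ops_pos {N : ℕ} (w : List ℕ) : ∀ {f : ℕ → ℝ} {m : ℕ}, (∀ j, 0 ≤ f j) → 0 < f (m + w.length) →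
    m + w.length ≤ N → 0 < ops N w f m := by
  induction w with
  | nil => intro f m _ h _; exact h
  | cons s w ih =>
    intro f m hf h hN
    rw [List.length_cons] at h hN
    refine ih (op_nonneg hf) ?_ (by omega)
    rw [op_step N s f (by omega)]
    have h1 := op_nonneg (N := N) (s := s) hf (m + w.length + 1)
    have h2 : 0 < f (m + w.length + 1) * (((m + w.length + 1 : ℕ) : ℝ) ^ s)⁻¹ := mul_pos h (by positivity)
    linarith

/-- the difference term -/
noncomputable def DD (p q w : List ℕ) (N : ℕ) : ℝ := ops N q (ops N w (star N (ops N p (fun _ => 1)))) 0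

lemma DD_mono (p q w : List ℕ) {N N' : ℕ} (h : N ≤ N') : DD p q w N ≤ DD p q w N' := by
  have h0 : ∀ M j, 0 ≤ ops M p (fun _ => (1 : ℝ)) j := fun M => ops_nonneg p fun _ => zero_le_one
  refine ops_monoN h q (ops_monoN h w (star_monoN h (ops_monoN h p (fun _ => le_rfl) fun _ => zero_le_one) (h0 N'))
    (star_nonneg (h0 N'))) (ops_nonneg w (star_nonneg (h0 N'))) 0

lemma DD_pos (p q w : List ℕ) (hp : 1 ≤ p.length) : 0 < DD p q w (p.length + w.length + q.length) := by
  set N := p.length + w.length + q.length with hN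
  have h0 : ∀ j, 0 ≤ ops N p (fun _ => (1 : ℝ)) j := ops_nonneg p fun _ => zero_le_one
  have h1 : 0 < ops N p (fun _ => (1 : ℝ)) (w.length + q.length) :=
    ops_pos p (fun _ => zero_le_one) one_pos (by omega)
  have h2 : 0 < star N (ops N p (fun _ => (1 : ℝ))) (q.length + w.length) := by
    rw [star_step N _ (by omega), show q.length + w.length = w.length + q.length by omega]
    have := star_nonneg (N := N) h0 (w.length + q.length + 1)
    linarith
  have h3 : 0 < ops N w (star N (ops N p (fun _ => (1 : ℝ)))) (0 + q.length) := by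
    rw [zero_add]
    exact ops_pos w (star_nonneg h0) h2 (by omega)
  exact ops_pos q (ops_nonneg w (star_nonneg h0)) h3 (by omega)

/-- the exponents of the base word -/
def base (s : ℕ) (y : List ℕ) : List ℕ := (s + ex y) :: List.replicate y.length 1

lemma H_eq (p w q : List ℕ) (N : ℕ) : H (p ++ w ++ q) N = ops N q (ops N w (ops N p (fun _ => 1))) 0 := by
  rw [← link, ops_append, ops_append]

/-- the data of the words `p`, `q` -/
structure PQ (p q : List ℕ) (E : ℝ) : Prop where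
  hp : ∀ x ∈ p, 1 ≤ x
  hq : 1 ≤ q.length
  ha : 3 ≤ ex p
  hE : 1 + (2 / ((ex p : ℝ) - 1) + 2 / (q.length : ℝ)) ≤ E

lemma PQ.set1 {p q : List ℕ} {E : ℝ} (h : PQ p q E) : Set1 q.length ((ex p : ℝ) - 1) E := by
  have : (3 : ℝ) ≤ ex p := by exact_mod_cast h.ha
  exact ⟨h.hq, by linarith, h.hE⟩

lemma PQ.ne {p q : List ℕ} {E : ℝ} (h : PQ p q E) : p ≠ [] := by
  rintro rfl
  have := h.ha
  rw [ex_nil] at this
  omega

lemma PQ.R {p q : List ℕ} {E : ℝ} (h : PQ p q E) (N : ℕ) : R N (ex p : ℝ) (ops N p (fun _ => 1)) := by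
  have := R_ops (N := N) p h.hp le_rfl (R_one N)
  rwa [zero_add] at this

lemma comp_num {s : ℕ} {y : List ℕ} (hs : 1 ≤ s) (hy : ∀ x ∈ y, 1 ≤ x) {p q : List ℕ} {E : ℝ} (h : PQ p q E) (N : ℕ) :
    H (p ++ (s :: y) ++ q) N ≤ E ^ nn (s :: y) * H (p ++ base s y ++ q) N ∧
      H (p ++ base s y ++ q) N ≤ E ^ nn (s :: y) * H (p ++ (s :: y) ++ q) N := by
  have h1 := comp y s hs hy h.set1 (h.R N) (by linarith)
  have h2 : W N 0 _ _ _ := W.opsW' q (b := 0) (by rw [zero_add]; exact h1)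
  obtain ⟨_, _, h3, h4⟩ := h2 0 le_rfl (Nat.zero_le _)
  rw [H_eq, H_eq]
  exact ⟨h3, h4⟩

lemma diff_num (hS : S_STAR) {s : ℕ} {y : List ℕ} (hs : 1 ≤ s) (hy : ∀ x ∈ y, 1 ≤ x) : ∃ M : ℕ,
    ∀ {p q : List ℕ} {E : ℝ}, PQ p q E → ∀ N,
      H (p ++ (s :: y) ++ q) N - H (p ++ base s y ++ q) N ≤
        E ^ M * (nn (s :: y) * DD p q ((s + ex y + 1) :: List.replicate y.length 1) N) ∧
      nn (s :: y) * DD p q ((s + ex y + 1) :: List.replicate y.length 1) N ≤
        E ^ M * (H (p ++ (s :: y) ++ q) N - H (p ++ base s y ++ q) N) := by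
  obtain ⟨M, hM⟩ := diff hS y s hs hy
  refine ⟨M, fun {p q E} h N => ?_⟩
  have h1 := hM h.set1 (h.R N) (by linarith) (ops_end p h.ne)
  have h2 : W N 0 _ _ _ := W.opsW' q (b := 0) (by rw [zero_add]; exact h1)
  obtain ⟨_, _, h3, h4⟩ := h2 0 le_rfl (Nat.zero_le _)
  rw [ops_sub, ops_smul] at h3 h4
  rw [H_eq, H_eq]
  exact ⟨h3, h4⟩

lemma adm_app {p : List ℕ} (hp : Adm p) (hne : p ≠ []) {v : List ℕ} (hv : ∀ x ∈ v, 1 ≤ x) : Adm (p ++ v) := by
  obtain ⟨a, p', rfl⟩ := List.exists_cons_of_ne_nil hne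
  refine ⟨fun x hx => ?_, fun x t h => ?_⟩
  · rcases List.mem_append.1 hx with h | h
    · exact hp.1 x h
    · exact hv x h
  · rw [List.cons_append] at h
    rw [← (List.cons.inj h).1]
    exact hp.2 a p' rfl

/-- **comparison of multiple zeta values** -/
lemma comp_val {s : ℕ} {y : List ℕ} (hs : 1 ≤ s) (hy : ∀ x ∈ y, 1 ≤ x) {p q : List ℕ} {E : ℝ} (h : PQ p q E)
    (h1 : Adm (p ++ (s :: y) ++ q)) (h2 : Adm (p ++ base s y ++ q)) :
    val (p ++ (s :: y) ++ q) ≤ E ^ nn (s :: y) * val (p ++ base s y ++ q) ∧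
      val (p ++ base s y ++ q) ≤ E ^ nn (s :: y) * val (p ++ (s :: y) ++ q) :=
  ⟨le_of_tendsto_of_tendsto' (tendsto_H _ h1) ((tendsto_H _ h2).const_mul _) fun N => (comp_num hs hy h N).1,
    le_of_tendsto_of_tendsto' (tendsto_H _ h2) ((tendsto_H _ h1).const_mul _) fun N => (comp_num hs hy h N).2⟩

/-- **first order expansion** -/
lemma diff_val (hS : S_STAR) {s : ℕ} {y : List ℕ} (hs : 1 ≤ s) (hy : ∀ x ∈ y, 1 ≤ x) {s1 : ℕ} {y1 : List ℕ}
    (hs1 : 1 ≤ s1) (hy1 : ∀ x ∈ y1, 1 ≤ x) (hlen : y1.length = y.length) (hex : s1 + ex y1 = s + ex y)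
    (hn1 : nn (s1 :: y1) = 1) : ∃ M : ℕ, ∀ {p q : List ℕ} {E : ℝ}, PQ p q E →
      Adm (p ++ (s :: y) ++ q) → Adm (p ++ base s y ++ q) → Adm (p ++ (s1 :: y1) ++ q) →
      0 < val (p ++ (s1 :: y1) ++ q) - val (p ++ base s y ++ q) ∧
      val (p ++ (s :: y) ++ q) - val (p ++ base s y ++ q) ≤
        E ^ M * (nn (s :: y) * (val (p ++ (s1 :: y1) ++ q) - val (p ++ base s y ++ q))) ∧
      nn (s :: y) * (val (p ++ (s1 :: y1) ++ q) - val (p ++ base s y ++ q)) ≤
        E ^ M * (val (p ++ (s :: y) ++ q) - val (p ++ base s y ++ q)) := by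
  obtain ⟨M, hM⟩ := diff_num hS hs hy
  obtain ⟨M1, hM1⟩ := diff_num hS hs1 hy1
  refine ⟨M + M1, fun {p q E} h a1 a2 a3 => ?_⟩
  have hE := h.set1.one_le
  have hb : base s1 y1 = base s y := by rw [base, base, hex, hlen]
  have hE0 : (0 : ℝ) < E := by linarith
  have t1 := tendsto_H _ a1
  have t2 := tendsto_H _ a2
  have t3 := tendsto_H _ a3
  have key1 : ∀ N, H (p ++ (s1 :: y1) ++ q) N - H (p ++ base s y ++ q) N ≤
      E ^ M1 * DD p q ((s + ex y + 1) :: List.replicate y.length 1) N ∧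
      DD p q ((s + ex y + 1) :: List.replicate y.length 1) N ≤
      E ^ M1 * (H (p ++ (s1 :: y1) ++ q) N - H (p ++ base s y ++ q) N) := by
    intro N
    have h1 := hM1 h N
    rw [hb, hn1, hex, hlen, Nat.cast_one, one_mul] at h1
    exact h1
  refine ⟨?_, ?_, ?_⟩
  · have h1 := DD_pos p q ((s + ex y + 1) :: List.replicate y.length 1) (List.length_pos_iff.2 h.ne)
    set N0 := p.length + ((s + ex y + 1) :: List.replicate y.length 1).length + q.length with hN0
    have h2 : DD p q ((s + ex y + 1) :: List.replicate y.length 1) N0 ≤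
        E ^ M1 * (val (p ++ (s1 :: y1) ++ q) - val (p ++ base s y ++ q)) := by
      refine ge_of_tendsto ((t3.sub t2).const_mul (E ^ M1)) ?_
      filter_upwards [eventually_ge_atTop N0] with N hN
      exact (DD_mono _ _ _ hN).trans (key1 N).2
    by_contra hcon
    have h3 : E ^ M1 * (val (p ++ (s1 :: y1) ++ q) - val (p ++ base s y ++ q)) ≤ 0 :=
      mul_nonpos_of_nonneg_of_nonpos (by positivity) (not_lt.1 hcon)
    linarith
  · refine le_of_tendsto_of_tendsto' (t1.sub t2) (((t3.sub t2).const_mul _).const_mul _) fun N => ?_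
    have h1 := (hM h N).1
    have h2 := (key1 N).2
    calc H (p ++ (s :: y) ++ q) N - H (p ++ base s y ++ q) N ≤
          E ^ M * (nn (s :: y) * DD p q ((s + ex y + 1) :: List.replicate y.length 1) N) := h1
      _ ≤ E ^ M * (nn (s :: y) * (E ^ M1 * (H (p ++ (s1 :: y1) ++ q) N - H (p ++ base s y ++ q) N))) := by
        refine mul_le_mul_of_nonneg_left (mul_le_mul_of_nonneg_left h2 (Nat.cast_nonneg _)) (by positivity)
      _ = _ := by rw [pow_add]; ring
  · refine le_of_tendsto_of_tendsto' ((t3.sub t2).const_mul _) ((t1.sub t2).const_mul _) fun N => ?_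
    have h1 := (hM h N).2
    have h2 := (key1 N).1
    calc (nn (s :: y) : ℝ) * (H (p ++ (s1 :: y1) ++ q) N - H (p ++ base s y ++ q) N) ≤
          nn (s :: y) * (E ^ M1 * DD p q ((s + ex y + 1) :: List.replicate y.length 1) N) :=
          mul_le_mul_of_nonneg_left h2 (Nat.cast_nonneg _)
      _ = E ^ M1 * (nn (s :: y) * DD p q ((s + ex y + 1) :: List.replicate y.length 1) N) := by ring
      _ ≤ E ^ M1 * (E ^ M * (H (p ++ (s :: y) ++ q) N - H (p ++ base s y ++ q) N)) :=
        mul_le_mul_of_nonneg_left h1 (by positivity)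
      _ = _ := by rw [pow_add]; ring

end Pool.Agent.K9h92.MP2
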