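import Pool.Agent.K9h92.MP.Stm2
import Pool.Agent.K9h92.MP.Lim

/-!
# Basic facts on `ev`
-/

set_option autoImplicit false

namespace Pool.Agent.K9h92.MQE

open Pool.Agent.K9h92.MP Pool.Agent.K9h92.MP2 Pool.Agent.K9h92.MQ

lemma Mo_nonneg {f : ℕ → ℝ} (hf : ∀ j, 0 ≤ f j) (j : ℕ) : 0 ≤ Mo f j := mul_nonneg (hf j) (by positivity)

lemma Io_nonneg {N : ℕ} {f : ℕ → ℝ} (hf : ∀ j, 0 ≤ f j) (j : ℕ) : 0 ≤ Io N f j := Finset.sum_nonneg fun _ _ => hf _

lemma ev_nonneg {N : ℕ} (w : List Bool) : ∀ {f : ℕ → ℝ}, (∀ j, 0 ≤ f j) → ∀ j, 0 ≤ ev N w f j := by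
  induction w with
  | nil => intro f hf j; exact hf j
  | cons a w ih =>
    intro f hf j
    cases a with
    | true => exact ih (Io_nonneg hf) j
    | false => exact ih (Mo_nonneg hf) j

lemma ev_append (N : ℕ) (u v : List Bool) : ∀ f : ℕ → ℝ, ev N (u ++ v) f = ev N v (ev N u f) := by
  induction u with
  | nil => intro f; rfl
  | cons a u ih =>
    intro f
    cases a with
    | true => exact ih _
    | false => exact ih _

lemma io_end (N : ℕ) (f : ℕ → ℝ) {j : ℕ} (h : N ≤ j) : Io N f j = 0 := by
  rw [Io, Finset.Ico_eq_empty_of_le h, Finset.sum_empty]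

lemma io_step (N : ℕ) (f : ℕ → ℝ) {j : ℕ} (h : j < N) : Io N f j = f (j + 1) + Io N f (j + 1) := by
  rw [Io, Finset.sum_eq_sum_Ico_succ_bot h]; rfl

lemma R2_Mo {N : ℕ} {σ γ : ℝ} {f : ℕ → ℝ} (hf : R2 N σ γ f) (h : 0 ≤ σ + γ) : R2 N σ (γ + 1) (Mo f) := by
  refine ⟨Mo_nonneg hf.1, fun j hj hjN => ?_⟩
  have h1 := hf.2 j hj hjN
  have hj0 : (0 : ℝ) < j := by exact_mod_cast hj
  have h2 := hf.1 (j + 1)
  rw [Mo, Mo]
  push_cast
  rw [← div_eq_mul_inv, ← div_eq_mul_inv, mul_div_assoc', mul_div_assoc', div_le_div_iff₀ (by linarith) hj0]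
  have h3 : (j : ℝ) * (j + σ + (γ + 1)) ≤ (j + 1) * (j + σ + γ) := by nlinarith
  calc ((j : ℝ) + σ + (γ + 1)) * f (j + 1) * j = ((j : ℝ) * (j + σ + (γ + 1))) * f (j + 1) := by ring
    _ ≤ ((j + 1) * (j + σ + γ)) * f (j + 1) := mul_le_mul_of_nonneg_right h3 h2
    _ = (j + 1) * ((j + σ + γ) * f (j + 1)) := by ring
    _ ≤ (j + 1) * ((j + σ) * f j) := mul_le_mul_of_nonneg_left h1 (by linarith)
    _ = _ := by ring

lemma io_bound {N : ℕ} {σ γ : ℝ} {f : ℕ → ℝ} (hf : R2 N σ γ f) (hσ : 0 ≤ σ) :
    ∀ j : ℕ, 1 ≤ j → j ≤ N → (γ - 1) * Io N f j ≤ (j + σ) * f j := by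
  refine down ?_ ?_
  · rw [io_end N f le_rfl, mul_zero]
    have := hf.1 N
    positivity
  · intro j hj hjN ih
    rw [io_step N f hjN]
    have h1 := hf.2 j hj hjN
    push_cast at ih
    linarith

lemma R2_Io {N : ℕ} {σ γ : ℝ} {f : ℕ → ℝ} (hf : R2 N σ γ f) (hσ : 0 ≤ σ) : R2 N (σ + 1) (γ - 1) (Io N f) := by
  refine ⟨Io_nonneg hf.1, fun j hj hjN => ?_⟩
  have h1 := io_bound hf hσ (j + 1) (by omega) (by omega)
  rw [io_step N f hjN]
  push_cast at h1 ⊢
  linarith

lemma R2_ev {N : ℕ} (w : List Bool) : ∀ {σ γ : ℝ} {f : ℕ → ℝ}, R2 N σ γ f → 0 ≤ σ → (w.length : ℝ) ≤ γ →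
    R2 N (σ + w.count true) (γ - w.count true + w.count false) (ev N w f) := by
  induction w with
  | nil =>
    intro σ γ f hf _ _
    simpa [ev] using hf
  | cons a w ih =>
    intro σ γ f hf hσ hγ
    rw [List.length_cons] at hγ
    push_cast at hγ
    have hl : (0 : ℝ) ≤ w.length := Nat.cast_nonneg _
    cases a with
    | true =>
      have h1 := ih (R2_Io hf hσ) (by linarith) (by linarith)
      have h2 : ev N (true :: w) f = ev N w (Io N f) := rfl
      rw [h2, List.count_cons_self, List.count_cons_of_ne (by simp)]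
      convert h1 using 1 <;> push_cast <;> ring
    | false =>
      have h1 := ih (R2_Mo hf (by linarith)) hσ (by linarith)
      have h2 : ev N (false :: w) f = ev N w (Mo f) := rfl
      rw [h2, List.count_cons_self, List.count_cons_of_ne (by simp)]
      convert h1 using 1
      push_cast
      ring

/-- one-sided comparison -/
lemma ev_le {N b : ℕ} {c : ℝ} (w : List Bool) : ∀ {f g : ℕ → ℝ}, (∀ j, b ≤ j → j ≤ N → f j ≤ c * g j) →
    ∀ j, b ≤ j → j ≤ N → ev N w f j ≤ c * ev N w g j := by
  induction w with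
  | nil => intro f g h; exact h
  | cons a w ih =>
    intro f g h
    cases a with
    | true =>
      refine ih fun j hb hN => ?_
      rw [Io, Io, Finset.mul_sum]
      refine Finset.sum_le_sum fun n hn => ?_
      have := Finset.mem_Ico.1 hn
      exact h _ (by omega) (by omega)
    | false =>
      refine ih fun j hb hN => ?_
      rw [Mo, Mo, ← mul_assoc]
      exact mul_le_mul_of_nonneg_right (h j hb hN) (by positivity)

lemma ops_le {N : ℕ} {c : ℝ} (w : List ℕ) : ∀ {m : ℕ} {f g : ℕ → ℝ}, (∀ j, m + w.length ≤ j → j ≤ N → f j ≤ c * g j) →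
    ∀ j, m ≤ j → j ≤ N → ops N w f j ≤ c * ops N w g j := by
  induction w with
  | nil => intro m f g h; exact h
  | cons s w ih =>
    intro m f g h
    refine ih fun j hb hN => ?_
    rw [op, op, Finset.mul_sum]
    refine Finset.sum_le_sum fun n hn => ?_
    have := Finset.mem_Ico.1 hn
    rw [← mul_assoc]
    rw [List.length_cons] at h
    exact mul_le_mul_of_nonneg_right (h _ (by omega) (by omega)) (by positivity)

lemma ev_congr {N : ℕ} (w : List Bool) : ∀ {f g : ℕ → ℝ}, (∀ j, 1 ≤ j → f j = g j) →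
    ∀ j, 1 ≤ j → ev N w f j = ev N w g j := by
  induction w with
  | nil => intro f g h; exact h
  | cons a w ih =>
    intro f g h
    cases a with
    | true => exact ih fun j _ => Finset.sum_congr rfl fun n _ => h _ (by omega)
    | false => exact ih fun j hj => by rw [Mo, Mo, h j hj]

lemma ops_congr {N : ℕ} {q : List ℕ} (hq : 1 ≤ q.length) {f g : ℕ → ℝ} (h : ∀ j, 1 ≤ j → f j = g j) :
    ops N q f 0 = ops N q g 0 := by
  cases q with
  | nil => simp at hq
  | cons s q =>
    rw [ops_cons, ops_cons]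
    congr 1
    funext j
    exact Finset.sum_congr rfl fun n _ => by rw [h _ (by omega)]

lemma ev_pos {N : ℕ} (w : List Bool) : ∀ {f : ℕ → ℝ} {m : ℕ}, (∀ j, 0 ≤ f j) → 0 < f (m + w.count true) →
    m + w.count true ≤ N → 1 ≤ m → 0 < ev N w f m := by
  induction w with
  | nil => intro f m _ h _ _; simpa [ev] using h
  | cons a w ih =>
    intro f m hf h hN hm
    cases a with
    | true =>
      rw [List.count_cons_self] at h hN
      refine ih (Io_nonneg hf) ?_ (by omega) hm
      rw [io_step N f (by omega)]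
      have := Io_nonneg (N := N) hf (m + w.count true + 1)
      rw [← add_assoc] at h
      linarith
    | false =>
      rw [List.count_cons_of_ne (by simp)] at h hN
      refine ih (Mo_nonneg hf) ?_ hN hm
      have : (0 : ℝ) < ((m + w.count true : ℕ) : ℝ) := by exact_mod_cast (by omega : 0 < m + w.count true)
      exact mul_pos h (inv_pos.2 this)

lemma ev_monoN {N N' : ℕ} (h : N ≤ N') (w : List Bool) : ∀ {f g : ℕ → ℝ}, (∀ j, f j ≤ g j) → (∀ j, 0 ≤ g j) →
    ∀ j, ev N w f j ≤ ev N' w g j := by
  induction w with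
  | nil => intro f g hfg _ j; exact hfg j
  | cons a w ih =>
    intro f g hfg hg j
    cases a with
    | true =>
      refine ih (fun j => ?_) (Io_nonneg hg) j
      refine (Finset.sum_le_sum fun n _ => hfg (n + 1)).trans ?_
      exact Finset.sum_le_sum_of_subset_of_nonneg (Finset.Ico_subset_Ico_right h) fun n _ _ => hg _
    | false => exact ih (fun j => mul_le_mul_of_nonneg_right (hfg j) (by positivity)) (Mo_nonneg hg) j

lemma ev_sub (N : ℕ) (w : List Bool) : ∀ f g : ℕ → ℝ, ev N w (fun j => f j - g j) = fun j => ev N w f j - ev N w g j := by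
  induction w with
  | nil => intro f g; rfl
  | cons a w ih =>
    intro f g
    cases a with
    | true =>
      show ev N w (Io N _) = _
      have : Io N (fun j => f j - g j) = fun j => Io N f j - Io N g j := by
        funext j; rw [Io, Io, Io, ← Finset.sum_sub_distrib]
      rw [this, ih]; rfl
    | false =>
      show ev N w (Mo _) = _
      have : Mo (fun j => f j - g j) = fun j => Mo f j - Mo g j := by
        funext j; rw [Mo, Mo, Mo]; ring
      rw [this, ih]; rfl

lemma ev_lin (N : ℕ) (w : List Bool) : ∀ (P : List (ℤ × (ℕ → ℝ))), ev N w (fun j => (P.map fun x => (x.1 : ℝ) * x.2 j).sum) =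
    fun j => (P.map fun x => (x.1 : ℝ) * ev N w x.2 j).sum := by
  induction w with
  | nil => intro P; rfl
  | cons a w ih =>
    intro P
    cases a with
    | true =>
      show ev N w (Io N _) = _
      have : Io N (fun j => (P.map fun x => (x.1 : ℝ) * x.2 j).sum) =
          fun j => ((P.map fun x => (x.1, Io N x.2)).map fun x => (x.1 : ℝ) * x.2 j).sum := by
        funext j
        rw [List.map_map]
        induction P with
        | nil => simp [Io]
        | cons y P ihP =>
          rw [List.map_cons, List.sum_cons, ← ihP, Io, Io]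
          simp only [List.map_cons, List.sum_cons, Finset.sum_add_distrib, Function.comp]
          rw [Io, Finset.mul_sum]
      rw [this, ih]
      funext j
      rw [List.map_map]
      rfl
    | false =>
      show ev N w (Mo _) = _
      have : Mo (fun j => (P.map fun x => (x.1 : ℝ) * x.2 j).sum) =
          fun j => ((P.map fun x => (x.1, Mo x.2)).map fun x => (x.1 : ℝ) * x.2 j).sum := by
        funext j
        rw [List.map_map]
        induction P with
        | nil => simp [Mo]
        | cons y P ihP =>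
          rw [List.map_cons, List.sum_cons, ← ihP, Mo, Mo]
          simp only [List.map_cons, List.sum_cons, Function.comp]
          rw [Mo]
          ring
      rw [this, ih]
      funext j
      rw [List.map_map]
      rfl

lemma ops_lin (N : ℕ) (w : List ℕ) : ∀ (P : List (ℤ × (ℕ → ℝ))), ops N w (fun j => (P.map fun x => (x.1 : ℝ) * x.2 j).sum) =
    fun j => (P.map fun x => (x.1 : ℝ) * ops N w x.2 j).sum := by
  induction w with
  | nil => intro P; rfl
  | cons s w ih =>
    intro P
    show ops N w (op N s _) = _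
    have : op N s (fun j => (P.map fun x => (x.1 : ℝ) * x.2 j).sum) =
        fun j => ((P.map fun x => (x.1, op N s x.2)).map fun x => (x.1 : ℝ) * x.2 j).sum := by
      funext j
      rw [List.map_map]
      induction P with
      | nil => simp [op]
      | cons y P ihP =>
        rw [List.map_cons, List.sum_cons, ← ihP, op, op]
        simp only [List.map_cons, List.sum_cons, add_mul, Finset.sum_add_distrib, Function.comp]
        rw [op, Finset.mul_sum]
        congr 1
        exact Finset.sum_congr rfl fun n _ => by ring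
    rw [this, ih]
    funext j
    rw [List.map_map]
    rfl

end Pool.Agent.K9h92.MQE
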