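import Pool.Agent.K9h92.MP.E1

/-!
# The iterated commutators and the finite differences
-/

set_option autoImplicit false

namespace Pool.Agent.K9h92.MQE

open Pool.Agent.K9h92.MP Pool.Agent.K9h92.MP2 Pool.Agent.K9h92.MQ

/-- the word of `J ^ n` -/
def jw : ℕ → List Bool
  | 0 => []
  | n + 1 => [false, false, true] ++ jw n

lemma jw_succ' (n : ℕ) : jw (n + 1) = jw n ++ [false, false, true] := by
  induction n with
  | zero => rfl
  | succ n ih =>
    show [false, false, true] ++ jw (n + 1) = ([false, false, true] ++ jw n) ++ [false, false, true]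
    rw [ih, List.append_assoc]

lemma jw_true (n : ℕ) : (jw n).count true = n := by
  induction n with
  | zero => rfl
  | succ n ih => rw [jw, List.count_append, ih]; simp; omega

lemma jw_false (n : ℕ) : (jw n).count false = 2 * n := by
  induction n with
  | zero => rfl
  | succ n ih => rw [jw, List.count_append, ih]; simp; omega

/-- the iterated commutators of `J' = Io Mo Mo Mo` with `J` -/
def P : ℕ → List (ℤ × List Bool)
  | 0 => [(1, [false, false, false, true])]
  | k + 1 => (P k).flatMap fun x => (der x.2).map fun y => (x.1 * y.1, y.2)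

lemma der_count (w : List Bool) : ∀ x ∈ der w, x.2.count false = w.count false + 3 ∧
    (x.2.count true = w.count true + 1 ∨ x.2.count true = w.count true + 2) := by
  induction w with
  | nil => intro x hx; simp [der] at hx
  | cons a w ih =>
    intro x hx
    rw [der, List.mem_append, List.mem_map, List.mem_map] at hx
    rcases hx with ⟨y, hy, rfl⟩ | ⟨y, hy, rfl⟩
    · cases a with
      | false =>
        simp only [der1, List.mem_cons, List.not_mem_nil, or_false] at hy
        rcases hy with rfl | rfl <;> simp <;> omega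
      | true =>
        simp only [der1, List.mem_cons, List.not_mem_nil, or_false] at hy
        rcases hy with rfl | rfl | rfl | rfl <;> simp <;> omega
    · obtain ⟨h1, h2⟩ := ih y hy
      cases a with
      | false => simp only [List.count_cons_self, List.count_cons_of_ne (by simp : false ≠ true)]; omega
      | true => simp only [List.count_cons_self, List.count_cons_of_ne (by simp : true ≠ false)]; omega

lemma P_count (k : ℕ) : ∀ x ∈ P k, x.2.count false = 3 * (k + 1) ∧ k + 1 ≤ x.2.count true ∧ x.2.count true ≤ 2 * k + 1 := by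
  induction k with
  | zero => intro x hx; simp only [P, List.mem_singleton] at hx; subst hx; simp
  | succ k ih =>
    intro x hx
    rw [P, List.mem_flatMap] at hx
    obtain ⟨y, hy, hx⟩ := hx
    rw [List.mem_map] at hx
    obtain ⟨z, hz, rfl⟩ := hx
    obtain ⟨h1, h2, h3⟩ := ih y hy
    obtain ⟨h4, h5⟩ := der_count y.2 z hz
    simp only
    omega

lemma sum_flat (L : List (ℤ × List Bool)) (F : List Bool → ℝ) :
    (((L.flatMap fun x => (der x.2).map fun y => (x.1 * y.1, y.2))).map fun x => (x.1 : ℝ) * F x.2).sum =
      (L.map fun x => (x.1 : ℝ) * ((der x.2).map fun y => (y.1 : ℝ) * F y.2).sum).sum := by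
  induction L with
  | nil => simp
  | cons x L ih =>
    rw [List.flatMap_cons, List.map_append, List.sum_append, ih, List.map_cons, List.sum_cons]
    congr 1
    rw [List.map_map, ← List.sum_map_mul_left]
    congr 1
    refine List.map_congr_left fun y _ => ?_
    simp only [Function.comp]
    push_cast
    ring

/-- positivity of the leading part -/
lemma pos_k (hC : S_C) (k : ℕ) : ∀ v : ℕ → ℝ, (∀ i, 2 * i ≤ 3 * (k + 1) → 0 ≤ v i) →
    v (k + 1) ≤ ((P k).map fun x => (x.1 : ℝ) * v (x.2.count true)).sum := by
  induction k with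
  | zero => intro v _; simp [P]
  | succ k ih =>
    intro v hv
    rw [P, sum_flat _ fun w => v (w.count true)]
    set v' : ℕ → ℝ := fun i => ((3 * (k + 1) : ℕ) - 2 * (i : ℝ)) * (v (i + 1) + v (i + 2)) with hv'
    have h1 : ((P k).map fun x => (x.1 : ℝ) * ((der x.2).map fun y => (y.1 : ℝ) * v (y.2.count true)).sum).sum =
        ((P k).map fun x => (x.1 : ℝ) * v' (x.2.count true)).sum := by
      congr 1
      refine List.map_congr_left fun x hx => ?_
      rw [hC.2 x.2 (fun i _ => v i), (P_count k x hx).1]
    rw [h1]
    have h2 := ih v' ?_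
    · refine le_trans ?_ h2
      simp only [hv']
      have h3 := hv (k + 1 + 1) (by omega)
      have h4 := hv (k + 1 + 2) (by omega)
      have h5 : (1 : ℝ) ≤ ((3 * (k + 1) : ℕ) : ℝ) - 2 * ((k + 1 : ℕ) : ℝ) := by push_cast; nlinarith [Nat.cast_nonneg (α := ℝ) k]
      nlinarith
    · intro i hi
      simp only [hv']
      by_cases h0 : 2 * i = 3 * (k + 1)
      · have : ((3 * (k + 1) : ℕ) : ℝ) - 2 * (i : ℝ) = 0 := by rw [← h0]; push_cast; ring
        rw [this, zero_mul]
      · have h3 := hv (i + 1) (by omega)
        have h4 := hv (i + 2) (by omega)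
        have h5 : (2 * (i : ℝ)) ≤ ((3 * (k + 1) : ℕ) : ℝ) := by exact_mod_cast hi
        exact mul_nonneg (by linarith) (by linarith)

/-- the value of a word with the last part `q` -/
noncomputable def V (N : ℕ) (p q : List ℕ) (w : List Bool) : ℝ := ops N q (ev N w (ops N p (fun _ => 1))) 0

/-- the finite differences -/
noncomputable def aN (N r : ℕ) (p q : List ℕ) (k x : ℕ) : ℝ :=
  ((P k).map fun y => (y.1 : ℝ) * V N p q (jw x ++ y.2 ++ jw (r - 1 - x - k))).sum

lemma comm_V (hC : S_C) {N : ℕ} {p q : List ℕ} (hq : 1 ≤ q.length) (u w u' : List Bool) :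
    V N p q (u ++ [false, false, true] ++ w ++ u') - V N p q (u ++ w ++ [false, false, true] ++ u') =
      ((der w).map fun y => (y.1 : ℝ) * V N p q (u ++ y.2 ++ u')).sum := by
  set f := ev N u (ops N p (fun _ => 1)) with hf
  have e1 : ∀ z : List Bool, V N p q (u ++ z ++ u') = ops N q (ev N u' (ev N z f)) 0 := fun z => by
    rw [V, ev_append, ev_append]
  have e2 : V N p q (u ++ [false, false, true] ++ w ++ u') = ops N q (ev N u' (ev N ([false, false, true] ++ w) f)) 0 := by
    rw [← e1]; simp only [List.append_assoc]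
  have e3 : V N p q (u ++ w ++ [false, false, true] ++ u') = ops N q (ev N u' (ev N (w ++ [false, false, true]) f)) 0 := by
    rw [← e1]; simp only [List.append_assoc]
  rw [e2, e3]
  have h1 : ops N q (ev N u' (ev N ([false, false, true] ++ w) f)) 0 - ops N q (ev N u' (ev N (w ++ [false, false, true]) f)) 0 =
      ops N q (ev N u' (fun j => ev N ([false, false, true] ++ w) f j - ev N (w ++ [false, false, true]) f j)) 0 := by
    rw [ev_sub, ops_sub]
  rw [h1]
  have h2 : ops N q (ev N u' (fun j => ev N ([false, false, true] ++ w) f j - ev N (w ++ [false, false, true]) f j)) 0 =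
      ops N q (ev N u' (fun j => (((der w).map fun x => (x.1, ev N x.2 f)).map fun x => (x.1 : ℝ) * x.2 j).sum)) 0 := by
    refine ops_congr hq (ev_congr u' fun j hj => ?_)
    rw [hC.1 w N f j hj, List.map_map]
    rfl
  have h3 : (fun j => (List.map (fun x : ℤ × (ℕ → ℝ) => (x.1 : ℝ) * ev N u' x.2 j)
      (List.map (fun x : ℤ × List Bool => (x.1, ev N x.2 f)) (der w))).sum) =
      fun j => (((der w).map fun x => (x.1, ev N u' (ev N x.2 f))).map fun x => (x.1 : ℝ) * x.2 j).sum := by
    funext j
    rw [List.map_map, List.map_map]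
    rfl
  rw [h2, ev_lin, h3, ops_lin]
  simp only [List.map_map]
  congr 1
  refine List.map_congr_left fun y _ => ?_
  simp only [Function.comp]
  rw [e1]

lemma aN_diff (hC : S_C) {N r : ℕ} {p q : List ℕ} (hq : 1 ≤ q.length) (k x : ℕ) (h : k + x + 1 < r) :
    aN N r p q (k + 1) x = aN N r p q k (x + 1) - aN N r p q k x := by
  have e : r - 1 - x - k = (r - 1 - x - (k + 1)) + 1 := by omega
  have e' : r - 1 - (x + 1) - k = r - 1 - x - (k + 1) := by omega
  rw [aN, aN, aN, e, e', P, sum_flat _ fun w => V N p q (jw x ++ w ++ jw (r - 1 - x - (k + 1)))]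
  set y' := r - 1 - x - (k + 1) with hy'
  generalize P k = L
  induction L with
  | nil => simp
  | cons z L ih =>
    simp only [List.map_cons, List.sum_cons]
    rw [ih, ← comm_V hC hq]
    have e1 : jw (x + 1) ++ z.2 ++ jw y' = jw x ++ [false, false, true] ++ z.2 ++ jw y' := by rw [jw_succ']
    have e2 : jw x ++ z.2 ++ jw (y' + 1) = jw x ++ z.2 ++ [false, false, true] ++ jw y' := by
      rw [jw]; simp only [List.append_assoc]
    rw [e1, e2]
    ring

end Pool.Agent.K9h92.MQE
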