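import Pool.Agent.K9h92.MP.E2

/-!
# The size of the finite differences of truncated sums
-/

set_option autoImplicit false

namespace Pool.Agent.K9h92.MQE

open Pool.Agent.K9h92.MP Pool.Agent.K9h92.MP2 Pool.Agent.K9h92.MQ

/-- the canonical word with `i` letters `true` and `m` letters `false` -/
def can (i m : ℕ) : List Bool := List.replicate m false ++ List.replicate i true

lemma can_true (i m : ℕ) : (can i m).count true = i := by
  rw [can, List.count_append, List.count_replicate, List.count_replicate]; simp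

lemma can_false (i m : ℕ) : (can i m).count false = m := by
  rw [can, List.count_append, List.count_replicate, List.count_replicate]; simp

lemma can_len (i m : ℕ) : (can i m).length = m + i := by
  rw [can, List.length_append, List.length_replicate, List.length_replicate]

lemma len_count (w : List Bool) : w.length = w.count true + w.count false := by
  induction w with
  | nil => rfl
  | cons a w ih => cases a <;> simp <;> omega

lemma perm_of {w w' : List Bool} (h1 : w.count true = w'.count true) (h2 : w.count false = w'.count false) :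
    w.Perm w' := by
  rw [List.perm_iff_count]
  intro a
  cases a
  · exact h2
  · exact h1

/-- the setting: `α` the excess of `p`, `b` the length of `q` -/
structure Cond (L T Λ : ℕ) (p q : List ℕ) : Prop where
  hp : ∀ x ∈ p, 1 ≤ x
  hq : ∀ x ∈ q, 1 ≤ x
  hb : T ≤ q.length
  hT : T ≤ ex p
  hb1 : 1 ≤ q.length
  hL : 2 * L + 3 ≤ ex p
  hΛ : q.length ≤ Λ * ex p

/-- the number `E` -/
noncomputable def EE (L : ℕ) (p q : List ℕ) : ℝ := 1 + (2 / (q.length : ℝ) + 1 / (((ex p : ℝ) - L - 2) + 1))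

lemma Cond.R {L T Λ : ℕ} {p q : List ℕ} (h : Cond L T Λ p q) (N : ℕ) :
    R2 N 1 (ex p : ℝ) (ops N p (fun _ => 1)) := by
  have h1 := R_ops (N := N) p h.hp le_rfl (R_one N)
  rw [zero_add] at h1
  exact h1

lemma Cond.exr {L T Λ : ℕ} {p q : List ℕ} (h : Cond L T Λ p q) : 2 * (L : ℝ) + 3 ≤ ex p := by exact_mod_cast h.hL

lemma Cond.E1 {L T Λ : ℕ} {p q : List ℕ} (h : Cond L T Λ p q) : 1 ≤ EE L p q := by
  have h1 := h.exr
  have h2 : (0 : ℝ) ≤ L := Nat.cast_nonneg _
  have h3 : 0 ≤ 1 / (((ex p : ℝ) - L - 2) + 1) := by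
    apply div_nonneg zero_le_one; linarith
  have h4 : 0 ≤ 2 / (q.length : ℝ) := by positivity
  rw [EE]; linarith

lemma Cond.E4 {L T Λ : ℕ} {p q : List ℕ} (h : Cond L T Λ p q) : EE L p q ≤ 4 := by
  have h1 := h.exr
  have h2 : (0 : ℝ) ≤ L := Nat.cast_nonneg _
  have hb : (1 : ℝ) ≤ q.length := by exact_mod_cast h.hb1
  have h3 : 1 / (((ex p : ℝ) - L - 2) + 1) ≤ 1 := by rw [div_le_one (by linarith)]; linarith
  have h4 : 2 / (q.length : ℝ) ≤ 2 := by rw [div_le_iff₀ (by linarith)]; linarith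
  rw [EE]; linarith

lemma V_nonneg (N : ℕ) (p q : List ℕ) (w : List Bool) : 0 ≤ V N p q w :=
  ops_nonneg q (ev_nonneg w (ops_nonneg p fun _ => zero_le_one)) 0

lemma V_cmp (hA : S_A) {w w' : List Bool} (hw : w.Perm w') : ∃ K : ℕ, ∀ {L T Λ : ℕ} {p q : List ℕ}, Cond L T Λ p q →
    w.length ≤ L → ∀ N, V N p q w ≤ EE L p q ^ K * V N p q w' ∧ V N p q w' ≤ EE L p q ^ K * V N p q w := by
  obtain ⟨K, hK⟩ := hA w w' hw
  refine ⟨K, fun {L T Λ p q} h hL N => ?_⟩
  have h1 := h.exr
  have h2 : (w.length : ℝ) ≤ L := by exact_mod_cast hL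
  have h3 : (0 : ℝ) ≤ w.length := Nat.cast_nonneg _
  have h4 := hK N q.length ((ex p : ℝ) - L - 2) (EE L p q) (ops N p fun _ => 1) h.hb1 (by linarith) le_rfl
    ⟨1, ex p, h.R N, zero_le_one, by linarith, by linarith⟩
  have h5 : W N 0 _ _ _ := W.opsW' q (b := 0) (by rw [zero_add]; exact h4)
  obtain ⟨_, _, h6, h7⟩ := h5 0 le_rfl (Nat.zero_le _)
  exact ⟨h6, h7⟩

lemma V_last {N : ℕ} {p q : List ℕ} (hq : 1 ≤ q.length) (w : List Bool) :
    V N p q (w ++ [false]) ≤ 1 / (q.length : ℝ) * V N p q w := by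
  have e : V N p q (w ++ [false]) = ops N q (Mo (ev N w (ops N p fun _ => 1))) 0 := by rw [V, ev_append]; rfl
  rw [e, V]
  refine ops_le q (m := 0) (fun j hj hjN => ?_) 0 le_rfl (Nat.zero_le _)
  have h1 := ev_nonneg (N := N) w (ops_nonneg (N := N) p fun _ => (zero_le_one : (0 : ℝ) ≤ 1)) j
  rw [Mo, mul_comm]
  refine mul_le_mul_of_nonneg_right ?_ h1
  rw [one_div]
  have hb : (0 : ℝ) < q.length := by exact_mod_cast hq
  have hj' : (q.length : ℝ) ≤ j := by exact_mod_cast (by omega : q.length ≤ j)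
  exact inv_anti₀ hb hj'

/-- one more `true` costs a constant -/
lemma compar (hA : S_A) (hB : S_B) (Λ i m : ℕ) (hm : 1 ≤ m) : ∃ C : ℝ, 0 < C ∧ ∀ {L T : ℕ} {p q : List ℕ},
    Cond L T Λ p q → i + 1 + m ≤ L → ∀ N, V N p q (can (i + 1) m) ≤ C * V N p q (can i m) := by
  obtain ⟨C, hC, hCB⟩ := hB (2 * Λ) (by positivity)
  obtain ⟨K1, h1⟩ := V_cmp hA (w := can (i + 1) m) (w' := true :: false :: can i (m - 1))
    (perm_of (by rw [can_true]; simp [can_true]) (by rw [can_false]; simp [can_false]; omega))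
  obtain ⟨K2, h2⟩ := V_cmp hA (w := can i m) (w' := can i (m - 1) ++ [false])
    (perm_of (by rw [can_true, List.count_append, can_true]; simp)
      (by rw [can_false, List.count_append, can_false]; simp; omega))
  refine ⟨4 ^ K1 * (4 * Λ * C * 4 ^ K2) + 1, by positivity, fun {L T p q} h hL N => ?_⟩
  have hex := h.exr
  have hE1 := h.E1
  have hE4 := h.E4
  have hLr : (i : ℝ) + 1 + m ≤ L := by exact_mod_cast hL
  have hi0 : (0 : ℝ) ≤ i := Nat.cast_nonneg _
  have hm1 : (1 : ℝ) ≤ m := by exact_mod_cast hm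
  set F := ops N p (fun _ => (1 : ℝ)) with hF
  have hR := h.R N
  have a1 := (h1 h (by rw [can_len]; omega) N).1
  have a2 := (h2 h (by rw [can_len]; omega) N).2
  have hV0 := V_nonneg N p q
  -- the two letters in front
  have a3 : V N p q (true :: false :: can i (m - 1)) ≤ 2 / ((ex p : ℝ) - 1) * V N p q (can i (m - 1)) := by
    refine ops_le q (m := 0) (fun j hj hjN => ?_) 0 le_rfl (Nat.zero_le _)
    refine ev_le (b := 1) (can i (m - 1)) (fun j hj hjN => ?_) j (by have := h.hb1; omega) hjN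
    have h5 := io_bound hR zero_le_one j hj hjN
    have hj0 : (1 : ℝ) ≤ j := by exact_mod_cast hj
    have h6 := hR.1 j
    have h8 : Io N F j ≤ (j + 1) * F j / ((ex p : ℝ) - 1) := by
      rw [le_div_iff₀ (by linarith)]; linarith
    rw [Mo, ← div_eq_mul_inv, div_le_iff₀ (by linarith)]
    refine h8.trans ?_
    rw [div_le_iff₀ (by linarith)]
    have e : 2 / ((ex p : ℝ) - 1) * F j * j * ((ex p : ℝ) - 1) = 2 * j * F j := by
      have : (ex p : ℝ) - 1 ≠ 0 := by linarith
      field_simp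
    rw [e]
    exact mul_le_mul_of_nonneg_right (by linarith) h6
  -- the bound through `q`
  have a4 : V N p q (can i (m - 1)) ≤ C * q.length * V N p q (can i (m - 1) ++ [false]) := by
    have hg := R2_ev (can i (m - 1)) hR zero_le_one (by
      rw [can_len]
      have : (((m - 1 + i : ℕ)) : ℝ) ≤ m + i := by
        have : m - 1 + i ≤ m + i := by omega
        exact_mod_cast this
      linarith)
    rw [can_true, can_false] at hg
    have hm0 : (0 : ℝ) ≤ ((m - 1 : ℕ) : ℝ) := Nat.cast_nonneg _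
    have hg2 := R2_Mo hg (by linarith)
    have hb : (q.length : ℝ) ≤ 2 * Λ * ((ex p : ℝ) - i + ((m - 1 : ℕ) : ℝ) + 1) := by
      have h9 : (q.length : ℝ) ≤ Λ * ex p := by exact_mod_cast h.hΛ
      have h10 : (0 : ℝ) ≤ Λ := Nat.cast_nonneg _
      have h11 : (ex p : ℝ) ≤ 2 * ((ex p : ℝ) - i + ((m - 1 : ℕ) : ℝ) + 1) := by linarith
      calc (q.length : ℝ) ≤ Λ * ex p := h9
        _ ≤ Λ * (2 * ((ex p : ℝ) - i + ((m - 1 : ℕ) : ℝ) + 1)) := mul_le_mul_of_nonneg_left h11 h10
        _ = _ := by ring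
    have h12 := hCB N q _ _ _ h.hq hg2 (by linarith) (by linarith) (by linarith) hb
    have e1 : ops N q (fun j => (j : ℝ) * Mo (ev N (can i (m - 1)) F) j) 0 = V N p q (can i (m - 1)) := by
      rw [V]
      refine ops_congr h.hb1 fun j hj => ?_
      have : (j : ℝ) ≠ 0 := by positivity
      show (j : ℝ) * (ev N (can i (m - 1)) F j * (j : ℝ)⁻¹) = ev N (can i (m - 1)) F j
      field_simp
    have e2 : V N p q (can i (m - 1) ++ [false]) = ops N q (Mo (ev N (can i (m - 1)) F)) 0 := by rw [V, ev_append]; rfl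
    rw [← e1, e2]
    exact h12
  have hb0 : (0 : ℝ) < q.length := by exact_mod_cast h.hb1
  have p1 : EE L p q ^ K1 ≤ 4 ^ K1 := pow_le_pow_left₀ (by linarith) hE4 _
  have p2 : EE L p q ^ K2 ≤ 4 ^ K2 := pow_le_pow_left₀ (by linarith) hE4 _
  have a5 : V N p q (can i (m - 1)) ≤ C * q.length * (4 ^ K2 * V N p q (can i m)) :=
    a4.trans (mul_le_mul_of_nonneg_left (a2.trans (mul_le_mul_of_nonneg_right p2 (hV0 _))) (by positivity))
  have a6 : 2 / ((ex p : ℝ) - 1) * q.length ≤ 4 * Λ := by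
    have h9 : (q.length : ℝ) ≤ Λ * ex p := by exact_mod_cast h.hΛ
    have h10 : (0 : ℝ) ≤ Λ := Nat.cast_nonneg _
    rw [div_mul_eq_mul_div, div_le_iff₀ (by linarith)]
    nlinarith
  have a7 : V N p q (true :: false :: can i (m - 1)) ≤ 4 * Λ * C * 4 ^ K2 * V N p q (can i m) := by
    refine a3.trans ((mul_le_mul_of_nonneg_left a5 (div_nonneg (by norm_num) (by linarith))).trans ?_)
    calc 2 / ((ex p : ℝ) - 1) * (C * q.length * (4 ^ K2 * V N p q (can i m))) =
        (2 / ((ex p : ℝ) - 1) * q.length) * (C * 4 ^ K2 * V N p q (can i m)) := by ring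
      _ ≤ 4 * Λ * (C * 4 ^ K2 * V N p q (can i m)) := by
        refine mul_le_mul_of_nonneg_right a6 ?_
        have := hV0 (can i m)
        positivity
      _ = _ := by ring
  have a8 : V N p q (can (i + 1) m) ≤ 4 ^ K1 * V N p q (true :: false :: can i (m - 1)) :=
    a1.trans (mul_le_mul_of_nonneg_right p1 (hV0 _))
  have a9 := mul_le_mul_of_nonneg_left a7 (by positivity : (0 : ℝ) ≤ 4 ^ K1)
  have a10 := hV0 (can i m)
  calc V N p q (can (i + 1) m) ≤ 4 ^ K1 * (4 * Λ * C * 4 ^ K2 * V N p q (can i m)) := a8.trans a9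
    _ ≤ 4 ^ K1 * (4 * Λ * C * 4 ^ K2 * V N p q (can i m)) + V N p q (can i m) := by linarith
    _ = _ := by ring

lemma compar' (hA : S_A) (hB : S_B) (Λ i m : ℕ) (hm : 1 ≤ m) (t : ℕ) : ∃ C : ℝ, 0 < C ∧ ∀ {L T : ℕ} {p q : List ℕ},
    Cond L T Λ p q → i + t + m ≤ L → ∀ N, V N p q (can (i + t) m) ≤ C * V N p q (can i m) := by
  induction t with
  | zero => exact ⟨1, one_pos, fun {L T p q} h hL N => by rw [one_mul]; rfl⟩
  | succ t ih =>
    obtain ⟨C, hC, h1⟩ := ih
    obtain ⟨C', hC', h2⟩ := compar hA hB Λ (i + t) m hm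
    refine ⟨C' * C, by positivity, fun {L T p q} h hL N => ?_⟩
    have h3 := h1 h (by omega) N
    have h4 := h2 h (by omega) N
    calc V N p q (can (i + (t + 1)) m) ≤ C' * V N p q (can (i + t) m) := h4
      _ ≤ C' * (C * V N p q (can i m)) := mul_le_mul_of_nonneg_left h3 hC'.le
      _ = _ := by ring

end Pool.Agent.K9h92.MQE
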