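import Pool.Agent.K9h92.MP.E3

/-!
# All levels
-/

set_option autoImplicit false

namespace Pool.Agent.K9h92.MQE

open Pool.Agent.K9h92.MP Pool.Agent.K9h92.MP2 Pool.Agent.K9h92.MQ

lemma Cond.mono {L T T' Λ : ℕ} {p q : List ℕ} (h : Cond L T' Λ p q) (hT : T ≤ T') : Cond L T Λ p q :=
  ⟨h.hp, h.hq, hT.trans h.hb, hT.trans h.hT, h.hb1, h.hL, h.hΛ⟩

/-- the canonical form of a word -/
def cf (w : List Bool) : List Bool := can (w.count true) (w.count false)

lemma perm_cf (w : List Bool) : w.Perm (cf w) := perm_of (by rw [cf, can_true]) (by rw [cf, can_false])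

lemma cmpList (hA : S_A) (Lw : List (List Bool)) : ∃ K : ℕ, ∀ {L T Λ : ℕ} {p q : List ℕ}, Cond L T Λ p q →
    (∀ w ∈ Lw, w.length ≤ L) → ∀ N, ∀ w ∈ Lw,
      V N p q w ≤ EE L p q ^ K * V N p q (cf w) ∧ V N p q (cf w) ≤ EE L p q ^ K * V N p q w := by
  induction Lw with
  | nil => exact ⟨0, fun {L T Λ p q} _ _ N w hw => absurd hw (by simp)⟩
  | cons w0 Lw ih =>
    obtain ⟨K, hK⟩ := ih
    obtain ⟨K', hK'⟩ := V_cmp hA (perm_cf w0)
    refine ⟨K + K', fun {L T Λ p q} h hL N w hw => ?_⟩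
    have hE := h.E1
    rcases List.mem_cons.1 hw with rfl | hw
    · obtain ⟨h1, h2⟩ := hK' h (hL _ List.mem_cons_self) N
      have hp : EE L p q ^ K' ≤ EE L p q ^ (K + K') := pow_le_pow_right₀ hE (by omega)
      exact ⟨h1.trans (mul_le_mul_of_nonneg_right hp (V_nonneg _ _ _ _)),
        h2.trans (mul_le_mul_of_nonneg_right hp (V_nonneg _ _ _ _))⟩
    · obtain ⟨h1, h2⟩ := hK h (fun w hw => hL w (List.mem_cons_of_mem _ hw)) N w hw
      have hp : EE L p q ^ K ≤ EE L p q ^ (K + K') := pow_le_pow_right₀ hE (by omega)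
      exact ⟨h1.trans (mul_le_mul_of_nonneg_right hp (V_nonneg _ _ _ _)),
        h2.trans (mul_le_mul_of_nonneg_right hp (V_nonneg _ _ _ _))⟩

lemma comparUnif (hA : S_A) (hB : S_B) (Λ i m : ℕ) (hm : 1 ≤ m) (n : ℕ) : ∃ C : ℝ, 0 < C ∧
    ∀ {L T : ℕ} {p q : List ℕ}, Cond L T Λ p q → i + n + m ≤ L → ∀ N, ∀ t ≤ n,
      V N p q (can (i + t) m) ≤ C * V N p q (can i m) := by
  induction n with
  | zero =>
    refine ⟨1, one_pos, fun {L T p q} h hL N t ht => ?_⟩
    have : t = 0 := by omega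
    subst this
    rw [one_mul]; rfl
  | succ n ih =>
    obtain ⟨C, hC, h1⟩ := ih
    obtain ⟨C', hC', h2⟩ := compar' hA hB Λ i m hm (n + 1)
    refine ⟨C + C', by positivity, fun {L T p q} h hL N t ht => ?_⟩
    have h0 := V_nonneg N p q (can i m)
    rcases Nat.lt_or_ge n t with h3 | h3
    · have : t = n + 1 := by omega
      subst this
      have h4 := h2 h hL N
      nlinarith
    · have h4 := h1 h (by omega) N t h3
      nlinarith

lemma list_abs (Lx : List (ℤ × List Bool)) (F : List Bool → ℝ) {B : ℝ} (hB : 0 ≤ B) (h : ∀ x ∈ Lx, |F x.2| ≤ B) :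
    |(Lx.map fun x => (x.1 : ℝ) * F x.2).sum| ≤ (Lx.map fun x => |(x.1 : ℝ)|).sum * B := by
  induction Lx with
  | nil => simp
  | cons x Lx ih =>
    rw [List.map_cons, List.map_cons, List.sum_cons, List.sum_cons, add_mul]
    refine (abs_add_le _ _).trans (add_le_add ?_ (ih fun y hy => h y (List.mem_cons_of_mem _ hy)))
    rw [abs_mul]
    exact mul_le_mul_of_nonneg_left (h x List.mem_cons_self) (abs_nonneg _)

lemma list_sub (Lx : List (ℤ × List Bool)) (F G : List Bool → ℝ) :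
    (Lx.map fun x => (x.1 : ℝ) * F x.2).sum - (Lx.map fun x => (x.1 : ℝ) * G x.2).sum =
      (Lx.map fun x => (x.1 : ℝ) * (F x.2 - G x.2)).sum := by
  induction Lx with
  | nil => simp
  | cons x Lx ih =>
    simp only [List.map_cons, List.sum_cons]
    rw [← ih]
    ring

lemma abs_within {X Y c : ℝ} (hc : 1 ≤ c) (hY : 0 ≤ Y) (h1 : X ≤ c * Y) (h2 : Y ≤ c * X) :
    |X - Y| ≤ (c - 1) * Y := by
  rw [abs_le]
  constructor
  · by_cases h : Y ≤ X
    · have : 0 ≤ (c - 1) * Y := mul_nonneg (by linarith) hY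
      linarith
    · have h3 : (c - 1) * X ≤ (c - 1) * Y := mul_le_mul_of_nonneg_left (not_le.1 h).le (by linarith)
      linarith
  · linarith

lemma pow_bd {E : ℝ} (h1 : 1 ≤ E) (h4 : E ≤ 4) (M : ℕ) : E ^ M - 1 ≤ M * 4 ^ M * (E - 1) := by
  induction M with
  | zero => simp
  | succ M ih =>
    have h5 : 0 ≤ (M : ℝ) * 4 ^ M * (E - 1) := by
      have : 0 ≤ E - 1 := by linarith
      positivity
    have h6 : (1 : ℝ) ≤ 4 ^ (M + 1) := one_le_pow₀ (by norm_num)
    have h7 : 0 ≤ E - 1 := by linarith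
    calc E ^ (M + 1) - 1 = E * (E ^ M - 1) + (E - 1) := by ring
      _ ≤ E * (M * 4 ^ M * (E - 1)) + (E - 1) := by
        have := mul_le_mul_of_nonneg_left ih (by linarith : 0 ≤ E)
        linarith
      _ ≤ 4 * (M * 4 ^ M * (E - 1)) + 4 ^ (M + 1) * (E - 1) := by
        refine add_le_add (mul_le_mul_of_nonneg_right h4 h5) ?_
        exact le_mul_of_one_le_left h7 h6
      _ = _ := by push_cast; ring

lemma Cond.Esmall {L T Λ : ℕ} {p q : List ℕ} (h : Cond L T Λ p q) (hT : 1 ≤ T) : EE L p q - 1 ≤ 4 / T := by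
  have h1 := h.exr
  have hT0 : (1 : ℝ) ≤ T := by exact_mod_cast hT
  have hb : (T : ℝ) ≤ q.length := by exact_mod_cast h.hb
  have ha : (T : ℝ) ≤ ex p := by exact_mod_cast h.hT
  have hL0 : (0 : ℝ) ≤ L := Nat.cast_nonneg _
  have h2 : 2 / (q.length : ℝ) ≤ 2 / T := div_le_div_of_nonneg_left (by norm_num) (by linarith) hb
  have h3 : 1 / (((ex p : ℝ) - L - 2) + 1) ≤ 2 / T := by
    rw [div_le_div_iff₀ (by linarith) (by linarith)]
    linarith
  have e : (4 : ℝ) / T = 2 / T + 2 / T := by ring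
  rw [EE, e]
  linarith

lemma level (hA : S_A) (hB : S_B) (hC : S_C) (Λ r k : ℕ) (hk : k < r) : ∃ (K0 : ℝ) (T : ℕ), 1 ≤ K0 ∧
    ∀ {p q : List ℕ}, Cond (6 * r + 6) T Λ p q → ∀ N,
      V N p q (can r (2 * r + 1 + k)) ≤ K0 * aN N r p q k 0 ∧
      |aN N r p q k 0| ≤ K0 * V N p q (can r (2 * r + 1 + k)) ∧
      V N p q (can r (2 * r + 1 + (k + 1))) ≤ K0 / q.length * V N p q (can r (2 * r + 1 + k)) := by
  obtain ⟨C, hC0, hcomp⟩ := comparUnif hA hB Λ r (2 * r + 1 + k) (by omega) k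
  obtain ⟨K, hK⟩ := cmpList hA ((P k).map fun x => x.2 ++ jw (r - 1 - k))
  obtain ⟨K', hK'⟩ := V_cmp hA (w := can r (2 * r + 1 + (k + 1))) (w' := can r (2 * r + 1 + k) ++ [false])
    (perm_of (by rw [can_true, List.count_append, can_true]; simp)
      (by rw [can_false, List.count_append, can_false]; simp; omega))
  set S : ℝ := ((P k).map fun x => |(x.1 : ℝ)|).sum with hS
  have hS0 : 0 ≤ S := List.sum_nonneg (by
    intro y hy
    rw [List.mem_map] at hy
    obtain ⟨x, _, rfl⟩ := hy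
    exact abs_nonneg _)
  obtain ⟨T, hT⟩ := exists_nat_ge (8 * (K * 4 ^ K) * (S * C) + 1)
  refine ⟨S * C + 2 + 4 ^ K', T, by nlinarith [pow_pos (by norm_num : (0 : ℝ) < 4) K', mul_nonneg hS0 hC0.le], fun {p q} h N => ?_⟩
  have hE1 := h.E1
  have hE4 := h.E4
  have hT1 : (1 : ℝ) ≤ T := by
    have : 0 ≤ 8 * ((K : ℝ) * 4 ^ K) * (S * C) := by positivity
    linarith
  have hEs := h.Esmall (by exact_mod_cast hT1)
  set v0 := V N p q (can r (2 * r + 1 + k)) with hv0
  have hv00 : 0 ≤ v0 := V_nonneg _ _ _ _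
  set F : List Bool → ℝ := fun w => V N p q (w ++ jw (r - 1 - k)) with hF
  set v : ℕ → ℝ := fun i => V N p q (can (i + (r - 1 - k)) (2 * r + 1 + k)) with hv
  have ha : aN N r p q k 0 = ((P k).map fun x => (x.1 : ℝ) * F x.2).sum := by
    rw [aN]
    congr 1
  have hvk : v (k + 1) = v0 := by
    simp only [hv, hv0]
    rw [show k + 1 + (r - 1 - k) = r by omega]
  have hpos := pos_k hC k v fun i _ => V_nonneg _ _ _ _
  rw [hvk] at hpos
  -- the single words
  have hcf : ∀ x ∈ P k, cf (x.2 ++ jw (r - 1 - k)) = can (x.2.count true + (r - 1 - k)) (2 * r + 1 + k) := by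
    intro x hx
    have h1 := P_count k x hx
    rw [cf, List.count_append, List.count_append, jw_true, jw_false]
    congr 1
    omega
  have hvC : ∀ x ∈ P k, v (x.2.count true) ≤ C * v0 := by
    intro x hx
    have h1 := P_count k x hx
    have h2 := hcomp h (by omega) N (x.2.count true - (k + 1)) (by omega)
    rw [show r + (x.2.count true - (k + 1)) = x.2.count true + (r - 1 - k) by omega] at h2
    exact h2
  have hlen : ∀ w ∈ (P k).map (fun x => x.2 ++ jw (r - 1 - k)), w.length ≤ 6 * r + 6 := by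
    intro w hw
    rw [List.mem_map] at hw
    obtain ⟨x, hx, rfl⟩ := hw
    have h1 := P_count k x hx
    rw [len_count, List.count_append, List.count_append, jw_true, jw_false]
    omega
  have hEK : (EE (6 * r + 6) p q ^ K - 1) * (S * C) ≤ 1 / 2 := by
    have h1 := pow_bd hE1 hE4 K
    have h2 : (EE (6 * r + 6) p q ^ K - 1) * (S * C) ≤ (K * 4 ^ K * (4 / T)) * (S * C) := by
      refine mul_le_mul_of_nonneg_right (h1.trans (mul_le_mul_of_nonneg_left hEs (by positivity))) (by positivity)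
    refine h2.trans ?_
    have e : (K * 4 ^ K * (4 / (T : ℝ))) * (S * C) = (4 * (K * 4 ^ K) * (S * C)) / T := by ring
    rw [e, div_le_iff₀ (by linarith)]
    linarith
  have herr : ∀ x ∈ P k, |F x.2 - v (x.2.count true)| ≤ (EE (6 * r + 6) p q ^ K - 1) * (C * v0) := by
    intro x hx
    obtain ⟨h1, h2⟩ := hK h hlen N (x.2 ++ jw (r - 1 - k)) (List.mem_map.2 ⟨x, hx, rfl⟩)
    rw [hcf x hx] at h1 h2
    have h3 := abs_within (one_le_pow₀ hE1) (V_nonneg _ _ _ _) h1 h2
    refine h3.trans (mul_le_mul_of_nonneg_left (hvC x hx) ?_)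
    have := one_le_pow₀ (n := K) hE1
    linarith
  have hEK1 : 0 ≤ EE (6 * r + 6) p q ^ K - 1 := by
    have := one_le_pow₀ (n := K) hE1
    linarith
  have h5 : |aN N r p q k 0 - ((P k).map fun x => (x.1 : ℝ) * v (x.2.count true)).sum| ≤ 1 / 2 * v0 := by
    rw [ha, list_sub (P k) F (fun w => v (w.count true))]
    refine (list_abs (P k) (fun w => F w - v (w.count true)) (mul_nonneg hEK1 (by positivity)) herr).trans ?_
    calc S * ((EE (6 * r + 6) p q ^ K - 1) * (C * v0)) = ((EE (6 * r + 6) p q ^ K - 1) * (S * C)) * v0 := by ring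
      _ ≤ 1 / 2 * v0 := mul_le_mul_of_nonneg_right hEK hv00
  have h6 : |((P k).map fun x => (x.1 : ℝ) * v (x.2.count true)).sum| ≤ S * (C * v0) := by
    refine list_abs (P k) (fun w => v (w.count true)) (by positivity) fun x hx => ?_
    rw [abs_of_nonneg (V_nonneg _ _ _ _)]
    exact hvC x hx
  have h7 := abs_le.1 h5
  have h8 := abs_le.1 h6
  have h4K : (0 : ℝ) < 4 ^ K' := by positivity
  have hSC : 0 ≤ S * C := by positivity
  refine ⟨?_, ?_, ?_⟩
  · have h9 : v0 ≤ 2 * aN N r p q k 0 := by linarith [h7.1]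
    have h10 : 0 ≤ aN N r p q k 0 := by linarith
    have h11 : 2 * aN N r p q k 0 ≤ (S * C + 2 + 4 ^ K') * aN N r p q k 0 :=
      mul_le_mul_of_nonneg_right (by linarith) h10
    linarith
  · rw [abs_le]
    have h9 : 0 ≤ S * C * v0 := by positivity
    have h10 : 0 ≤ 4 ^ K' * v0 := by positivity
    constructor
    · nlinarith [h7.1, h7.2, h8.1, h8.2]
    · nlinarith [h7.1, h7.2, h8.1, h8.2]
  · have h9 := (hK' h (by rw [can_len]; omega) N).1
    have h10 := V_last (N := N) (p := p) h.hb1 (can r (2 * r + 1 + k))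
    have hb0 : (0 : ℝ) < q.length := by exact_mod_cast h.hb1
    have p1 : EE (6 * r + 6) p q ^ K' ≤ 4 ^ K' := pow_le_pow_left₀ (by linarith) hE4 _
    have hVn := V_nonneg N p q (can r (2 * r + 1 + k) ++ [false])
    calc V N p q (can r (2 * r + 1 + (k + 1))) ≤ EE (6 * r + 6) p q ^ K' * V N p q (can r (2 * r + 1 + k) ++ [false]) := h9
      _ ≤ 4 ^ K' * V N p q (can r (2 * r + 1 + k) ++ [false]) := mul_le_mul_of_nonneg_right p1 hVn
      _ ≤ 4 ^ K' * (1 / (q.length : ℝ) * v0) := mul_le_mul_of_nonneg_left h10 h4K.le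
      _ = 4 ^ K' / q.length * v0 := by ring
      _ ≤ (S * C + 2 + 4 ^ K') / q.length * v0 := by
        refine mul_le_mul_of_nonneg_right ?_ hv00
        exact div_le_div_of_nonneg_right (by linarith) hb0.le

/-- all levels -/
lemma levels (hA : S_A) (hB : S_B) (hC : S_C) (Λ r : ℕ) (n : ℕ) (hn : n ≤ r) : ∃ (K0 : ℝ) (T : ℕ), 1 ≤ K0 ∧
    ∀ {p q : List ℕ}, Cond (6 * r + 6) T Λ p q → ∀ N, ∀ k < n,
      V N p q (can r (2 * r + 1 + k)) ≤ K0 * aN N r p q k 0 ∧
      |aN N r p q k 0| ≤ K0 * V N p q (can r (2 * r + 1 + k)) ∧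
      V N p q (can r (2 * r + 1 + (k + 1))) ≤ K0 / q.length * V N p q (can r (2 * r + 1 + k)) := by
  induction n with
  | zero => exact ⟨1, 0, le_rfl, fun {p q} _ N k hk => absurd hk (by omega)⟩
  | succ n ih =>
    obtain ⟨K0, T, hK0, h1⟩ := ih (by omega)
    obtain ⟨K1, T1, hK1, h2⟩ := level hA hB hC Λ r n (by omega)
    refine ⟨K0 + K1, T + T1, by linarith, fun {p q} h N k hk => ?_⟩
    have hb0 : (0 : ℝ) < q.length := by exact_mod_cast h.hb1
    have hv := V_nonneg N p q (can r (2 * r + 1 + k))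
    have hmain : ∀ K : ℝ, 1 ≤ K → K ≤ K0 + K1 →
        (V N p q (can r (2 * r + 1 + k)) ≤ K * aN N r p q k 0 ∧
        |aN N r p q k 0| ≤ K * V N p q (can r (2 * r + 1 + k)) ∧
        V N p q (can r (2 * r + 1 + (k + 1))) ≤ K / q.length * V N p q (can r (2 * r + 1 + k))) →
        (V N p q (can r (2 * r + 1 + k)) ≤ (K0 + K1) * aN N r p q k 0 ∧
        |aN N r p q k 0| ≤ (K0 + K1) * V N p q (can r (2 * r + 1 + k)) ∧
        V N p q (can r (2 * r + 1 + (k + 1))) ≤ (K0 + K1) / q.length * V N p q (can r (2 * r + 1 + k))) := by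
      intro K hK hKK ⟨a1, a2, a3⟩
      have h5 : 0 ≤ aN N r p q k 0 := by
        by_contra hcon
        have : K * aN N r p q k 0 < 0 := mul_neg_of_pos_of_neg (by linarith) (not_le.1 hcon)
        linarith
      exact ⟨a1.trans (mul_le_mul_of_nonneg_right hKK h5), a2.trans (mul_le_mul_of_nonneg_right hKK hv),
        a3.trans (mul_le_mul_of_nonneg_right (div_le_div_of_nonneg_right hKK hb0.le) hv)⟩
    rcases Nat.lt_or_ge k n with h3 | h3
    · exact hmain K0 hK0 (by linarith) (h1 (h.mono (by omega)) N k h3)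
    · have : k = n := by omega
      subst this
      exact hmain K1 hK1 (by linarith) (h2 (h.mono (by omega)) N)

end Pool.Agent.K9h92.MQE
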