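import Pool.Agent.K9h92.MP.E4
import Pool.Agent.K9h92.MP.A
import Pool.Agent.K9h92.MP.B
import Pool.Agent.K9h92.MP.C
import Pool.Agent.K9h92.MP.D

/-!
# The limit and the theorem on middle parts with one letter three
-/

set_option autoImplicit false

namespace Pool.Agent.K9h92.MQE

open Filter Topology
open Pool.Agent.K9h92.MP Pool.Agent.K9h92.MP2 Pool.Agent.K9h92.MQ
open Pool.Agent.H447R2.MZ (H Adm val tendsto_H H_le_val)

/-- the middle part `2 ^ x 3 2 ^ (r - 1 - x)` -/
def mid (r x : ℕ) : List ℕ := List.replicate x 2 ++ 3 :: List.replicate (r - 1 - x) 2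

lemma op_two (N : ℕ) (f : ℕ → ℝ) : op N 2 f = Io N (Mo (Mo f)) := by
  funext j
  rw [op, Io]
  refine Finset.sum_congr rfl fun n _ => ?_
  rw [Mo, Mo, pow_two, mul_inv, mul_assoc]

lemma op_three (N : ℕ) (f : ℕ → ℝ) : op N 3 f = Io N (Mo (Mo (Mo f))) := by
  funext j
  rw [op, Io]
  refine Finset.sum_congr rfl fun n _ => ?_
  rw [Mo, Mo, Mo, pow_succ, pow_two, mul_inv, mul_inv]
  ring

lemma ops_twos (N x : ℕ) : ∀ f : ℕ → ℝ, ops N (List.replicate x 2) f = ev N (jw x) f := by
  induction x with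
  | zero => intro f; rfl
  | succ x ih =>
    intro f
    rw [List.replicate_succ, ops_cons, ih, op_two]
    rfl

lemma aN_zero (N r x : ℕ) (p q : List ℕ) : aN N r p q 0 x = H (p ++ mid r x ++ q) N := by
  rw [aN, H_eq, P, mid, ops_append, ops_twos, ops_cons, ops_twos, op_three]
  simp only [List.map_cons, List.map_nil, List.sum_cons, List.sum_nil, Int.cast_one, one_mul, add_zero, Nat.sub_zero]
  rw [V, ev_append, ev_append]
  rfl

/-- iterated differences -/
def dd (g : ℕ → ℝ) : ℕ → ℕ → ℝ
  | 0, x => g x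
  | k + 1, x => dd g k (x + 1) - dd g k x

theorem one_three (Λ r : ℕ) : ∃ κ : ℝ, 0 < κ ∧ ∀ p q : List ℕ, (∀ x ∈ p, 1 ≤ x) → (∀ x ∈ q, 1 ≤ x) →
    (∀ x < r, Adm (p ++ mid r x ++ q)) → q.length ≤ Λ * ex p →
    ∀ c : ℕ → ℤ, (∀ x < r, |(c x : ℝ)| ≤ κ * q.length) → (∃ x < r, c x ≠ 0) →
      ∑ x ∈ Finset.range r, (c x : ℝ) * val (p ++ mid r x ++ q) ≠ 0 := by
  have hA : S_A := a_thm
  have hB : S_B := b_thm
  have hC : S_C := MQC.c_thm
  obtain ⟨K0, T, hK0, hlev⟩ := levels hA hB hC Λ r r le_rfl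
  obtain ⟨κ, hκ, hfin⟩ := MQD.d_thm r (K0 ^ 3 + 1) (by linarith [pow_nonneg (by linarith : (0 : ℝ) ≤ K0) 3])
  set L := 6 * r + 6 with hL
  set T' : ℕ := T + Λ * (T + 2 * L + 3) + 1 with hT'
  refine ⟨min κ (1 / T'), lt_min hκ (by positivity), fun p q hp hq hadm hlen c hc hne => ?_⟩
  have hb0 : (0 : ℝ) ≤ q.length := Nat.cast_nonneg _
  -- the length of `q` is large
  have hbig : T' ≤ q.length := by
    obtain ⟨x, hx, hcx⟩ := hne
    have h1 : (1 : ℝ) ≤ |(c x : ℝ)| := by
      rw [← Int.cast_abs]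
      exact_mod_cast Int.one_le_abs hcx
    have h2 := (hc x hx).trans (mul_le_mul_of_nonneg_right (min_le_right _ _) hb0)
    have hT0 : (0 : ℝ) < T' := by positivity
    have h3 : (T' : ℝ) ≤ q.length := by
      have h4 := h1.trans h2
      rw [div_mul_eq_mul_div, one_mul, le_div_iff₀ hT0] at h4
      linarith
    exact_mod_cast h3
  have hex : T + 2 * L + 3 < ex p := by
    by_contra hcon
    have h1 : Λ * ex p ≤ Λ * (T + 2 * L + 3) := Nat.mul_le_mul_left _ (by omega)
    omega
  have hcond : Cond L T Λ p q := ⟨hp, hq, by omega, by omega, by omega, by omega, hlen⟩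
  have hbpos : (0 : ℝ) < q.length := by exact_mod_cast (by omega : 0 < q.length)
  -- limits of the differences
  set a : ℕ → ℕ → ℝ := dd (fun x => val (p ++ mid r x ++ q)) with ha
  have hlim : ∀ k x, k + x < r → Tendsto (fun N => aN N r p q k x) atTop (𝓝 (a k x)) := by
    intro k
    induction k with
    | zero =>
      intro x hx
      refine (tendsto_H _ (hadm x (by omega))).congr fun N => ?_
      rw [aN_zero]
    | succ k ih =>
      intro x hx
      refine ((ih (x + 1) (by omega)).sub (ih x (by omega))).congr fun N => ?_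
      rw [aN_diff hC (by omega) k x (by omega)]
  have hVmono : ∀ {N N' : ℕ}, N ≤ N' → ∀ w, V N p q w ≤ V N' p q w := fun {N N'} h w => by
    have h0 : ∀ M j, 0 ≤ ops M p (fun _ => (1 : ℝ)) j := fun M => ops_nonneg p fun _ => zero_le_one
    exact ops_monoN h q (ev_monoN h w (ops_monoN h p (fun _ => le_rfl) fun _ => zero_le_one) (h0 N'))
      (ev_nonneg w (h0 N')) 0
  have hVpos : ∀ w : List Bool, 0 < V (p.length + w.count true + q.length) p q w := fun w => by
    set N := p.length + w.count true + q.length with hN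
    have h0 : ∀ j, 0 ≤ ops N p (fun _ => (1 : ℝ)) j := ops_nonneg p fun _ => zero_le_one
    have h1 : 0 < ops N p (fun _ => (1 : ℝ)) (q.length + w.count true) :=
      ops_pos p (fun _ => zero_le_one) one_pos (by omega)
    have h3 : 0 < ev N w (ops N p (fun _ => (1 : ℝ))) (0 + q.length) := by
      rw [zero_add]
      exact ev_pos w h0 h1 (by omega) (by omega)
    exact ops_pos q (ev_nonneg w h0) h3 (by omega)
  have hapos : ∀ k < r, 0 < a k 0 := by
    intro k hk
    set w := can r (2 * r + 1 + k) with hw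
    set N0 := p.length + w.count true + q.length with hN0
    have h1 : V N0 p q w ≤ K0 * a k 0 := by
      refine ge_of_tendsto ((hlim k 0 (by omega)).const_mul K0) ?_
      filter_upwards [eventually_ge_atTop N0] with N hN
      exact (hVmono hN w).trans (hlev hcond N k hk).1
    have h2 := hVpos w
    by_contra hcon
    have : K0 * a k 0 ≤ 0 := mul_nonpos_of_nonneg_of_nonpos (by linarith) (not_lt.1 hcon)
    linarith
  have hratio : ∀ k, k + 1 < r → a (k + 1) 0 ≤ (K0 ^ 3 + 1) / q.length * a k 0 := by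
    intro k hk
    have h1 : a (k + 1) 0 ≤ K0 ^ 3 / q.length * a k 0 := by
      refine le_of_tendsto_of_tendsto' (hlim (k + 1) 0 (by omega)) ((hlim k 0 (by omega)).const_mul _) fun N => ?_
      obtain ⟨b1, b2, b3⟩ := hlev hcond N k (by omega)
      obtain ⟨c1, c2, c3⟩ := hlev hcond N (k + 1) (by omega)
      calc aN N r p q (k + 1) 0 ≤ K0 * V N p q (can r (2 * r + 1 + (k + 1))) := (le_abs_self _).trans c2
        _ ≤ K0 * (K0 / q.length * V N p q (can r (2 * r + 1 + k))) := mul_le_mul_of_nonneg_left b3 (by linarith)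
        _ ≤ K0 * (K0 / q.length * (K0 * aN N r p q k 0)) := by
          refine mul_le_mul_of_nonneg_left (mul_le_mul_of_nonneg_left b1 ?_) (by linarith)
          exact div_nonneg (by linarith) hb0
        _ = _ := by ring
    refine h1.trans (mul_le_mul_of_nonneg_right ?_ (hapos k (by omega)).le)
    exact div_le_div_of_nonneg_right (by linarith) hb0
  have hK1 : (1 : ℝ) ≤ K0 ^ 3 + 1 := by linarith [pow_nonneg (by linarith : (0 : ℝ) ≤ K0) 3]
  have hres := hfin q.length a (fun k => a k 0) (by omega) (fun k x _ => rfl) hapos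
    (fun k hk => le_mul_of_one_le_left (hapos k hk).le hK1)
    (fun k hk => by rw [abs_of_pos (hapos k hk)]; exact le_mul_of_one_le_left (hapos k hk).le hK1)
    hratio c (fun x hx => (hc x hx).trans (mul_le_mul_of_nonneg_right (min_le_left _ _) hb0)) hne
  exact hres

end Pool.Agent.K9h92.MQE
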