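import Pool.Agent.K9h92.MP.Stm

set_option autoImplicit false

namespace Pool.Agent.K9h92.MP

theorem fin_thm : S_FIN := by
  intro ι U n K hK
  obtain ⟨C, hC⟩ : ∃ C : ℝ, C = (U.card : ℝ) := ⟨_, rfl⟩
  obtain ⟨S, hS⟩ : ∃ S : ℝ, S = ∑ u ∈ U, (n u : ℝ) := ⟨_, rfl⟩
  have hC0 : 0 ≤ C := by rw [hC]; positivity
  have hS0 : 0 ≤ S := by rw [hS]; positivity
  have hD : 0 < 8 * (K + 1) ^ 2 * (C + S + 1) := by positivity
  refine ⟨1 / (8 * (K + 1) ^ 2 * (C + S + 1)), by positivity, ?_⟩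
  intro a b Z Z0 Δ ha hb hΔ hZ0 hΔZ hZ c hc
  obtain ⟨κ, hκ⟩ : ∃ κ : ℝ, κ = 1 / (8 * (K + 1) ^ 2 * (C + S + 1)) := ⟨_, rfl⟩
  rw [← hκ] at hc
  have hκ0 : 0 < κ := by rw [hκ]; positivity
  have hκD : κ * (8 * (K + 1) ^ 2 * (C + S + 1)) = 1 := by
    rw [hκ]; exact one_div_mul_cancel hD.ne'
  obtain ⟨s, hs⟩ : ∃ s : ℝ, s = 1 / (a : ℝ) + 1 / b := ⟨_, rfl⟩
  rw [← hs] at hΔZ hZ
  have haR : (1 : ℝ) ≤ a := by exact_mod_cast ha
  have hbR : (1 : ℝ) ≤ b := by exact_mod_cast hb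
  have hs0 : 0 ≤ s := by rw [hs]; positivity
  have hs2 : s ≤ 2 := by
    have h1 : 1 / (a : ℝ) ≤ 1 := by rw [div_le_one (by linarith)]; exact haR
    have h2 : 1 / (b : ℝ) ≤ 1 := by rw [div_le_one (by linarith)]; exact hbR
    rw [hs]; linarith
  have hmin : ((min a b : ℕ) : ℝ) * s ≤ 2 := by
    have h1 : ((min a b : ℕ) : ℝ) ≤ a := by exact_mod_cast min_le_left a b
    have h2 : ((min a b : ℕ) : ℝ) ≤ b := by exact_mod_cast min_le_right a b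
    have h3 : ((min a b : ℕ) : ℝ) * (1 / a) ≤ 1 := by
      rw [mul_one_div, div_le_one (by linarith)]; exact h1
    have h4 : ((min a b : ℕ) : ℝ) * (1 / b) ≤ 1 := by
      rw [mul_one_div, div_le_one (by linarith)]; exact h2
    rw [hs, mul_add]; linarith
  have hcs : ∀ u ∈ U, |(c u : ℝ)| * s ≤ 2 * κ := by
    intro u hu
    calc |(c u : ℝ)| * s ≤ (κ * (min a b : ℕ)) * s := mul_le_mul_of_nonneg_right (hc u hu) hs0
      _ = κ * (((min a b : ℕ) : ℝ) * s) := by ring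
      _ ≤ κ * 2 := mul_le_mul_of_nonneg_left hmin hκ0.le
      _ = 2 * κ := by ring
  -- the expansion
  have hexp : ∑ u ∈ U, (c u : ℝ) * Z u = ((∑ u ∈ U, c u : ℤ) : ℝ) * Z0 +
      ((∑ u ∈ U, c u * n u : ℤ) : ℝ) * Δ + ∑ u ∈ U, (c u : ℝ) * (Z u - Z0 - n u * Δ) := by
    push_cast
    rw [Finset.sum_mul, Finset.sum_mul, ← Finset.sum_add_distrib, ← Finset.sum_add_distrib]
    exact Finset.sum_congr rfl fun u _ => by ring
  have herr : |∑ u ∈ U, (c u : ℝ) * (Z u - Z0 - n u * Δ)| ≤ 2 * κ * K * C * Δ := by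
    calc |∑ u ∈ U, (c u : ℝ) * (Z u - Z0 - n u * Δ)| ≤
        ∑ u ∈ U, |(c u : ℝ) * (Z u - Z0 - n u * Δ)| := Finset.abs_sum_le_sum_abs _ _
      _ ≤ ∑ u ∈ U, 2 * κ * K * Δ := by
          refine Finset.sum_le_sum fun u hu => ?_
          rw [abs_mul]
          calc |(c u : ℝ)| * |Z u - Z0 - n u * Δ| ≤ |(c u : ℝ)| * (K * s * Δ) :=
                mul_le_mul_of_nonneg_left (hZ u hu) (abs_nonneg _)
            _ = (|(c u : ℝ)| * s) * (K * Δ) := by ring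
            _ ≤ (2 * κ) * (K * Δ) := mul_le_mul_of_nonneg_right (hcs u hu) (by positivity)
            _ = 2 * κ * K * Δ := by ring
      _ = 2 * κ * K * C * Δ := by
          rw [Finset.sum_const, nsmul_eq_mul, ← hC]; ring
  have hcn : |((∑ u ∈ U, c u * n u : ℤ) : ℝ)| * s ≤ 2 * κ * S := by
    push_cast
    calc |∑ u ∈ U, (c u : ℝ) * (n u : ℝ)| * s ≤ (∑ u ∈ U, |(c u : ℝ) * (n u : ℝ)|) * s :=
          mul_le_mul_of_nonneg_right (Finset.abs_sum_le_sum_abs _ _) hs0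
      _ = ∑ u ∈ U, (|(c u : ℝ)| * s) * (n u : ℝ) := by
          rw [Finset.sum_mul]
          refine Finset.sum_congr rfl fun u _ => ?_
          rw [abs_mul, Nat.abs_cast]; ring
      _ ≤ ∑ u ∈ U, (2 * κ) * (n u : ℝ) :=
          Finset.sum_le_sum fun u hu => mul_le_mul_of_nonneg_right (hcs u hu) (Nat.cast_nonneg _)
      _ = 2 * κ * S := by rw [← Finset.mul_sum, ← hS]
  -- numbers
  have hn1 : 2 * κ * K * C ≤ 1 / 4 := by
    have h1 : 8 * (K * C) ≤ 8 * (K + 1) ^ 2 * (C + S + 1) := by nlinarith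
    have h2 := mul_le_mul_of_nonneg_left h1 hκ0.le
    rw [hκD] at h2
    linarith
  have hn2 : 2 * κ * S * K + 2 * κ * K * C * (2 * K) ≤ 1 / 2 := by
    have h1 : 4 * (S * K) + 8 * (K * C * K) ≤ 8 * (K + 1) ^ 2 * (C + S + 1) := by
      have e1 : 0 ≤ K * C := by positivity
      have e2 : 0 ≤ S * K := by positivity
      have e3 : 0 ≤ K * C * K := by positivity
      have e4 : 0 ≤ K * K * S := by positivity
      nlinarith
    have h2 := mul_le_mul_of_nonneg_left h1 hκ0.le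
    rw [hκD] at h2
    linarith
  constructor
  · intro hM
    have hM1 : (1 : ℝ) ≤ |((∑ u ∈ U, c u : ℤ) : ℝ)| := by
      have := Int.one_le_abs hM
      exact_mod_cast this
    have t1 : Z0 ≤ |((∑ u ∈ U, c u : ℤ) : ℝ) * Z0| := by
      rw [abs_mul, abs_of_pos hZ0]
      calc Z0 = 1 * Z0 := (one_mul _).symm
        _ ≤ _ := mul_le_mul_of_nonneg_right hM1 hZ0.le
    have t2 : |((∑ u ∈ U, c u * n u : ℤ) : ℝ) * Δ| ≤ 2 * κ * S * K * Z0 := by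
      rw [abs_mul, abs_of_pos hΔ]
      calc |((∑ u ∈ U, c u * n u : ℤ) : ℝ)| * Δ ≤ |((∑ u ∈ U, c u * n u : ℤ) : ℝ)| * (K * s * Z0) :=
            mul_le_mul_of_nonneg_left hΔZ (abs_nonneg _)
        _ = (|((∑ u ∈ U, c u * n u : ℤ) : ℝ)| * s) * (K * Z0) := by ring
        _ ≤ (2 * κ * S) * (K * Z0) := mul_le_mul_of_nonneg_right hcn (by positivity)
        _ = _ := by ring
    have t3 : 2 * κ * K * C * Δ ≤ 2 * κ * K * C * (2 * K) * Z0 := by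
      have h1 : Δ ≤ 2 * K * Z0 := by
        refine hΔZ.trans ?_
        have : K * s * Z0 ≤ K * 2 * Z0 :=
          mul_le_mul_of_nonneg_right (mul_le_mul_of_nonneg_left hs2 hK) hZ0.le
        linarith
      calc 2 * κ * K * C * Δ ≤ 2 * κ * K * C * (2 * K * Z0) :=
            mul_le_mul_of_nonneg_left h1 (by positivity)
        _ = _ := by ring
    have t4 : (2 * κ * S * K + 2 * κ * K * C * (2 * K)) * Z0 ≤ 1 / 2 * Z0 :=
      mul_le_mul_of_nonneg_right hn2 hZ0.le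
    rw [hexp]
    have g1 := abs_add_le (((∑ u ∈ U, c u : ℤ) : ℝ) * Z0 + ((∑ u ∈ U, c u * n u : ℤ) : ℝ) * Δ +
      ∑ u ∈ U, (c u : ℝ) * (Z u - Z0 - n u * Δ)) (-(((∑ u ∈ U, c u * n u : ℤ) : ℝ) * Δ) +
      -(∑ u ∈ U, (c u : ℝ) * (Z u - Z0 - n u * Δ)))
    have g2 := abs_add_le (-(((∑ u ∈ U, c u * n u : ℤ) : ℝ) * Δ))
      (-(∑ u ∈ U, (c u : ℝ) * (Z u - Z0 - n u * Δ)))
    rw [abs_neg, abs_neg] at g2
    have e : ((∑ u ∈ U, c u : ℤ) : ℝ) * Z0 + ((∑ u ∈ U, c u * n u : ℤ) : ℝ) * Δ +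
      ∑ u ∈ U, (c u : ℝ) * (Z u - Z0 - n u * Δ) + (-(((∑ u ∈ U, c u * n u : ℤ) : ℝ) * Δ) +
      -(∑ u ∈ U, (c u : ℝ) * (Z u - Z0 - n u * Δ))) = ((∑ u ∈ U, c u : ℤ) : ℝ) * Z0 := by ring
    rw [e] at g1
    linarith
  · intro hM hN
    have hN1 : (1 : ℝ) ≤ |((∑ u ∈ U, c u * n u : ℤ) : ℝ)| := by
      have := Int.one_le_abs hN
      exact_mod_cast this
    have t1 : Δ ≤ |((∑ u ∈ U, c u * n u : ℤ) : ℝ) * Δ| := by
      rw [abs_mul, abs_of_pos hΔ]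
      calc Δ = 1 * Δ := (one_mul _).symm
        _ ≤ _ := mul_le_mul_of_nonneg_right hN1 hΔ.le
    have t3 : 2 * κ * K * C * Δ ≤ 1 / 4 * Δ := mul_le_mul_of_nonneg_right hn1 hΔ.le
    rw [hexp, hM, Int.cast_zero, zero_mul, zero_add]
    have g1 := abs_add_le (((∑ u ∈ U, c u * n u : ℤ) : ℝ) * Δ +
      ∑ u ∈ U, (c u : ℝ) * (Z u - Z0 - n u * Δ))
      (-(∑ u ∈ U, (c u : ℝ) * (Z u - Z0 - n u * Δ)))
    rw [abs_neg] at g1
    have e : ((∑ u ∈ U, c u * n u : ℤ) : ℝ) * Δ + ∑ u ∈ U, (c u : ℝ) * (Z u - Z0 - n u * Δ) +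
      -(∑ u ∈ U, (c u : ℝ) * (Z u - Z0 - n u * Δ)) = ((∑ u ∈ U, c u * n u : ℤ) : ℝ) * Δ := by ring
    rw [e] at g1
    linarith

end Pool.Agent.K9h92.MP
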