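import Pool.Agent.K9h92.MP.Ops

/-!
# The first order expansion for words in the middle
-/

set_option autoImplicit false

namespace Pool.Agent.K9h92.MP2

open Pool.Agent.K9h92.MP

/-- the excess of a word -/
def ex (y : List ℕ) : ℕ := (y.map (· - 1)).sum

lemma ex_nil : ex [] = 0 := rfl
lemma ex_cons (t : ℕ) (y : List ℕ) : ex (t :: y) = (t - 1) + ex y := by simp [ex]
lemma nn_cons (s : ℕ) (y : List ℕ) : nn (s :: y) = nn y + ex y := rfl
lemma ops_cons (N s : ℕ) (w : List ℕ) (f : ℕ → ℝ) : ops N (s :: w) f = ops N w (op N s f) := rfl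

/-- the setting: lower end `b`, minimal decay `A`, factor `E` -/
structure Set1 (b : ℕ) (A E : ℝ) : Prop where
  hb : 1 ≤ b
  hA : 2 ≤ A
  hE : 1 + (2 / A + 2 / b) ≤ E

lemma Set1.one_le {b : ℕ} {A E : ℝ} (h : Set1 b A E) : 1 ≤ E := by
  have h1 := h.hE
  have h2 := h.hA
  have : (0 : ℝ) ≤ 2 / A + 2 / b := by positivity
  linarith

lemma op_mul_j (N t : ℕ) (g : ℕ → ℝ) : op N (t + 1) (fun j => (j : ℝ) * g j) = op N t g := by
  funext j
  rw [op, op]
  refine Finset.sum_congr rfl fun n _ => ?_
  have : ((n + 1 : ℕ) : ℝ) ≠ 0 := by positivity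
  rw [pow_succ]
  field_simp

lemma unit_W {N b : ℕ} {A E α : ℝ} (h : Set1 b A E) {f : ℕ → ℝ} (hf : R N α f) (hα : A ≤ α) {τ : ℕ} (hτ : 1 ≤ τ)
    (t : ℕ) : W N b E (op N (t + 1) (op N τ f)) (op N t (op N (τ + 1) f)) := by
  have hA := h.hA
  have h1 := unit_fun hf (hA.trans hα) hτ h.hb
  have h2 : 1 + (2 / α + 2 / (b : ℝ)) ≤ E := by
    have : 2 / α ≤ 2 / A := div_le_div_of_nonneg_left (by norm_num) (by linarith) hα
    have := h.hE
    linarith
  have h3 := ((h1.mono h2).opW (s := t + 1))
  rw [op_mul_j] at h3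
  exact h3

lemma two {N b : ℕ} {A E α : ℝ} (h : Set1 b A E) {f : ℕ → ℝ} (hf : R N α f) (hα : A ≤ α) (k : ℕ) :
    ∀ s, 1 ≤ s → W N b (E ^ k) (op N (1 + k) (op N s f)) (op N 1 (op N (s + k) f)) := by
  have hE := h.one_le
  induction k with
  | zero =>
    intro s _
    rw [pow_zero]
    exact W.refl le_rfl (op_nonneg (op_nonneg hf.1))
  | succ k ih =>
    intro s hs
    have h1 := unit_W h hf hα hs (1 + k)
    have h2 := ih (s + 1) (by omega)
    have h3 := W.trans (by linarith) (by positivity) h1 h2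
    rw [show 1 + (k + 1) = 1 + k + 1 by omega, show s + (k + 1) = s + 1 + k by omega, pow_succ']
    exact h3

lemma comp (y : List ℕ) : ∀ (s : ℕ), 1 ≤ s → (∀ x ∈ y, 1 ≤ x) → ∀ {N b : ℕ} {A E α : ℝ}, Set1 b A E →
    ∀ {f : ℕ → ℝ}, R N α f → A ≤ α →
      W N b (E ^ (nn (s :: y))) (ops N (s :: y) f) (ops N ((s + ex y) :: List.replicate y.length 1) f) := by
  induction y with
  | nil =>
    intro s _ _ N b A E α h f hf hα
    exact W.refl (one_le_pow₀ h.one_le) (ops_nonneg _ hf.1)
  | cons t y ih =>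
    intro s hs hy N b A E α h f hf hα
    have hE := h.one_le
    have hA := h.hA
    have ht : 1 ≤ t := hy t List.mem_cons_self
    have hf' := R_op hf hs (by linarith : (0 : ℝ) ≤ α)
    have hs' : (1 : ℝ) ≤ s := by exact_mod_cast hs
    have h1 := ih t ht (fun x hx => hy x (List.mem_cons_of_mem _ hx)) h hf' (by linarith)
    have h2 := (two h hf hα (ex (t :: y)) s hs).opsW (List.replicate y.length 1)
    have e : t + ex y = 1 + ex (t :: y) := by rw [ex_cons]; omega
    rw [ops_cons N (t + ex y), e] at h1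
    have h3 := W.trans (by positivity) (by positivity) h1 h2
    rw [nn_cons s, pow_add]
    exact h3

/-- the leaf on `star`, in the form needed -/
lemma star_W (hS : S_STAR) {N b : ℕ} {A E α : ℝ} (h : Set1 b A E) {f : ℕ → ℝ} (hf : R N α f) (hα : A + 1 ≤ α)
    (h0 : f N = 0) (s : ℕ) : W N b (E ^ s) (star N (op N s f)) (op N s (star N f)) := by
  intro j hbj hjN
  have hA := h.hA
  have hb := h.hb
  have hE := h.one_le
  obtain ⟨h1, h2⟩ := hS N s α f (by linarith) hf h0 j (by omega) hjN
  have h3 := star_nonneg (N := N) (op_nonneg (N := N) (s := s) hf.1) j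
  have h4 := op_nonneg (N := N) (s := s) (star_nonneg (N := N) hf.1) j
  refine ⟨h3, h4, h1.trans (le_mul_of_one_le_left h4 (one_le_pow₀ hE)), h2.trans ?_⟩
  refine mul_le_mul_of_nonneg_right ?_ h3
  have h5 : 2 / (α - 1) ≤ 2 / A := div_le_div_of_nonneg_left (by norm_num) (by linarith) (by linarith)
  have h6 := h.hE
  have h7 : (0 : ℝ) ≤ 2 / b := by positivity
  have h8 : 0 ≤ 2 / (α - 1) := div_nonneg (by norm_num) (by linarith)
  exact pow_le_pow_left₀ (by linarith) (by linarith) s

lemma bracket (N t s : ℕ) (f : ℕ → ℝ) (j : ℕ) :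
    op N (t + 1) (op N s f) j - op N t (op N (s + 1) f) j = op N (t + 1) (star N (op N (s + 1) f)) j := by
  rw [← op_mul_j N t (op N (s + 1) f)]
  rw [op, op, op, ← Finset.sum_sub_distrib]
  refine Finset.sum_congr rfl fun n hn => ?_
  have hn' := Finset.mem_Ico.1 hn
  rw [op_identity N s f (n + 1) (by omega) (by omega)]
  ring

lemma two_diff (hS : S_STAR) {N b : ℕ} {A E α : ℝ} (h : Set1 b A E) {f : ℕ → ℝ} (hf : R N α f) (hα : A + 1 ≤ α)
    (h0 : f N = 0) (k : ℕ) : ∀ s, 1 ≤ s →
    W N b (E ^ (s + k + 1)) (fun j => op N (1 + k) (op N s f) j - op N 1 (op N (s + k) f) j)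
      (fun j => (k : ℝ) * op N 1 (op N (s + k + 1) (star N f)) j) := by
  have hE := h.one_le
  have hA := h.hA
  have hstar := R_star hf (by linarith : (0 : ℝ) ≤ α)
  induction k with
  | zero =>
    intro s _ j _ _
    simp
  | succ k ih =>
    intro s hs
    have h1 := ih (s + 1) (by omega)
    have h2 := (star_W hS h hf hα h0 (s + 1)).opW (s := 1 + (k + 1))
    have h3 := two h hstar (by linarith : A ≤ α - 1) (k + 1) (s + 1) (by omega)
    have h4 := W.trans (by positivity) (by positivity) h2 h3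
    rw [← pow_add] at h4
    have h4' := h4.mono (pow_le_pow_right₀ hE (by omega) : E ^ (s + 1 + (k + 1)) ≤ E ^ (s + (k + 1) + 1))
    have h1' := h1.mono (pow_le_pow_right₀ hE (by omega) : E ^ (s + 1 + k + 1) ≤ E ^ (s + (k + 1) + 1))
    have h5 := h4'.add h1'
    intro j hbj hjN
    have h6 := h5 j hbj hjN
    have e1 : op N (1 + (k + 1)) (star N (op N (s + 1) f)) j +
        (op N (1 + k) (op N (s + 1) f) j - op N 1 (op N (s + 1 + k) f) j) =
        op N (1 + (k + 1)) (op N s f) j - op N 1 (op N (s + (k + 1)) f) j := by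
      rw [show 1 + (k + 1) = 1 + k + 1 by omega, ← bracket, show s + (k + 1) = s + 1 + k by omega]
      ring
    have e2 : op N 1 (op N (s + 1 + (k + 1)) (star N f)) j + (k : ℝ) * op N 1 (op N (s + 1 + k + 1) (star N f)) j =
        ((k + 1 : ℕ) : ℝ) * op N 1 (op N (s + (k + 1) + 1) (star N f)) j := by
      rw [show s + 1 + (k + 1) = s + (k + 1) + 1 by omega, show s + 1 + k + 1 = s + (k + 1) + 1 by omega]
      push_cast
      ring
    simp only at h6
    rw [e1, e2] at h6
    exact h6

lemma diff (hS : S_STAR) (y : List ℕ) : ∀ (s : ℕ), 1 ≤ s → (∀ x ∈ y, 1 ≤ x) → ∃ M : ℕ,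
    ∀ {N b : ℕ} {A E α : ℝ}, Set1 b A E → ∀ {f : ℕ → ℝ}, R N α f → A + 1 ≤ α → f N = 0 →
      W N b (E ^ M)
        (fun j => ops N (s :: y) f j - ops N ((s + ex y) :: List.replicate y.length 1) f j)
        (fun j => (nn (s :: y) : ℝ) * ops N ((s + ex y + 1) :: List.replicate y.length 1) (star N f) j) := by
  induction y with
  | nil =>
    intro s _ _
    refine ⟨0, fun {N b A E α} h {f} hf hα h0 j _ _ => ?_⟩
    simp [nn, ex]
  | cons t y ih =>
    intro s hs hy
    have ht : 1 ≤ t := hy t List.mem_cons_self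
    obtain ⟨M, hM⟩ := ih t ht (fun x hx => hy x (List.mem_cons_of_mem _ hx))
    refine ⟨M + (s + ex (t :: y) + 1), fun {N b A E α} h {f} hf hα h0 => ?_⟩
    have hE := h.one_le
    have hA := h.hA
    have hs' : (1 : ℝ) ≤ s := by exact_mod_cast hs
    have hf' := R_op hf hs (by linarith : (0 : ℝ) ≤ α)
    have hstar := R_star hf (by linarith : (0 : ℝ) ≤ α)
    have e : t + ex y = 1 + ex (t :: y) := by rw [ex_cons]; omega
    set k := ex (t :: y) with hk
    set rep := List.replicate y.length 1 with hrep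
    have h1 := hM h hf' (by linarith) (op_end N s f le_rfl)
    -- compare the right side of `h1`
    have h2 := ((star_W hS h hf hα h0 s).opW (s := 1 + (k + 1))).opsW rep
    have h3 := (two h hstar (by linarith : A ≤ α - 1) (k + 1) s hs).opsW rep
    have h4 := (W.trans (by positivity) (by positivity) h2 h3).smul (Nat.cast_nonneg (nn (t :: y)))
    rw [ops_cons N (t + ex y + 1), show t + ex y + 1 = 1 + (k + 1) by omega] at h1
    have h5 := W.trans (by positivity) (by positivity) h1 h4
    have h6 := (two_diff hS h hf hα h0 k s hs).opsW rep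
    rw [ops_sub, ops_smul] at h6
    have h5' : W N b (E ^ (M + (s + k + 1))) _ _ := h5.mono (by
      rw [← pow_add, ← pow_add]
      exact pow_le_pow_right₀ hE (by omega))
    have h6' : W N b (E ^ (M + (s + k + 1))) _ _ := h6.mono (pow_le_pow_right₀ hE (by omega))
    have h7 := h5'.add h6'
    intro j hbj hjN
    have h8 := h7 j hbj hjN
    simp only at h8
    have e1 : ops N (t :: y) (op N s f) j - ops N ((t + ex y) :: rep) (op N s f) j +
        (ops N rep (op N (1 + k) (op N s f)) j - ops N rep (op N 1 (op N (s + k) f)) j) =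
        ops N (s :: t :: y) f j - ops N ((s + k) :: List.replicate (t :: y).length 1) f j := by
      rw [ops_cons N (t + ex y), e, List.length_cons, List.replicate_succ, ops_cons N s, ops_cons N (s + k),
        ops_cons N 1]
      ring
    have e2 : (nn (t :: y) : ℝ) * ops N rep (op N 1 (op N (s + (k + 1)) (star N f))) j +
        (k : ℝ) * ops N rep (op N 1 (op N (s + k + 1) (star N f))) j =
        (nn (s :: t :: y) : ℝ) * ops N ((s + k + 1) :: List.replicate (t :: y).length 1) (star N f) j := by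
      rw [nn_cons s, List.length_cons, List.replicate_succ, ops_cons N (s + k + 1), ops_cons N 1, ← hk,
        show s + (k + 1) = s + k + 1 by omega]
      push_cast
      ring
    rw [e1, e2] at h8
    exact h8

end Pool.Agent.K9h92.MP2
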