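import Pool.Agent.K9h92.MP.Stm

/-!
# The operators `op`, `star`, `ops`: basic estimates
-/

set_option autoImplicit false

namespace Pool.Agent.K9h92.MP2

open Pool.Agent.K9h92.MP

lemma op_end (N s : ℕ) (f : ℕ → ℝ) {j : ℕ} (h : N ≤ j) : op N s f j = 0 := by
  rw [op, Finset.Ico_eq_empty_of_le h, Finset.sum_empty]

lemma op_step (N s : ℕ) (f : ℕ → ℝ) {j : ℕ} (h : j < N) :
    op N s f j = f (j + 1) * (((j + 1 : ℕ) : ℝ) ^ s)⁻¹ + op N s f (j + 1) := by
  rw [op, Finset.sum_eq_sum_Ico_succ_bot h]; rfl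

lemma star_end (N : ℕ) (f : ℕ → ℝ) {j : ℕ} (h : N ≤ j) : star N f j = 0 := by
  rw [Pool.Agent.K9h92.MP.star, Finset.Ico_eq_empty_of_le h, Finset.sum_empty]

lemma star_step (N : ℕ) (f : ℕ → ℝ) {j : ℕ} (h : j < N) : star N f j = f j + star N f (j + 1) := by
  rw [Pool.Agent.K9h92.MP.star, Finset.sum_eq_sum_Ico_succ_bot h]; rfl

lemma op_nonneg {N s : ℕ} {f : ℕ → ℝ} (hf : ∀ j, 0 ≤ f j) (j : ℕ) : 0 ≤ op N s f j :=
  Finset.sum_nonneg fun n _ => mul_nonneg (hf _) (by positivity)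

lemma star_nonneg {N : ℕ} {f : ℕ → ℝ} (hf : ∀ j, 0 ≤ f j) (j : ℕ) : 0 ≤ star N f j :=
  Finset.sum_nonneg fun n _ => hf _

lemma ops_nonneg {N : ℕ} (w : List ℕ) : ∀ {f : ℕ → ℝ}, (∀ j, 0 ≤ f j) → ∀ j, 0 ≤ ops N w f j := by
  induction w with
  | nil => intro f hf j; exact hf j
  | cons s w ih => intro f hf j; exact ih (op_nonneg hf) j

lemma ops_append (N : ℕ) (u v : List ℕ) : ∀ f : ℕ → ℝ, ops N (u ++ v) f = ops N v (ops N u f) := by
  induction u with
  | nil => intro f; rfl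
  | cons s u ih => intro f; exact ih _

/-- downward induction -/
lemma down {P : ℕ → Prop} {N : ℕ} (h0 : P N) (h : ∀ j, 1 ≤ j → j < N → P (j + 1) → P j) :
    ∀ j, 1 ≤ j → j ≤ N → P j := by
  have : ∀ d j, 1 ≤ j → j + d = N → P j := by
    intro d
    induction d with
    | zero => intro j _ hj; rw [← hj] at h0; exact h0
    | succ d ih => intro j hj hjd; exact h j hj (by omega) (ih (j + 1) (by omega) (by omega))
  intro j hj hjN
  exact this (N - j) j hj (by omega)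

lemma key (x α : ℝ) (hx : 0 < x) (hα : 0 ≤ α) (t : ℕ) : (x + 1 + α + t) * x ^ t ≤ (x + 1 + α) * (x + 1) ^ t := by
  induction t with
  | zero => simp
  | succ t ih =>
    have h1 : x ^ t ≤ (x + 1) ^ t := pow_le_pow_left₀ hx.le (by linarith) t
    have h2 : 0 ≤ x ^ t := by positivity
    push_cast
    calc (x + 1 + α + (t + 1)) * x ^ (t + 1) = x * ((x + 1 + α + t) * x ^ t) + x * x ^ t := by ring
      _ ≤ x * ((x + 1 + α) * (x + 1) ^ t) + (x + 1 + α) * (x + 1) ^ t := by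
        refine add_le_add (mul_le_mul_of_nonneg_left ih hx.le) ?_
        exact mul_le_mul (by linarith) h1 h2 (by linarith)
      _ = (x + 1 + α) * (x + 1) ^ (t + 1) := by ring

lemma key2 {x α F0 F1 : ℝ} (hx : 0 < x) (hα : 0 ≤ α) (hF1 : 0 ≤ F1) (t : ℕ)
    (h : (x + 1 + α) * F1 ≤ (x + 1) * F0) :
    (x + 1 + α + t) * (F1 * ((x + 1) ^ (t + 1))⁻¹) ≤ x * (F0 * (x ^ (t + 1))⁻¹) := by
  have h1 := key x α hx hα t
  have e1 : x * (F0 * (x ^ (t + 1))⁻¹) = F0 / x ^ t := by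
    field_simp
    ring
  have e2 : (x + 1 + α + t) * (F1 * ((x + 1) ^ (t + 1))⁻¹) = ((x + 1 + α + t) * F1) / (x + 1) ^ (t + 1) := by
    field_simp
  rw [e1, e2, div_le_div_iff₀ (by positivity) (by positivity)]
  calc (x + 1 + α + t) * F1 * x ^ t = F1 * ((x + 1 + α + t) * x ^ t) := by ring
    _ ≤ F1 * ((x + 1 + α) * (x + 1) ^ t) := mul_le_mul_of_nonneg_left h1 hF1
    _ = ((x + 1 + α) * F1) * (x + 1) ^ t := by ring
    _ ≤ ((x + 1) * F0) * (x + 1) ^ t := mul_le_mul_of_nonneg_right h (by positivity)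
    _ = F0 * (x + 1) ^ (t + 1) := by ring

lemma op_bound {N s : ℕ} {α : ℝ} {f : ℕ → ℝ} (hf : R N α f) (hs : 1 ≤ s) (hα : 0 ≤ α) :
    ∀ j : ℕ, 1 ≤ j → j ≤ N → (α + s - 1) * op N s f j ≤ j * (f j * ((j : ℝ) ^ s)⁻¹) := by
  obtain ⟨t, rfl⟩ : ∃ t, s = t + 1 := ⟨s - 1, by omega⟩
  refine down ?_ ?_
  · rw [op_end N _ f le_rfl, mul_zero]
    have := hf.1 N
    positivity
  · intro j hj hjN ih
    rw [op_step N _ f hjN]
    have h1 := hf.2 j hj hjN
    have hj0 : (0 : ℝ) < j := by exact_mod_cast hj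
    have h2 := key2 hj0 hα (hf.1 (j + 1)) t h1
    push_cast at ih ⊢
    set A := f (j + 1) * (((j : ℝ) + 1) ^ (t + 1))⁻¹ with hA
    linarith

lemma R_op {N s : ℕ} {α : ℝ} {f : ℕ → ℝ} (hf : R N α f) (hs : 1 ≤ s) (hα : 0 ≤ α) :
    R N (α + s - 1) (op N s f) := by
  refine ⟨op_nonneg hf.1, fun j hj hjN => ?_⟩
  have h1 := op_bound hf hs hα (j + 1) (by omega) (by omega)
  rw [op_step N s f hjN]
  push_cast at h1 ⊢
  linarith

lemma star_bound {N : ℕ} {β : ℝ} {f : ℕ → ℝ} (hf : R N β f) (hβ : 0 ≤ β) :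
    ∀ j : ℕ, 1 ≤ j → j ≤ N → (β - 1) * star N f j ≤ (j + β) * f j := by
  refine down ?_ ?_
  · rw [star_end N f le_rfl, mul_zero]
    have := hf.1 N
    positivity
  · intro j hj hjN ih
    rw [star_step N f hjN]
    have h1 := hf.2 j hj hjN
    push_cast at ih
    linarith

lemma R_star {N : ℕ} {β : ℝ} {f : ℕ → ℝ} (hf : R N β f) (hβ : 0 ≤ β) : R N (β - 1) (star N f) := by
  refine ⟨star_nonneg hf.1, fun j hj hjN => ?_⟩
  have h1 := star_bound hf hβ (j + 1) (by omega) (by omega)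
  have h2 := hf.2 j hj hjN
  rw [star_step N f hjN]
  push_cast at h1 ⊢
  linarith

/-- the exact effect of moving a unit of exponent -/
lemma op_identity (N τ : ℕ) (f : ℕ → ℝ) : ∀ j : ℕ, 1 ≤ j → j ≤ N →
    op N τ f j = j * op N (τ + 1) f j + star N (op N (τ + 1) f) j := by
  refine down ?_ ?_
  · rw [op_end N _ f le_rfl, op_end N _ f le_rfl, star_end N _ le_rfl]; ring
  · intro j hj hjN ih
    rw [star_step N _ hjN, op_step N τ f hjN, ih, op_step N (τ + 1) f hjN]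
    have e : (((j + 1 : ℕ) : ℝ) ^ τ)⁻¹ = ((j + 1 : ℕ) : ℝ) * (((j + 1 : ℕ) : ℝ) ^ (τ + 1))⁻¹ := by
      have : ((j + 1 : ℕ) : ℝ) ≠ 0 := by positivity
      rw [pow_succ]
      field_simp
    rw [e]
    push_cast
    ring

/-- `f` and `g` are nonnegative and within a factor `c` on `[b, N]` -/
def W (N b : ℕ) (c : ℝ) (f g : ℕ → ℝ) : Prop :=
  ∀ j, b ≤ j → j ≤ N → 0 ≤ f j ∧ 0 ≤ g j ∧ f j ≤ c * g j ∧ g j ≤ c * f j

lemma W.symm {N b : ℕ} {c : ℝ} {f g : ℕ → ℝ} (h : W N b c f g) : W N b c g f :=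
  fun j h1 h2 => ⟨(h j h1 h2).2.1, (h j h1 h2).1, (h j h1 h2).2.2.2, (h j h1 h2).2.2.1⟩

lemma W.refl {N b : ℕ} {c : ℝ} (hc : 1 ≤ c) {f : ℕ → ℝ} (hf : ∀ j, 0 ≤ f j) : W N b c f f :=
  fun j _ _ => ⟨hf j, hf j, le_mul_of_one_le_left (hf j) hc, le_mul_of_one_le_left (hf j) hc⟩

lemma W.trans {N b : ℕ} {c d : ℝ} (hc : 0 ≤ c) (hd : 0 ≤ d) {f g h : ℕ → ℝ} (h1 : W N b c f g) (h2 : W N b d g h) :
    W N b (c * d) f h := fun j hb hN => by
  obtain ⟨a1, a2, a3, a4⟩ := h1 j hb hN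
  obtain ⟨b1, b2, b3, b4⟩ := h2 j hb hN
  refine ⟨a1, b2, ?_, ?_⟩
  · calc f j ≤ c * g j := a3
      _ ≤ c * (d * h j) := mul_le_mul_of_nonneg_left b3 hc
      _ = _ := by ring
  · calc h j ≤ d * g j := b4
      _ ≤ d * (c * f j) := mul_le_mul_of_nonneg_left a4 hd
      _ = _ := by ring

lemma W.mono {N b : ℕ} {c d : ℝ} (hcd : c ≤ d) {f g : ℕ → ℝ} (h1 : W N b c f g) : W N b d f g := fun j hb hN => by
  obtain ⟨a1, a2, a3, a4⟩ := h1 j hb hN
  exact ⟨a1, a2, a3.trans (mul_le_mul_of_nonneg_right hcd a2), a4.trans (mul_le_mul_of_nonneg_right hcd a1)⟩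

lemma W.add {N b : ℕ} {c : ℝ} {f g f' g' : ℕ → ℝ} (h1 : W N b c f g) (h2 : W N b c f' g') :
    W N b c (fun j => f j + f' j) (fun j => g j + g' j) := fun j hb hN => by
  obtain ⟨a1, a2, a3, a4⟩ := h1 j hb hN
  obtain ⟨b1, b2, b3, b4⟩ := h2 j hb hN
  exact ⟨add_nonneg a1 b1, add_nonneg a2 b2, by simp only; linarith, by simp only; linarith⟩

lemma W.smul {N b : ℕ} {c r : ℝ} (hr : 0 ≤ r) {f g : ℕ → ℝ} (h1 : W N b c f g) :
    W N b c (fun j => r * f j) (fun j => r * g j) := fun j hb hN => by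
  obtain ⟨a1, a2, a3, a4⟩ := h1 j hb hN
  refine ⟨mul_nonneg hr a1, mul_nonneg hr a2, ?_, ?_⟩
  · calc r * f j ≤ r * (c * g j) := mul_le_mul_of_nonneg_left a3 hr
      _ = _ := by ring
  · calc r * g j ≤ r * (c * f j) := mul_le_mul_of_nonneg_left a4 hr
      _ = _ := by ring

/-- `op` improves the left end by one -/
lemma W.opW' {N b s : ℕ} {c : ℝ} {f g : ℕ → ℝ} (h : W N (b + 1) c f g) : W N b c (op N s f) (op N s g) := fun j hb hN => by
  have hh : ∀ n ∈ Finset.Ico j N, b + 1 ≤ n + 1 ∧ n + 1 ≤ N := fun n hn => by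
    have := Finset.mem_Ico.1 hn
    omega
  refine ⟨?_, ?_, ?_, ?_⟩
  · exact Finset.sum_nonneg fun n hn => mul_nonneg (h _ (hh n hn).1 (hh n hn).2).1 (by positivity)
  · exact Finset.sum_nonneg fun n hn => mul_nonneg (h _ (hh n hn).1 (hh n hn).2).2.1 (by positivity)
  · rw [op, op, Finset.mul_sum]
    refine Finset.sum_le_sum fun n hn => ?_
    rw [← mul_assoc]
    exact mul_le_mul_of_nonneg_right (h _ (hh n hn).1 (hh n hn).2).2.2.1 (by positivity)
  · rw [op, op, Finset.mul_sum]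
    refine Finset.sum_le_sum fun n hn => ?_
    rw [← mul_assoc]
    exact mul_le_mul_of_nonneg_right (h _ (hh n hn).1 (hh n hn).2).2.2.2 (by positivity)

lemma W.left {N b b' : ℕ} {c : ℝ} {f g : ℕ → ℝ} (h : W N b c f g) (hb : b ≤ b') : W N b' c f g :=
  fun j h1 h2 => h j (hb.trans h1) h2

lemma W.opW {N b s : ℕ} {c : ℝ} {f g : ℕ → ℝ} (h : W N b c f g) : W N b c (op N s f) (op N s g) :=
  W.opW' (h.left (Nat.le_succ b))

lemma W.opsW {N b : ℕ} {c : ℝ} (w : List ℕ) : ∀ {f g : ℕ → ℝ}, W N b c f g → W N b c (ops N w f) (ops N w g) := by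
  induction w with
  | nil => intro f g h; exact h
  | cons s w ih => intro f g h; exact ih h.opW

lemma W.opsW' {N : ℕ} {c : ℝ} (w : List ℕ) : ∀ {b : ℕ} {f g : ℕ → ℝ}, W N (b + w.length) c f g →
    W N b c (ops N w f) (ops N w g) := by
  induction w with
  | nil => intro b f g h; exact h
  | cons s w ih =>
    intro b f g h
    refine ih (W.opW' ?_)
    rw [List.length_cons] at h
    exact h

lemma op_sub (N s : ℕ) (f g : ℕ → ℝ) : op N s (fun j => f j - g j) = fun j => op N s f j - op N s g j := by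
  funext j
  rw [op, op, op, ← Finset.sum_sub_distrib]
  exact Finset.sum_congr rfl fun n _ => by ring

lemma ops_sub (N : ℕ) (w : List ℕ) : ∀ f g : ℕ → ℝ, ops N w (fun j => f j - g j) = fun j => ops N w f j - ops N w g j := by
  induction w with
  | nil => intro f g; rfl
  | cons s w ih =>
    intro f g
    show ops N w (op N s _) = _
    rw [op_sub, ih]
    rfl

lemma op_smul (N s : ℕ) (r : ℝ) (f : ℕ → ℝ) : op N s (fun j => r * f j) = fun j => r * op N s f j := by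
  funext j
  rw [op, op, Finset.mul_sum]
  exact Finset.sum_congr rfl fun n _ => by ring

lemma ops_smul (N : ℕ) (r : ℝ) (w : List ℕ) : ∀ f : ℕ → ℝ, ops N w (fun j => r * f j) = fun j => r * ops N w f j := by
  induction w with
  | nil => intro f; rfl
  | cons s w ih =>
    intro f
    show ops N w (op N s _) = _
    rw [op_smul, ih]
    rfl

lemma op_congr {N s b : ℕ} {f g : ℕ → ℝ} (h : ∀ j, b ≤ j → j ≤ N → f j = g j) :
    ∀ j, b ≤ j + 1 → op N s f j = op N s g j := by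
  intro j hb
  rw [op, op]
  refine Finset.sum_congr rfl fun n hn => ?_
  have := Finset.mem_Ico.1 hn
  rw [h (n + 1) (by omega) (by omega)]

lemma star_op_le {N τ : ℕ} {α : ℝ} {f : ℕ → ℝ} (hf : R N α f) (hα : 2 ≤ α) (hτ : 1 ≤ τ) {b : ℕ} (hb : 1 ≤ b) :
    ∀ j : ℕ, b ≤ j → j ≤ N → star N (op N (τ + 1) f) j ≤ (2 / α + 2 / b) * (j * op N (τ + 1) f j) := by
  intro j hbj hjN
  have hR := R_op (s := τ + 1) hf (by omega) (by linarith)
  have hτr : (1 : ℝ) ≤ τ := by exact_mod_cast hτ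
  have hb0 : (1 : ℝ) ≤ b := by exact_mod_cast hb
  have hj0 : (b : ℝ) ≤ j := by exact_mod_cast hbj
  set β : ℝ := α + (τ + 1 : ℕ) - 1 with hβ
  have hβ1 : α + 1 ≤ β := by rw [hβ]; push_cast; linarith
  have h1 := star_bound hR (by linarith) j (by omega) hjN
  set S := op N (τ + 1) f j with hS
  have hS0 : 0 ≤ S := hR.1 j
  have h2 : star N (op N (τ + 1) f) j ≤ ((j + β) / (β - 1)) * S := by
    rw [div_mul_eq_mul_div, le_div_iff₀ (by linarith)]
    linarith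
  refine h2.trans ?_
  rw [← mul_assoc]
  refine mul_le_mul_of_nonneg_right ?_ hS0
  have e : (j + β) / (β - 1) = j / (β - 1) + β / (β - 1) := by rw [add_div]
  rw [e, add_mul]
  refine add_le_add ?_ ?_
  · rw [div_mul_eq_mul_div, div_le_div_iff₀ (by linarith) (by linarith)]
    nlinarith
  · have h3 : β / (β - 1) ≤ 2 := by rw [div_le_iff₀ (by linarith)]; linarith
    refine h3.trans ?_
    rw [div_mul_eq_mul_div, le_div_iff₀ (by linarith)]
    linarith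

/-- one unit of exponent -/
lemma unit_fun {N τ : ℕ} {α : ℝ} {f : ℕ → ℝ} (hf : R N α f) (hα : 2 ≤ α) (hτ : 1 ≤ τ) {b : ℕ} (hb : 1 ≤ b) :
    W N b (1 + (2 / α + 2 / b)) (op N τ f) (fun j => j * op N (τ + 1) f j) := by
  intro j hbj hjN
  have h1 := star_op_le hf hα hτ hb j hbj hjN
  have h2 := op_identity N τ f j (by omega) hjN
  have h3 := star_nonneg (N := N) (f := op N (τ + 1) f) (op_nonneg hf.1) j
  have h4 := op_nonneg (N := N) (s := τ + 1) hf.1 j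
  have h5 : (0 : ℝ) ≤ j * op N (τ + 1) f j := mul_nonneg (Nat.cast_nonneg _) h4
  have h6 : (0 : ℝ) ≤ 2 / α + 2 / b := by positivity
  have h7 := op_nonneg (N := N) (s := τ) hf.1 j
  refine ⟨h7, h5, ?_, ?_⟩
  · linarith
  · have h8 := mul_nonneg h6 h7
    nlinarith

end Pool.Agent.K9h92.MP2
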