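import Pool.Agent.K9h92.MP.Stm

set_option autoImplicit false

/-! # Leaf STAR: the operators `star` and `op` commute up to a factor (helper86) -/

namespace Pool.Agent.K9h92.MP

open Finset

/-- the function `f(m) / m ^ k` -/
noncomputable def dv (k : ℕ) (f : ℕ → ℝ) (m : ℕ) : ℝ := f m * (((m : ℕ) : ℝ) ^ k)⁻¹

lemma star_top (N : ℕ) (f : ℕ → ℝ) : star N f N = 0 := by simp [star]

lemma star_succ (N : ℕ) (f : ℕ → ℝ) {i : ℕ} (hi : i < N) : star N f i = f i + star N f (i + 1) := by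
  unfold star
  rw [Finset.sum_eq_sum_Ico_succ_bot hi]

lemma star_nonneg {N : ℕ} {f : ℕ → ℝ} (hf : ∀ j, 0 ≤ f j) (i : ℕ) : 0 ≤ star N f i :=
  Finset.sum_nonneg fun _ _ => hf _

/-- downward induction -/
lemma down {N : ℕ} {P : ℕ → Prop} (h0 : P N) (h1 : ∀ i, 1 ≤ i → i < N → P (i + 1) → P i) :
    ∀ i, 1 ≤ i → i ≤ N → P i := by
  have key : ∀ d i, 1 ≤ i → i + d = N → P i := by
    intro d
    induction d with
    | zero => intro i _ hi; have : i = N := by omega
              rw [this]; exact h0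
    | succ d ih => intro i hi1 hi; exact h1 i hi1 (by omega) (ih (i + 1) (by omega) (by omega))
  intro i hi hiN
  exact key (N - i) i hi (by omega)

lemma R_dv {N k : ℕ} {γ : ℝ} {f : ℕ → ℝ} (hγ : 0 ≤ γ) (hf : R N γ f) : R N (γ + k) (dv k f) := by
  induction k with
  | zero =>
    have : dv 0 f = f := by funext m; simp [dv]
    rw [this]; simpa using hf
  | succ k ih =>
    obtain ⟨h0, h1⟩ := ih
    refine ⟨fun j => ?_, fun j hj hjN => ?_⟩
    · unfold dv
      exact mul_nonneg (hf.1 j) (by positivity)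
    · have hj0 : (0 : ℝ) < j := by exact_mod_cast hj
      have e1 : ∀ m : ℕ, 1 ≤ m → dv (k + 1) f m = dv k f m / m := by
        intro m hm
        have hm0 : (0 : ℝ) < m := by exact_mod_cast hm
        unfold dv
        rw [pow_succ]
        field_simp
      rw [e1 (j + 1) (by omega), e1 j hj]
      have h2 := h1 j hj hjN
      have h3 := h0 j
      have h4 := h0 (j + 1)
      have hk : (0 : ℝ) ≤ k := Nat.cast_nonneg k
      push_cast
      have hj1 : (0 : ℝ) < (j : ℝ) + 1 := by positivity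
      -- set a = dv k f j, b = dv k f (j+1)
      set a := dv k f j
      set b := dv k f (j + 1)
      rw [mul_div_assoc', mul_div_assoc', div_le_div_iff₀ hj1 hj0]
      -- (j+1+(γ+(k+1))) * b * j ≤ (j+1) * a * (j+1)
      have h5 : ((j : ℝ) + 1 + (γ + (k + 1))) * j ≤ ((j : ℝ) + 1) * ((j : ℝ) + 1 + (γ + k)) := by nlinarith
      calc ((j : ℝ) + 1 + (γ + (k + 1))) * b * j = (((j : ℝ) + 1 + (γ + (k + 1))) * j) * b := by ring
        _ ≤ (((j : ℝ) + 1) * ((j : ℝ) + 1 + (γ + k))) * b := mul_le_mul_of_nonneg_right h5 h4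
        _ = ((j : ℝ) + 1) * (((j : ℝ) + 1 + (γ + k)) * b) := by ring
        _ ≤ ((j : ℝ) + 1) * (((j : ℝ) + 1) * a) := mul_le_mul_of_nonneg_left h2 hj1.le
        _ = ((j : ℝ) + 1) * a * ((j : ℝ) + 1) := by ring

/-- (a) -/
lemma star_le {N : ℕ} {γ : ℝ} {g : ℕ → ℝ} (hγ : 1 < γ) (hg : R N γ g) :
    ∀ i, 1 ≤ i → i ≤ N → (γ - 1) * star N g i ≤ ((i : ℝ) + γ) * g i := by
  apply down
  · rw [star_top, mul_zero]
    exact mul_nonneg (by positivity) (hg.1 N)
  · intro i hi hiN ih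
    rw [star_succ N g hiN]
    have h1 := hg.2 i hi hiN
    push_cast at ih
    nlinarith

/-- (b) -/
lemma star_mul_le {N : ℕ} {γ : ℝ} {g : ℕ → ℝ} (hγ : 2 < γ) (hg : R N γ g) :
    ∀ i, 1 ≤ i → i ≤ N → (γ - 2) * (star N (fun m => (m : ℝ) * g m) i - i * star N g i) ≤
      ((i : ℝ) + 1) * star N g i := by
  apply down
  · simp [star_top]
  · intro i hi hiN ih
    have h1 := hg.2 i hi hiN
    have h2 := star_le (by linarith) hg (i + 1) (by omega) hiN
    rw [star_succ N g hiN, star_succ N (fun m => (m : ℝ) * g m) hiN]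
    push_cast at ih h2
    have h3 : (γ - 1) * star N g (i + 1) ≤ ((i : ℝ) + 1) * g i := by linarith
    have e : (i : ℝ) * g i + star N (fun m => (m : ℝ) * g m) (i + 1) - i * (g i + star N g (i + 1))
        = (star N (fun m => (m : ℝ) * g m) (i + 1) - ((i : ℝ) + 1) * star N g (i + 1)) + star N g (i + 1) := by ring
    rw [e, mul_add]
    nlinarith

/-- one division -/
lemma star_div {N : ℕ} {γ : ℝ} {f : ℕ → ℝ} (k : ℕ) (hγ : 1 < γ) (hf : R N γ f) {i : ℕ} (hi : 1 ≤ i)
    (hiN : i ≤ N) : star N (dv k f) i ≤ (1 + 2 / (γ - 1)) * ((i : ℝ) * star N (dv (k + 1) f) i) := by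
  have hg : R N (γ + (k + 1 : ℕ)) (dv (k + 1) f) := R_dv (by linarith) hf
  have hk : (0 : ℝ) ≤ k := Nat.cast_nonneg k
  have h1 := star_mul_le (by push_cast; linarith) hg i hi hiN
  have e : star N (fun m => (m : ℝ) * dv (k + 1) f m) i = star N (dv k f) i := by
    unfold star
    refine Finset.sum_congr rfl fun m hm => ?_
    have hm1 : 1 ≤ m := hi.trans (Finset.mem_Ico.1 hm).1
    have hm0 : (0 : ℝ) < m := by exact_mod_cast hm1
    show (m : ℝ) * (f m * (((m : ℕ) : ℝ) ^ (k + 1))⁻¹) = f m * (((m : ℕ) : ℝ) ^ k)⁻¹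
    rw [pow_succ]
    field_simp
  rw [e] at h1
  have hi0 : (1 : ℝ) ≤ i := by exact_mod_cast hi
  have hs : 0 ≤ star N (dv (k + 1) f) i := star_nonneg hg.1 i
  have hc : 0 < γ - 1 := by linarith
  push_cast at h1
  set S := star N (dv (k + 1) f) i
  set T := star N (dv k f) i
  have h2 : (γ - 1) * (T - i * S) ≤ 2 * (i * S) := by
    rcases le_or_gt (T - i * S) 0 with h | h
    · have : (γ - 1) * (T - i * S) ≤ 0 := mul_nonpos_of_nonneg_of_nonpos hc.le h
      have : 0 ≤ (i : ℝ) * S := mul_nonneg (by linarith) hs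
      linarith
    · have h3 : (γ - 1) * (T - i * S) ≤ (γ + (k + 1) - 2) * (T - i * S) :=
        mul_le_mul_of_nonneg_right (by linarith) h.le
      have h4 : ((i : ℝ) + 1) * S ≤ 2 * (i * S) := by nlinarith
      linarith
  have h5 : T - i * S ≤ 2 / (γ - 1) * (i * S) := by
    rw [div_mul_eq_mul_div, le_div_iff₀ hc]
    linarith
  have : (1 + 2 / (γ - 1)) * (i * S) = i * S + 2 / (γ - 1) * (i * S) := by ring
  linarith

lemma star_iter {N : ℕ} {γ : ℝ} {f : ℕ → ℝ} (hγ : 1 < γ) (hf : R N γ f) {i : ℕ} (hi : 1 ≤ i)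
    (hiN : i ≤ N) (k : ℕ) : star N f i ≤ (1 + 2 / (γ - 1)) ^ k * ((i : ℝ) ^ k * star N (dv k f) i) := by
  have hc : 0 < γ - 1 := by linarith
  induction k with
  | zero =>
    have : dv 0 f = f := by funext m; simp [dv]
    simp [this]
  | succ k ih =>
    refine ih.trans ?_
    have h1 := star_div k hγ hf hi hiN
    have h2 : (0 : ℝ) ≤ (1 + 2 / (γ - 1)) ^ k * (i : ℝ) ^ k := by positivity
    calc (1 + 2 / (γ - 1)) ^ k * ((i : ℝ) ^ k * star N (dv k f) i)
        = ((1 + 2 / (γ - 1)) ^ k * (i : ℝ) ^ k) * star N (dv k f) i := by ring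
      _ ≤ ((1 + 2 / (γ - 1)) ^ k * (i : ℝ) ^ k) *
          ((1 + 2 / (γ - 1)) * ((i : ℝ) * star N (dv (k + 1) f) i)) := mul_le_mul_of_nonneg_left h1 h2
      _ = _ := by ring

theorem star_thm : S_STAR := by
  intro N t γ f hγ hf hN j hj hjN
  have hc : 0 < γ - 1 := by linarith
  have hop : ∀ m, m < N → op N t f m = star N (dv t f) (m + 1) := by
    intro m hm
    have e1 : op N t f m = ∑ n ∈ Finset.Ico m N, dv t f (n + 1) := rfl
    have e2 : ∑ n ∈ Finset.Ico m N, dv t f (n + 1) = ∑ n ∈ Finset.Ico (m + 1) (N + 1), dv t f n := by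
      rw [← Finset.sum_Ico_add' (fun n => dv t f n) m N 1]
    rw [e1, e2, Finset.sum_Ico_succ_top (by omega)]
    have : dv t f N = 0 := by simp [dv, hN]
    rw [this, add_zero]
    rfl
  have hA : star N (op N t f) j = ∑ m ∈ Finset.Ico j N, star N (dv t f) (m + 1) := by
    unfold star
    refine Finset.sum_congr rfl fun m hm => ?_
    exact hop m (Finset.mem_Ico.1 hm).2
  have hB : op N t (star N f) j = ∑ m ∈ Finset.Ico j N, star N f (m + 1) * (((m + 1 : ℕ) : ℝ) ^ t)⁻¹ := rfl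
  rw [hA, hB]
  constructor
  · refine Finset.sum_le_sum fun m hm => ?_
    have hm' := Finset.mem_Ico.1 hm
    unfold star
    rw [Finset.sum_mul]
    refine Finset.sum_le_sum fun n hn => ?_
    have hn' := Finset.mem_Ico.1 hn
    unfold dv
    refine mul_le_mul_of_nonneg_left ?_ (hf.1 n)
    apply inv_anti₀ (by positivity)
    apply pow_le_pow_left₀ (by positivity)
    exact_mod_cast hn'.1
  · rw [Finset.mul_sum]
    refine Finset.sum_le_sum fun m hm => ?_
    have hm' := Finset.mem_Ico.1 hm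
    have h1 := star_iter hγ hf (i := m + 1) (by omega) (by omega) t
    have h2 : (0 : ℝ) < ((m + 1 : ℕ) : ℝ) ^ t := by positivity
    rw [← div_eq_mul_inv, div_le_iff₀ h2]
    calc star N f (m + 1) ≤ _ := h1
      _ = _ := by ring

end Pool.Agent.K9h92.MP
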