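import Mathlib

/-!
# MP_c2d7b4_nt: words `p u q` with a long first part and a long last part: definitions and leaves (helper92)

`op N s` appends the letter `s` (a strictly smaller variable with exponent `s`), `star N` is a weak sum with exponent 0,
`ops N w` appends the letters of `w` one after the other (head first = largest variable first).
-/

set_option autoImplicit false

namespace Pool.Agent.K9h92.MP

/-- `op N s f j = ∑_{j < i ≤ N} f(i) i^(-s)` -/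
noncomputable def op (N s : ℕ) (f : ℕ → ℝ) (j : ℕ) : ℝ := ∑ n ∈ Finset.Ico j N, f (n + 1) * (((n + 1 : ℕ) : ℝ) ^ s)⁻¹

/-- `star N f j = ∑_{j ≤ m < N} f(m)` -/
noncomputable def star (N : ℕ) (f : ℕ → ℝ) (j : ℕ) : ℝ := ∑ n ∈ Finset.Ico j N, f n

/-- append the letters of a word, head first -/
noncomputable def ops (N : ℕ) : List ℕ → (ℕ → ℝ) → (ℕ → ℝ)
  | [], f => f
  | s :: w, f => ops N w (op N s f)

/-- `f ≥ 0` decreases at least like `∏ i / (i + α)` -/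
def R (N : ℕ) (α : ℝ) (f : ℕ → ℝ) : Prop :=
  (∀ j, 0 ≤ f j) ∧ ∀ j : ℕ, 1 ≤ j → j < N → ((j : ℝ) + 1 + α) * f (j + 1) ≤ ((j : ℝ) + 1) * f j

/-- LEAF STAR. With `F(j) = star N f j`, `op N t F j = ∑_{j < i ≤ N} i^(-t) ∑_{i ≤ m < N} f(m)` and
`star N (op N t f) j = ∑_{j ≤ m < N} ∑_{m < i ≤ N} i^(-t) f(i) = ∑_{j < i ≤ N} (i - j) i^(-t) f(i)`.
First inequality: exchange the sums in the first: `∑_{j < m < N} f(m) ∑_{j < i ≤ m} i^(-t) ≥ ∑_m f(m) (m - j) m^(-t)`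
(use `f N = 0`). Second inequality: (a) for `g` with `R N γ' g`, `γ' > 2`: `(γ' - 1) * star g j ≤ (j + γ') * g j`
by downward induction on `j`, so `star g` has `R N (γ' - 1)`;
(b) `∑_{m ≥ j} (m - j) g(m) = ∑_{i > j} star g i ≤ (j + 1) / (γ' - 2) * star g j` (downward induction again),
so with `g = f(m) / m` (which has `R N (γ + 1)`): `star f j ≤ (1 + 2 / (γ - 1)) j * star (f / m) j` for `j ≥ 1`;
(c) iterate `t` times: `star f i ≤ (1 + 2 / (γ - 1)) ^ t * i ^ t * star (f m ^ (-t)) i`, and sum over `i > j`: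
`∑_{j < i} star (f m^(-t)) i = ∑_m (m - j) m^(-t) f(m)`. -/
def S_STAR : Prop := ∀ (N t : ℕ) (γ : ℝ) (f : ℕ → ℝ), 1 < γ → R N γ f → f N = 0 → ∀ j : ℕ, 1 ≤ j → j ≤ N →
  star N (op N t f) j ≤ op N t (star N f) j ∧
    op N t (star N f) j ≤ (1 + 2 / (γ - 1)) ^ t * star N (op N t f) j

/-- LEAF FIN (real numbers only). If `M0 = ∑ c ≠ 0`: `|∑ c Z| ≥ |M0| Z0 - |∑ c n| Δ - ∑ |c| K (1/a + 1/b) Δ` with
`Δ ≤ K (1/a + 1/b) Z0`, and `|c| ≤ κ min(a, b)` gives `|c| K (1/a + 1/b) ≤ 2 κ K`. If `M0 = 0` the same with `Δ`. -/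
def S_FIN : Prop := ∀ (ι : Type) (U : Finset ι) (n : ι → ℕ) (K : ℝ), 0 ≤ K → ∃ κ : ℝ, 0 < κ ∧
  ∀ (a b : ℕ) (Z : ι → ℝ) (Z0 Δ : ℝ), 1 ≤ a → 1 ≤ b → 0 < Δ → 0 < Z0 → Δ ≤ K * (1 / a + 1 / b) * Z0 →
  (∀ u ∈ U, |Z u - Z0 - n u * Δ| ≤ K * (1 / a + 1 / b) * Δ) →
  ∀ c : ι → ℤ, (∀ u ∈ U, |(c u : ℝ)| ≤ κ * (min a b : ℕ)) →
    ((∑ u ∈ U, c u ≠ 0) → Z0 / 2 ≤ |∑ u ∈ U, (c u : ℝ) * Z u|) ∧
    ((∑ u ∈ U, c u = 0) → (∑ u ∈ U, c u * n u ≠ 0) → Δ / 2 ≤ |∑ u ∈ U, (c u : ℝ) * Z u|)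

/-- the number of unit moves which bring all the excess to the first letter -/
def nn : List ℕ → ℕ
  | [] => 0
  | _ :: y => nn y + (y.map (· - 1)).sum

end Pool.Agent.K9h92.MP
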