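import Pool.Agent.K9h92.MP.Ops

/-!
# MP_c2d7b4_nt: all finite differences (helper92): definitions and leaves

Operators on functions `ℕ → ℝ` (points `j ≥ 1`): `Mo f j = f j / j`, `Io N f j = ∑_{j < i ≤ N} f i`; words in
`true` (= Io) and `false` (= Mo), HEAD APPLIED FIRST. Exact relation for `j ≥ 1`:
`Mo (Io f) = Io (Mo f) + Mo (Io (Mo f)) + Mo (Io (Io (Mo f)))`.
-/

set_option autoImplicit false

namespace Pool.Agent.K9h92.MQ

open Pool.Agent.K9h92.MP Pool.Agent.K9h92.MP2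

noncomputable def Mo (f : ℕ → ℝ) (j : ℕ) : ℝ := f j * (j : ℝ)⁻¹

noncomputable def Io (N : ℕ) (f : ℕ → ℝ) (j : ℕ) : ℝ := ∑ n ∈ Finset.Ico j N, f (n + 1)

noncomputable def ev (N : ℕ) : List Bool → (ℕ → ℝ) → (ℕ → ℝ)
  | [], f => f
  | true :: w, f => ev N w (Io N f)
  | false :: w, f => ev N w (Mo f)

def R2 (N : ℕ) (σ γ : ℝ) (f : ℕ → ℝ) : Prop :=
  (∀ j, 0 ≤ f j) ∧ ∀ j : ℕ, 1 ≤ j → j < N → ((j : ℝ) + σ + γ) * f (j + 1) ≤ ((j : ℝ) + σ) * f j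

/-- LEAF A. (1) `R2 σ γ f → R2 σ (γ + 1) (Mo f)` (`σ + γ ≥ 0`), `R2 σ γ f → R2 (σ + 1) (γ - 1) (Io f)` for `γ ≥ 1`, from
`(γ - 1) * Io f j ≤ (j + σ) * f j` for `1 ≤ j ≤ N` (downward induction, MP2.down).
(2) `Io (Mo f) ≤ Mo (Io f) ≤ (1 + 2 / b + 1 / (A + 1)) Io (Mo f)` for `b ≤ j ≤ N` if `σ ≤ A`, `A + 2 ≤ γ`: by the exact
relation with `G = Io (Mo f)` (in `R2 (σ + 1) γ`), `Mo (G + Io G) j ≤ (1 + (j + σ + 1) / (γ - 1)) / j * G j`.
(3) induction on `List.Perm` for all `f`; `swap` is (2) followed by monotonicity of `ev` for `W` (like `W.opsW`). -/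
def S_A : Prop := ∀ w w' : List Bool, w.Perm w' → ∃ K : ℕ, ∀ (N b : ℕ) (A E : ℝ) (f : ℕ → ℝ), 1 ≤ b → 0 ≤ A →
  1 + (2 / b + 1 / (A + 1)) ≤ E →
  (∃ σ γ : ℝ, R2 N σ γ f ∧ 0 ≤ σ ∧ σ + w.length ≤ A ∧ A + w.length + 2 ≤ γ) →
    W N b (E ^ K) (ev N w f) (ev N w' f)

/-- LEAF B. For `s ≥ 1` and `A_i = g(i) i^(-s)`, `β = γ + s - 1`: `(i + σ + β) A_{i+1} ≤ (i + σ - 1) A_i` for `i ≥ 1`
(compare MP2.key2, here with `σ ≥ 1`), so `S = op N s g` satisfies `β S(j) ≤ (j + σ - 1) A_j` (`j ≥ 1`),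
`(j + σ + β) S(j+1) ≤ (j + σ) S(j)` for all `j ≥ 0`, `j < N`, and (downward induction)
`(β - 1) ∑_{i > j} (i - j) A_i ≤ (j + σ - 1 + β) S(j)` for all `j ≥ 0`. So
`op N s (fun j => (j + τ) * g j) l ≤ β / (β - 1) * (l + τ + 2) * op N s g l`. Iterate over the letters of `q` (`op N s g`
has `R2 σ β`, `β ≥ γ`): `ops N q (fun j => (j + τ) * g j) l ≤ (1 + 1 / (γ - 1)) ^ |q| * (l + τ + 2 |q|) * ops N q g l`,
and `(1 + 1 / (γ - 1)) ^ |q| ≤ exp (|q| / (γ - 1)) ≤ exp (2 Λ)`. `C = 2 * exp (2 * Λ)`. -/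
def S_B : Prop := ∀ Λ : ℝ, 0 ≤ Λ → ∃ C : ℝ, 0 < C ∧ ∀ (N : ℕ) (q : List ℕ) (g : ℕ → ℝ) (σ γ : ℝ), (∀ x ∈ q, 1 ≤ x) →
  R2 N σ γ g → 1 ≤ σ → σ ≤ γ → 2 ≤ γ → (q.length : ℝ) ≤ Λ * γ →
    ops N q (fun j => (j : ℝ) * g j) 0 ≤ C * q.length * ops N q g 0

def der1 : Bool → List (ℤ × List Bool)
  | false => [(1, [false, false, false, true, false]), (1, [false, false, false, true, true, false])]
  | true => [(-1, [false, true, false, false, true]), (-1, [false, true, true, false, false, true]),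
      (-1, [false, false, true, false, true]), (-1, [false, false, true, true, false, true])]

def der : List Bool → List (ℤ × List Bool)
  | [] => []
  | a :: w => (der1 a).map (fun x => (x.1, x.2 ++ w)) ++ (der w).map (fun x => (x.1, a :: x.2))

/-- LEAF C. The commutator with `J = Io Mo Mo` (word `[false, false, true]`); induction on `w`, the case of one letter is
the exact relation of the header (`Io (Mo f)` versus `Mo (Io f)`, valid at points `j ≥ 1`; all points which occur are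
`≥ 1` because `Io` evaluates at `n + 1`). Second part: counting letters. -/
def S_C : Prop :=
  (∀ (w : List Bool) (N : ℕ) (f : ℕ → ℝ) (j : ℕ), 1 ≤ j →
    ev N ([false, false, true] ++ w) f j - ev N (w ++ [false, false, true]) f j =
      ((der w).map fun x => (x.1 : ℝ) * ev N x.2 f j).sum) ∧
  (∀ (w : List Bool) (v : ℕ → ℕ → ℝ), ((der w).map fun x => (x.1 : ℝ) * v (x.2.count true) (x.2.count false)).sum =
    ((w.count false : ℝ) - 2 * w.count true) *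
      (v (w.count true + 1) (w.count false + 3) + v (w.count true + 2) (w.count false + 3)))

/-- LEAF D (real numbers only). Newton: `a 0 x = ∑_{k ≤ x} (x choose k) a k 0`, so `∑ c x a 0 x = ∑_k C_k a k 0` with
`C_k = ∑_x c x (x choose k)`; not all `C_k` vanish (triangular), let `k` be minimal with `C_k ≠ 0`: then
`|∑| ≥ |a k 0| - ∑_{k' > k} |C_k'| |a k' 0| > 0` for small `κ`. -/
def S_D : Prop := ∀ (r : ℕ) (K0 : ℝ), 1 ≤ K0 → ∃ κ : ℝ, 0 < κ ∧ ∀ (b : ℕ) (a : ℕ → ℕ → ℝ) (v : ℕ → ℝ), 1 ≤ b →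
  (∀ k x, k + x + 1 < r → a (k + 1) x = a k (x + 1) - a k x) → (∀ k < r, 0 < v k) → (∀ k < r, v k ≤ K0 * a k 0) →
  (∀ k < r, |a k 0| ≤ K0 * v k) → (∀ k, k + 1 < r → v (k + 1) ≤ K0 / b * v k) →
  ∀ c : ℕ → ℤ, (∀ x < r, |(c x : ℝ)| ≤ κ * b) → (∃ x < r, c x ≠ 0) → ∑ x ∈ Finset.range r, (c x : ℝ) * a 0 x ≠ 0

end Pool.Agent.K9h92.MQ
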